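import Mathlib

/-! Averages over random maps. -/

set_option autoImplicit false
set_option linter.unusedSectionVars false

open MeasureTheory ProbabilityTheory Filter Topology
open scoped ENNReal NNReal

namespace Pool.Agent.Helper99.MD

section Avg

variable {E Z : Type*} [MeasurableSpace E] [MeasurableSpace Z]

/-- average of `F` over a random map -/
noncomputable def avg (ν : Measure Z) (S : E × Z → E) (F : E → ℝ) (x : E) : ℝ :=
  ∫ z, F (S (x, z)) ∂ν

variable {P : Measure E} {ν : Measure Z} [IsProbabilityMeasure P] [IsProbabilityMeasure ν]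
  {S : E × Z → E}

theorem avg_congr (hS : MeasurePreserving S (P.prod ν) P) {F G : E → ℝ} (h : F =ᵐ[P] G) :
    avg ν S F =ᵐ[P] avg ν S G := by
  have h1 : (fun z => F (S z)) =ᵐ[P.prod ν] fun z => G (S z) :=
    hS.quasiMeasurePreserving.ae_eq_comp h
  have h2 := Measure.ae_ae_of_ae_prod h1
  filter_upwards [h2] with x hx
  exact integral_congr_ae hx

theorem avg_aesm (hS : MeasurePreserving S (P.prod ν) P) {F : E → ℝ}
    (hF : AEStronglyMeasurable F P) : AEStronglyMeasurable (avg ν S F) P :=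
  (hF.comp_measurePreserving hS).integral_prod_right'

theorem eLpNorm_avg_le (hS : MeasurePreserving S (P.prod ν) P) {F : E → ℝ}
    (hF : AEStronglyMeasurable F P) {p : ℝ} (hp : 1 ≤ p) :
    eLpNorm (avg ν S F) (ENNReal.ofReal p) P ≤ eLpNorm F (ENNReal.ofReal p) P := by
  have hp0 : 0 < p := by linarith
  have hpn : ENNReal.ofReal p ≠ 0 := by simpa using hp0
  have hpt : ENNReal.ofReal p ≠ ∞ := ENNReal.ofReal_ne_top
  rw [eLpNorm_eq_lintegral_rpow_enorm_toReal hpn hpt, eLpNorm_eq_lintegral_rpow_enorm_toReal hpn hpt]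
  rw [ENNReal.toReal_ofReal hp0.le]
  refine ENNReal.rpow_le_rpow ?_ (by positivity)
  have hFS := hF.comp_measurePreserving hS
  have h1 : ∀ᵐ x ∂P, AEStronglyMeasurable (fun z => F (S (x, z))) ν := hFS.prodMk_left
  have h2 : ∀ᵐ x ∂P, ‖avg ν S F x‖ₑ ^ p ≤ ∫⁻ z, ‖F (S (x, z))‖ₑ ^ p ∂ν := by
    filter_upwards [h1] with x hx
    have h3 : ‖avg ν S F x‖ₑ ≤ eLpNorm (fun z => F (S (x, z))) 1 ν := by
      rw [eLpNorm_one_eq_lintegral_enorm]
      exact enorm_integral_le_lintegral_enorm _
    have h4 : eLpNorm (fun z => F (S (x, z))) 1 ν ≤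
        eLpNorm (fun z => F (S (x, z))) (ENNReal.ofReal p) ν :=
      eLpNorm_le_eLpNorm_of_exponent_le (by simpa using hp) hx
    have h5 := h3.trans h4
    rw [eLpNorm_eq_lintegral_rpow_enorm_toReal hpn hpt, ENNReal.toReal_ofReal hp0.le] at h5
    calc ‖avg ν S F x‖ₑ ^ p ≤ ((∫⁻ z, ‖F (S (x, z))‖ₑ ^ p ∂ν) ^ (1 / p)) ^ p := by gcongr
      _ = ∫⁻ z, ‖F (S (x, z))‖ₑ ^ p ∂ν := by
        rw [← ENNReal.rpow_mul, one_div_mul_cancel hp0.ne', ENNReal.rpow_one]
  calc ∫⁻ x, ‖avg ν S F x‖ₑ ^ p ∂P ≤ ∫⁻ x, ∫⁻ z, ‖F (S (x, z))‖ₑ ^ p ∂ν ∂P := lintegral_mono_ae h2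
    _ = ∫⁻ w, ‖F (S w)‖ₑ ^ p ∂(P.prod ν) := by
        rw [lintegral_prod]
        exact (hFS.enorm.pow_const p)
    _ = ∫⁻ x, ‖F x‖ₑ ^ p ∂P := by
        have h6 := lintegral_map' (μ := P.prod ν) (f := fun x => ‖F x‖ₑ ^ p) (g := S)
          (by rw [hS.map_eq]; exact hF.enorm.pow_const p) hS.measurable.aemeasurable
        rw [hS.map_eq] at h6
        exact h6.symm

theorem avg_memLp (hS : MeasurePreserving S (P.prod ν) P) {F : E → ℝ} {p : ℝ} (hp : 1 ≤ p)
    (hF : MemLp F (ENNReal.ofReal p) P) : MemLp (avg ν S F) (ENNReal.ofReal p) P :=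
  ⟨avg_aesm hS hF.1, (eLpNorm_avg_le hS hF.1 hp).trans_lt hF.2⟩

theorem integrable_comp (hS : MeasurePreserving S (P.prod ν) P) {F : E → ℝ}
    (hF : Integrable F P) : Integrable (fun w => F (S w)) (P.prod ν) :=
  hS.integrable_comp_of_integrable hF

theorem ae_integrable (hS : MeasurePreserving S (P.prod ν) P) {F : E → ℝ}
    (hF : Integrable F P) : ∀ᵐ x ∂P, Integrable (fun z => F (S (x, z))) ν :=
  (integrable_comp hS hF).prod_right_ae

theorem avg_add (hS : MeasurePreserving S (P.prod ν) P) {F G : E → ℝ}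
    (hF : Integrable F P) (hG : Integrable G P) :
    avg ν S (fun x => F x + G x) =ᵐ[P] fun x => avg ν S F x + avg ν S G x := by
  filter_upwards [ae_integrable hS hF, ae_integrable hS hG] with x h1 h2
  exact integral_add h1 h2

theorem avg_sub (hS : MeasurePreserving S (P.prod ν) P) {F G : E → ℝ}
    (hF : Integrable F P) (hG : Integrable G P) :
    avg ν S (fun x => F x - G x) =ᵐ[P] fun x => avg ν S F x - avg ν S G x := by
  filter_upwards [ae_integrable hS hF, ae_integrable hS hG] with x h1 h2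
  exact integral_sub h1 h2

theorem avg_const_mul (c : ℝ) (F : E → ℝ) :
    avg ν S (fun x => c * F x) = fun x => c * avg ν S F x := by
  funext x
  exact integral_const_mul c _

theorem avg_div (c : ℝ) (F : E → ℝ) :
    avg ν S (fun x => F x / c) = fun x => avg ν S F x / c := by
  funext x
  exact integral_div c _

end Avg

section Comp

variable {E Z W V : Type*} [MeasurableSpace E] [MeasurableSpace Z] [MeasurableSpace W]
  [MeasurableSpace V] {P : Measure E} {ν : Measure Z} {κ : Measure W} {ξ : Measure V}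
  [IsProbabilityMeasure P] [IsProbabilityMeasure ν] [IsProbabilityMeasure κ]
  [IsProbabilityMeasure ξ]
  {S : E × Z → E} {R : E × W → E} {Q : E × V → E}

/-- composition of two averages whose composed law is the law of a third one -/
theorem avg_avg (hS : MeasurePreserving S (P.prod ν) P) (hR : MeasurePreserving R (P.prod κ) P)
    (hQ : MeasurePreserving Q (P.prod ξ) P)
    (h : ∀ x, (ν.prod κ).map (fun w => R (S (x, w.1), w.2)) = ξ.map (fun v => Q (x, v)))
    {F : E → ℝ} (hF : Integrable F P) :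
    avg ν S (avg κ R F) =ᵐ[P] avg ξ Q F := by
  -- reduce to a measurable F
  obtain ⟨G, hG, hFG⟩ := hF.1
  have hGi : Integrable G P := hF.congr hFG
  have e1 : avg ν S (avg κ R F) =ᵐ[P] avg ν S (avg κ R G) := avg_congr hS (avg_congr hR hFG)
  have e2 : avg ξ Q F =ᵐ[P] avg ξ Q G := avg_congr hQ hFG
  refine e1.trans (EventuallyEq.trans ?_ e2.symm)
  have hGm : Measurable G := hG.measurable
  -- almost every x is good
  have hT : MeasurePreserving (fun w : E × (Z × W) => R (S (w.1, w.2.1), w.2.2))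
      (P.prod (ν.prod κ)) P := by
    have h1 : MeasurePreserving (fun w : (E × Z) × W => (S w.1, w.2)) ((P.prod ν).prod κ)
        (P.prod κ) := hS.prod (MeasurePreserving.id κ)
    have h2 := hR.comp h1
    have h3 : MeasurePreserving (MeasurableEquiv.prodAssoc : (E × Z) × W ≃ᵐ E × (Z × W))
        ((P.prod ν).prod κ) (P.prod (ν.prod κ)) := measurePreserving_prodAssoc P ν κ
    exact h2.comp (h3.symm MeasurableEquiv.prodAssoc)
  have hi := ae_integrable hT hGi
  filter_upwards [hi] with x hx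
  have h1 : avg ν S (avg κ R G) x = ∫ w, G (R (S (x, w.1), w.2)) ∂(ν.prod κ) := by
    rw [integral_prod _ hx]
    rfl
  have hm1 : Measurable (fun w : Z × W => R (S (x, w.1), w.2)) :=
    hR.measurable.comp ((hS.measurable.comp (measurable_const.prodMk measurable_fst)).prodMk
      measurable_snd)
  have hm2 : Measurable (fun v : V => Q (x, v)) :=
    hQ.measurable.comp (measurable_const.prodMk measurable_id)
  rw [h1]
  unfold avg
  rw [← integral_map (φ := fun w : Z × W => R (S (x, w.1), w.2)) hm1.aemeasurable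
    hG.aestronglyMeasurable, h x, integral_map hm2.aemeasurable hG.aestronglyMeasurable]

end Comp

end Pool.Agent.Helper99.MD
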