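import Mathlib

/-! Centered Gaussian measures, Mehler's formula, Bessel potentials: definitions. -/

set_option autoImplicit false

open MeasureTheory ProbabilityTheory

namespace Pool.Agent.Helper99.MD

variable {E : Type*} [NormedAddCommGroup E] [NormedSpace ℝ E] [MeasurableSpace E]

/-- centered Gaussian measures -/
structure IsCG (P : Measure E) : Prop where
  gauss : IsGaussian P
  mean : ∀ L : StrongDual ℝ E, ∫ x, L x ∂P = 0

/-- the point `e^{-t} x + √(1 - e^{-2t}) y` -/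
noncomputable def mix (t : ℝ) (x y : E) : E :=
  Real.exp (-t) • x + √(1 - Real.exp (-(2 * t))) • y

/-- the Ornstein-Uhlenbeck semigroup `e^{-tL}`, by Mehler's formula -/
noncomputable def ou (P : Measure E) (t : ℝ) (F : E → ℝ) (x : E) : ℝ :=
  ∫ y, F (mix t x y) ∂P

/-- Bessel potential of order `r`,
`(I + L)^{-r/2} F = Γ(r/2)⁻¹ ∫_0^∞ t^{r/2-1} e^{-t} e^{-tL} F dt` -/
noncomputable def bessel (P : Measure E) (r : ℕ) (F : E → ℝ) (x : E) : ℝ :=
  (Real.Gamma ((r : ℝ) / 2))⁻¹ *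
    ∫ t in Set.Ioi (0 : ℝ), t ^ ((r : ℝ) / 2 - 1) * Real.exp (-t) * ou P t F x

/-- the norm `‖F‖_{p,r} = ‖(I+L)^{r/2} F‖_p`, that is `‖G‖_p` where `F = (I+L)^{-r/2} G` -/
noncomputable def sobNorm (P : Measure E) (p : ℝ) (r : ℕ) (F : E → ℝ) : ℝ :=
  sInf {c | ∃ G : E → ℝ, (MemLp G (ENNReal.ofReal p) P ∧ F =ᵐ[P] bessel P r G) ∧
    c = (eLpNorm G (ENNReal.ofReal p) P).toReal}

end Pool.Agent.Helper99.MD
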