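import Mathlib
import Pool.Agent.Helper99.MD.Avg
import Pool.Agent.Helper99.MD.Base

/-! Basic facts on centered Gaussian measures on separable Banach spaces. -/

set_option autoImplicit false
set_option linter.unusedSectionVars false

open MeasureTheory ProbabilityTheory Filter Topology
open scoped ENNReal NNReal

namespace Pool.Agent.Helper99.MD

variable {E : Type*} [NormedAddCommGroup E] [NormedSpace ℝ E] [CompleteSpace E]
  [SecondCountableTopology E] [MeasurableSpace E] [BorelSpace E] {P : Measure E}

theorem IsCG.prob (h : IsCG P) : IsProbabilityMeasure P := by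
  have := h.gauss
  infer_instance

theorem IsCG.map_rotation (h : IsCG P) (θ : ℝ) :
    (P.prod P).map (ContinuousLinearMap.rotation θ) = P.prod P := by
  have := h.gauss
  exact IsGaussian.map_rotation_eq_self_of_forall_strongDual_eq_zero h.mean θ

theorem IsCG.mp_rot (h : IsCG P) (θ : ℝ) :
    MeasurePreserving (fun w : E × E => Real.cos θ • w.1 + Real.sin θ • w.2) (P.prod P) P := by
  have := h.prob
  have h1 : MeasurePreserving (ContinuousLinearMap.rotation θ : E × E → E × E)
      (P.prod P) (P.prod P) := ⟨by fun_prop, h.map_rotation θ⟩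
  have h2 : MeasurePreserving (Prod.fst : E × E → E) (P.prod P) P := measurePreserving_fst
  exact h2.comp h1

/-- `α y + β y'` has the law of `√(α² + β²) y` -/
theorem IsCG.map_comb (h : IsCG P) {α β : ℝ} (hα : 0 ≤ α) (hβ : 0 ≤ β) :
    (P.prod P).map (fun w : E × E => α • w.1 + β • w.2) = P.map (fun y => √(α ^ 2 + β ^ 2) • y) := by
  have := h.prob
  set c := √(α ^ 2 + β ^ 2) with hc
  have hc2 : c ^ 2 = α ^ 2 + β ^ 2 := Real.sq_sqrt (by positivity)
  have hc0 : 0 ≤ c := Real.sqrt_nonneg _
  rcases hc0.eq_or_lt with h0 | h0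
  · have h1 : α ^ 2 + β ^ 2 = 0 := by rw [← hc2, ← h0]; ring
    have h2 : α = 0 := by nlinarith
    have h3 : β = 0 := by nlinarith
    simp only [h2, h3, zero_smul, add_zero]
    rw [← h0]
    simp only [zero_smul]
    rw [Measure.map_const, Measure.map_const]
    simp
  · have hθ1 : Real.cos (Real.arccos (α / c)) = α / c := by
      apply Real.cos_arccos
      · have : 0 ≤ α / c := by positivity
        linarith
      · rw [div_le_one h0]
        exact abs_le_of_sq_le_sq' (by nlinarith) hc0 |>.2
    have hθ2 : Real.sin (Real.arccos (α / c)) = β / c := by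
      rw [Real.sin_arccos]
      have : 1 - (α / c) ^ 2 = (β / c) ^ 2 := by
        field_simp
        linarith
      rw [this, Real.sqrt_sq (by positivity)]
    have h1 := (h.mp_rot (Real.arccos (α / c))).map_eq
    rw [hθ1, hθ2] at h1
    have h2 : (fun w : E × E => α • w.1 + β • w.2) =
        (fun y : E => c • y) ∘ fun w : E × E => (α / c) • w.1 + (β / c) • w.2 := by
      funext w
      simp only [Function.comp, smul_add, smul_smul]
      rw [mul_div_cancel₀ _ h0.ne', mul_div_cancel₀ _ h0.ne']
    rw [h2, ← Measure.map_map (by fun_prop) (by fun_prop), h1]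

theorem exp_neg_le_one' {t : ℝ} (ht : 0 ≤ t) : Real.exp (-t) ≤ 1 := by
  rw [Real.exp_le_one_iff]; linarith

theorem one_sub_nonneg {t : ℝ} (ht : 0 ≤ t) : 0 ≤ 1 - Real.exp (-(2 * t)) := by
  have := exp_neg_le_one' (t := 2 * t) (by linarith)
  linarith

theorem mix_sq {t : ℝ} (ht : 0 ≤ t) :
    Real.exp (-t) ^ 2 + √(1 - Real.exp (-(2 * t))) ^ 2 = 1 := by
  rw [Real.sq_sqrt (one_sub_nonneg ht), ← Real.exp_nat_mul]
  ring_nf

theorem continuous_mix : Continuous (fun w : ℝ × E × E => mix w.1 w.2.1 w.2.2) := by
  unfold mix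
  fun_prop

theorem mix_mp (h : IsCG P) {t : ℝ} (ht : 0 ≤ t) :
    MeasurePreserving (fun w : E × E => mix t w.1 w.2) (P.prod P) P := by
  have h1 := h.mp_rot (Real.arccos (Real.exp (-t)))
  have h2 : Real.cos (Real.arccos (Real.exp (-t))) = Real.exp (-t) :=
    Real.cos_arccos (by have := Real.exp_pos (-t); linarith) (exp_neg_le_one' ht)
  have h3 : Real.sin (Real.arccos (Real.exp (-t))) = √(1 - Real.exp (-(2 * t))) := by
    rw [Real.sin_arccos, ← Real.exp_nat_mul]
    congr 3
    push_cast
    ring
  rw [h2, h3] at h1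
  exact h1

theorem mix_mix (s t : ℝ) (x y y' : E) : mix s (mix t x y) y' =
    Real.exp (-(s + t)) • x + ((Real.exp (-s) * √(1 - Real.exp (-(2 * t)))) • y +
      √(1 - Real.exp (-(2 * s))) • y') := by
  unfold mix
  rw [smul_add, smul_smul, smul_smul, ← Real.exp_add, add_assoc]
  congr 3
  ring

/-- semigroup property in law -/
theorem map_mix_mix (h : IsCG P) {s t : ℝ} (hs : 0 ≤ s) (ht : 0 ≤ t) (x : E) :
    (P.prod P).map (fun w : E × E => mix s (mix t x w.1) w.2) = P.map (fun y => mix (s + t) x y) := by
  have h1 := h.map_comb (α := Real.exp (-s) * √(1 - Real.exp (-(2 * t))))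
    (β := √(1 - Real.exp (-(2 * s)))) (by positivity) (by positivity)
  have h2 : (Real.exp (-s) * √(1 - Real.exp (-(2 * t)))) ^ 2 + √(1 - Real.exp (-(2 * s))) ^ 2 =
      1 - Real.exp (-(2 * (s + t))) := by
    rw [mul_pow, Real.sq_sqrt (one_sub_nonneg ht), Real.sq_sqrt (one_sub_nonneg hs),
      ← Real.exp_nat_mul]
    have : Real.exp (-(2 * (s + t))) = Real.exp ((2 : ℕ) * -s) * Real.exp (-(2 * t)) := by
      rw [← Real.exp_add]; push_cast; ring_nf
    rw [this]
    have h3 : Real.exp (-(2 * s)) = Real.exp ((2 : ℕ) * -s) := by push_cast; ring_nf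
    rw [h3]
    ring
  rw [h2] at h1
  have h3 : (fun w : E × E => mix s (mix t x w.1) w.2) =
      (fun z => Real.exp (-(s + t)) • x + z) ∘ fun w : E × E =>
        (Real.exp (-s) * √(1 - Real.exp (-(2 * t)))) • w.1 + √(1 - Real.exp (-(2 * s))) • w.2 := by
    funext w
    exact mix_mix s t x w.1 w.2
  have h4 : (fun y => mix (s + t) x y) = (fun z : E => Real.exp (-(s + t)) • x + z) ∘
      fun y => √(1 - Real.exp (-(2 * (s + t)))) • y := by
    funext y
    rfl
  rw [h3, h4, ← Measure.map_map (by fun_prop) (by fun_prop),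
    ← Measure.map_map (by fun_prop) (by fun_prop), h1]

/-! ### trigonometric moments -/

/-- covariance of two functionals -/
noncomputable def q (P : Measure E) (L M : StrongDual ℝ E) : ℝ := ∫ x, L x * M x ∂P

theorem IsCG.memLp_dual (h : IsCG P) (L : StrongDual ℝ E) (p : ℝ≥0∞) (hp : p ≠ ∞) :
    MemLp (fun x => L x) p P := by
  have := h.gauss
  exact IsGaussian.memLp_dual P L p hp

theorem IsCG.int_dual (h : IsCG P) (L : StrongDual ℝ E) : Integrable (fun x => L x) P := by
  have := h.prob
  exact (h.memLp_dual L 1 (by simp)).integrable le_rfl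

theorem IsCG.int_mul (h : IsCG P) (L M : StrongDual ℝ E) : Integrable (fun x => L x * M x) P :=
  (h.memLp_dual L 2 (by simp)).integrable_mul (h.memLp_dual M 2 (by simp))

theorem q_add_left (h : IsCG P) (L L' M : StrongDual ℝ E) :
    q P (L + L') M = q P L M + q P L' M := by
  unfold q
  rw [← integral_add (h.int_mul _ _) (h.int_mul _ _)]
  congr 1
  funext x
  simp only [add_apply]
  ring

theorem q_smul_left (c : ℝ) (L M : StrongDual ℝ E) : q P (c • L) M = c * q P L M := by
  unfold q
  rw [← integral_const_mul]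
  congr 1
  funext x
  simp only [smul_apply, smul_eq_mul]
  ring

theorem q_comm (L M : StrongDual ℝ E) : q P L M = q P M L := by
  unfold q
  congr 1
  funext x
  ring

theorem IsCG.var_eq (h : IsCG P) (L : StrongDual ℝ E) : Var[L; P] = q P L L := by
  have := h.prob
  have h1 : Var[L; P] = ∫ x, (L x - ∫ y, L y ∂P) ^ 2 ∂P :=
    variance_eq_integral (h.int_dual L).aemeasurable
  rw [h1, h.mean L]
  unfold q
  congr 1
  funext x
  ring

theorem IsCG.charFun (h : IsCG P) (L : StrongDual ℝ E) :
    ∫ x, Complex.exp (L x * Complex.I) ∂P = Complex.exp (-(q P L L : ℝ) / 2) := by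
  have := h.gauss
  have h1 := IsGaussian.charFunDual_eq_of_forall_strongDual_eq_zero h.mean L
  rw [charFunDual_apply] at h1
  rw [h1, h.var_eq]

theorem int_cexp (h : IsCG P) (L : StrongDual ℝ E) :
    Integrable (fun x => Complex.exp (L x * Complex.I)) P := by
  have := h.prob
  refine Integrable.of_bound (C := 1) ?_ (Eventually.of_forall fun x => ?_)
  · exact (by fun_prop : Continuous fun x => Complex.exp (L x * Complex.I)).aestronglyMeasurable
  · rw [Complex.norm_exp_ofReal_mul_I]

theorem IsCG.int_cos (h : IsCG P) (L : StrongDual ℝ E) :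
    ∫ x, Real.cos (L x) ∂P = Real.exp (-q P L L / 2) := by
  have h1 := congrArg Complex.re (h.charFun L)
  have h2 := integral_re (𝕜 := ℂ) (int_cexp h L)
  simp only [RCLike.re_eq_complex_re] at h2
  rw [← h2] at h1
  have h3 : (fun x => (Complex.exp (L x * Complex.I)).re) = fun x => Real.cos (L x) := by
    funext x
    exact Complex.exp_ofReal_mul_I_re _
  rw [h3] at h1
  rw [h1]
  have : (-(q P L L : ℂ) / 2) = ((-q P L L / 2 : ℝ) : ℂ) := by push_cast; ring
  rw [this, Complex.exp_ofReal_re]

theorem IsCG.int_sin (h : IsCG P) (L : StrongDual ℝ E) :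
    ∫ x, Real.sin (L x) ∂P = 0 := by
  have h1 := congrArg Complex.im (h.charFun L)
  have h2 := integral_im (𝕜 := ℂ) (int_cexp h L)
  simp only [RCLike.im_eq_complex_im] at h2
  rw [← h2] at h1
  have h3 : (fun x => (Complex.exp (L x * Complex.I)).im) = fun x => Real.sin (L x) := by
    funext x
    exact Complex.exp_ofReal_mul_I_im _
  rw [h3] at h1
  rw [h1]
  have : (-(q P L L : ℂ) / 2) = ((-q P L L / 2 : ℝ) : ℂ) := by push_cast; ring
  rw [this, Complex.exp_ofReal_im]

theorem cont_trig (L : StrongDual ℝ E) (α : ℝ) : Continuous fun x => Real.cos (L x + α) := by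
  fun_prop

theorem int_trig (h : IsCG P) (L : StrongDual ℝ E) (α : ℝ) :
    Integrable (fun x => Real.cos (L x + α)) P := by
  have := h.prob
  exact Integrable.of_bound (C := 1) (cont_trig L α).aestronglyMeasurable
    (Eventually.of_forall fun x => Real.abs_cos_le_one _)

theorem IsCG.int_cos_add (h : IsCG P) (L : StrongDual ℝ E) (α : ℝ) :
    ∫ x, Real.cos (L x + α) ∂P = Real.cos α * Real.exp (-q P L L / 2) := by
  have := h.prob
  have h1 : ∀ x, Real.cos (L x + α) = Real.cos (L x) * Real.cos α - Real.sin (L x) * Real.sin α :=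
    fun x => Real.cos_add _ _
  have hc : Integrable (fun x => Real.cos (L x)) P :=
    Integrable.of_bound (C := 1) (by fun_prop : Continuous fun x => Real.cos (L x)).aestronglyMeasurable
      (Eventually.of_forall fun x => Real.abs_cos_le_one _)
  have hs : Integrable (fun x => Real.sin (L x)) P :=
    Integrable.of_bound (C := 1) (by fun_prop : Continuous fun x => Real.sin (L x)).aestronglyMeasurable
      (Eventually.of_forall fun x => Real.abs_sin_le_one _)
  simp only [h1]
  rw [integral_sub (hc.mul_const _) (hs.mul_const _), integral_mul_const, integral_mul_const,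
    h.int_cos, h.int_sin]
  ring

theorem IsCG.int_sin_mul (h : IsCG P) (L M : StrongDual ℝ E) (α : ℝ) :
    ∫ x, Real.sin (L x + α) * M x ∂P = Real.cos α * (q P L M * Real.exp (-q P L L / 2)) := by
  have := h.prob
  have h1 : ∀ ε : ℝ, ∫ x, Real.cos (L x + ε * M x + α) ∂P =
      Real.cos α * Real.exp (-(q P L L + 2 * ε * q P L M + ε ^ 2 * q P M M) / 2) := by
    intro ε
    have h2 := h.int_cos_add (L + ε • M) α
    have h3 : q P (L + ε • M) (L + ε • M) = q P L L + 2 * ε * q P L M + ε ^ 2 * q P M M := by
      rw [q_add_left h, q_comm L, q_comm (ε • M), q_add_left h, q_add_left h, q_smul_left,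
        q_smul_left, q_comm L (ε • M), q_smul_left, q_comm M L, q_comm M (ε • M), q_smul_left]
      ring
    rw [h3] at h2
    simpa using h2
  -- differentiate both sides at 0
  have hd1 : HasDerivAt (fun ε : ℝ => ∫ x, Real.cos (L x + ε * M x + α) ∂P)
      (∫ x, -Real.sin (L x + (0:ℝ) * M x + α) * M x ∂P) 0 := by
    refine (hasDerivAt_integral_of_dominated_loc_of_deriv_le (bound := fun x => |M x|)
      (F := fun ε x => Real.cos (L x + ε * M x + α))
      (F' := fun ε x => -Real.sin (L x + ε * M x + α) * M x) (s := Set.univ)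
      Filter.univ_mem ?_ ?_ ?_ ?_ ?_ ?_).2
    · refine Eventually.of_forall fun ε => ?_
      exact (by fun_prop : Continuous fun x => Real.cos (L x + ε * M x + α)).aestronglyMeasurable
    · exact Integrable.of_bound (C := 1)
        (by fun_prop : Continuous fun x => Real.cos (L x + 0 * M x + α)).aestronglyMeasurable
        (Eventually.of_forall fun x => Real.abs_cos_le_one _)
    · exact (by fun_prop :
        Continuous fun x => -Real.sin (L x + 0 * M x + α) * M x).aestronglyMeasurable
    · refine Eventually.of_forall fun x ε _ => ?_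
      rw [Real.norm_eq_abs, abs_mul, abs_neg]
      calc |Real.sin (L x + ε * M x + α)| * |M x| ≤ 1 * |M x| := by
            gcongr
            exact Real.abs_sin_le_one _
        _ = |M x| := one_mul _
    · exact (h.int_dual M).abs
    · refine Eventually.of_forall fun x ε _ => ?_
      have h4 : HasDerivAt (fun ε : ℝ => L x + ε * M x + α) (M x) ε := by
        have := ((hasDerivAt_id ε).mul_const (M x)).const_add (L x) |>.add_const α
        simpa using this
      exact h4.cos
  have hd2 : HasDerivAt (fun ε : ℝ => Real.cos α *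
      Real.exp (-(q P L L + 2 * ε * q P L M + ε ^ 2 * q P M M) / 2))
      (Real.cos α * (Real.exp (-(q P L L + 2 * 0 * q P L M + 0 ^ 2 * q P M M) / 2) *
        (-(q P L M)))) 0 := by
    have h5 : HasDerivAt (fun ε : ℝ => -(q P L L + 2 * ε * q P L M + ε ^ 2 * q P M M) / 2)
        (-(q P L M)) 0 := by
      have e1 : HasDerivAt (fun ε : ℝ => 2 * ε * q P L M) (2 * 1 * q P L M) 0 :=
        ((hasDerivAt_id (0:ℝ)).const_mul 2).mul_const _
      have e2 : HasDerivAt (fun ε : ℝ => ε ^ 2 * q P M M) ((2 * (0:ℝ)) * q P M M) 0 := by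
        have := (hasDerivAt_pow 2 (0:ℝ)).mul_const (q P M M)
        simpa using this
      have e3 := ((e1.const_add (q P L L)).add e2).neg.div_const 2
      refine e3.congr_deriv ?_
      ring
    exact h5.exp.const_mul _
  have h6 := hd1.unique (hd2.congr_of_eventuallyEq (Eventually.of_forall fun ε => h1 ε))
  have h7 : ∫ x, -Real.sin (L x + (0:ℝ) * M x + α) * M x ∂P =
      -∫ x, Real.sin (L x + α) * M x ∂P := by
    rw [← integral_neg]
    congr 1
    funext x
    simp
  rw [h7] at h6
  have h8 : -(q P L L + 2 * 0 * q P L M + 0 ^ 2 * q P M M) / 2 = -q P L L / 2 := by ring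
  rw [h8] at h6
  linarith

end Pool.Agent.Helper99.MD
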