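import Mathlib
import Pool.Agent.Helper99.MD.Gauss

/-! Trigonometric polynomials, gradient bounds, and the key estimate. -/

set_option autoImplicit false
set_option linter.unusedSectionVars false

open MeasureTheory ProbabilityTheory Filter Topology
open scoped ENNReal NNReal

namespace Pool.Agent.Helper99.MD

variable {E : Type*} [NormedAddCommGroup E] [NormedSpace ℝ E] [CompleteSpace E]
  [SecondCountableTopology E] [MeasurableSpace E] [BorelSpace E] {P : Measure E}

/-- rotation by the angle `θ` with respect to `A` -/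
noncomputable def rot {E : Type*} [NormedAddCommGroup E] [NormedSpace ℝ E]
    (A : E →L[ℝ] E) (θ : ℝ) (x : E) : E := Real.cos θ • x + Real.sin θ • A x

/-- `A` is a complex structure whose rotations preserve `P` -/
structure Rot (P : Measure E) (A : E →L[ℝ] E) : Prop where
  sq : ∀ x, A (A x) = -x
  mp : ∀ θ : ℝ, MeasurePreserving (rot A θ) P P

/-- rotation as a continuous linear map -/
noncomputable def rotL (A : E →L[ℝ] E) (θ : ℝ) : E →L[ℝ] E :=
  Real.cos θ • ContinuousLinearMap.id ℝ E + Real.sin θ • A

theorem rotL_apply (A : E →L[ℝ] E) (θ : ℝ) (x : E) : rotL A θ x = rot A θ x := by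
  simp [rotL, rot]

/-! ### covariance inequalities -/

theorem q_self_nonneg (L : StrongDual ℝ E) : 0 ≤ q P L L :=
  integral_nonneg fun _ => mul_self_nonneg _

theorem q_add_right (h : IsCG P) (M L L' : StrongDual ℝ E) :
    q P M (L + L') = q P M L + q P M L' := by
  rw [q_comm, q_add_left h, q_comm L, q_comm L']

theorem q_smul_right (c : ℝ) (L M : StrongDual ℝ E) : q P M (c • L) = c * q P M L := by
  rw [q_comm, q_smul_left, q_comm]

theorem q_zero_left (M : StrongDual ℝ E) : q P 0 M = 0 := by
  unfold q; simp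

theorem q_sum_left (h : IsCG P) {ι : Type*} (s : Finset ι) (L : ι → StrongDual ℝ E)
    (M : StrongDual ℝ E) : q P (∑ j ∈ s, L j) M = ∑ j ∈ s, q P (L j) M := by
  classical
  induction s using Finset.induction_on with
  | empty => simp [q_zero_left]
  | insert a s ha ih => rw [Finset.sum_insert ha, Finset.sum_insert ha, q_add_left h, ih]

theorem q_sum_right (h : IsCG P) {ι : Type*} (s : Finset ι) (L : ι → StrongDual ℝ E)
    (M : StrongDual ℝ E) : q P M (∑ j ∈ s, L j) = ∑ j ∈ s, q P M (L j) := by
  rw [q_comm, q_sum_left h]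
  exact Finset.sum_congr rfl fun j _ => q_comm _ _

theorem q_cs (h : IsCG P) (L M : StrongDual ℝ E) :
    |q P L M| ≤ √(q P L L) * √(q P M M) := by
  have key : ∀ t : ℝ, 0 ≤ q P M M * (t * t) + 2 * q P L M * t + q P L L := by
    intro t
    have h1 := q_self_nonneg (P := P) (L + t • M)
    rw [q_add_left h, q_add_right h, q_add_right h, q_smul_left, q_smul_left, q_smul_right,
      q_smul_right, q_comm M L] at h1
    linarith
  have h2 := discrim_le_zero key
  unfold discrim at h2
  rw [← Real.sqrt_mul (q_self_nonneg L)]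
  apply Real.abs_le_sqrt
  nlinarith


/-! ### trigonometric polynomials -/

section Trig

variable {ι κ : Type*} [Fintype ι] [Fintype κ]

/-- trigonometric polynomial -/
noncomputable def tp (c α : ι → ℝ) (L : ι → StrongDual ℝ E) (x : E) : ℝ :=
  ∑ j, c j * Real.cos (L j x + α j)

/-- its derivative -/
noncomputable def dtp (c α : ι → ℝ) (L : ι → StrongDual ℝ E) (x : E) : StrongDual ℝ E :=
  ∑ j, (-(c j * Real.sin (L j x + α j))) • L j

theorem continuous_tp (c α : ι → ℝ) (L : ι → StrongDual ℝ E) : Continuous (tp c α L) := by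
  unfold tp
  fun_prop

theorem continuous_dtp (c α : ι → ℝ) (L : ι → StrongDual ℝ E) : Continuous (dtp c α L) := by
  unfold dtp
  fun_prop

theorem abs_tp_le (c α : ι → ℝ) (L : ι → StrongDual ℝ E) (x : E) : |tp c α L x| ≤ ∑ j, |c j| := by
  unfold tp
  refine (Finset.abs_sum_le_sum_abs _ _).trans (Finset.sum_le_sum fun j _ => ?_)
  rw [abs_mul]
  calc |c j| * |Real.cos (L j x + α j)| ≤ |c j| * 1 := by
        gcongr
        exact Real.abs_cos_le_one _
    _ = |c j| := mul_one _

theorem memLp_tp (h : IsCG P) (c α : ι → ℝ) (L : ι → StrongDual ℝ E) (p : ℝ≥0∞) :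
    MemLp (tp c α L) p P := by
  have := h.prob
  exact MemLp.of_bound (continuous_tp c α L).aestronglyMeasurable _
    (Eventually.of_forall fun x => abs_tp_le c α L x)

theorem int_tp (h : IsCG P) (c α : ι → ℝ) (L : ι → StrongDual ℝ E) :
    Integrable (tp c α L) P := by
  have := h.prob
  exact (memLp_tp h c α L 1).integrable le_rfl

/-- damping factor -/
noncomputable def damp (P : Measure E) (t : ℝ) (L : StrongDual ℝ E) : ℝ :=
  Real.exp (-((1 - Real.exp (-(2 * t))) * q P L L) / 2)

theorem ou_tp (h : IsCG P) {t : ℝ} (ht : 0 ≤ t) (c α : ι → ℝ) (L : ι → StrongDual ℝ E) :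
    ou P t (tp c α L) =
      tp (fun j => c j * damp P t (L j)) α (fun j => Real.exp (-t) • L j) := by
  have := h.prob
  funext x
  unfold ou tp
  rw [integral_finsetSum]
  · refine Finset.sum_congr rfl fun j _ => ?_
    rw [integral_const_mul]
    have h1 := h.int_cos_add (√(1 - Real.exp (-(2 * t))) • L j)
      (Real.exp (-t) * L j x + α j)
    have h2 : (fun y => Real.cos (L j (mix t x y) + α j)) = fun y =>
        Real.cos ((√(1 - Real.exp (-(2 * t))) • L j) y + (Real.exp (-t) * L j x + α j)) := by
      funext y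
      unfold mix
      congr 1
      simp only [map_add, map_smul, smul_eq_mul, smul_apply]
      ring
    rw [h2, h1, q_smul_left, q_smul_right]
    simp only [smul_apply, smul_eq_mul]
    have h3 : -(√(1 - Real.exp (-(2 * t))) * (√(1 - Real.exp (-(2 * t))) * q P (L j) (L j))) / 2 =
        -((1 - Real.exp (-(2 * t))) * q P (L j) (L j)) / 2 := by
      rw [← mul_assoc, Real.mul_self_sqrt (one_sub_nonneg ht)]
    rw [h3]
    unfold damp
    ring
  · intro j _
    refine Integrable.const_mul ?_ _
    exact Integrable.of_bound (C := 1)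
      (by unfold mix; fun_prop : Continuous fun y => Real.cos (L j (mix t x y) + α j)).aestronglyMeasurable
      (Eventually.of_forall fun x => Real.abs_cos_le_one _)

/-- integration by parts: the gradient of `P_t F`, tested against a functional -/
theorem grad_ou (h : IsCG P) {t : ℝ} (ht : 0 < t) (c α : ι → ℝ) (L : ι → StrongDual ℝ E)
    (x : E) (m : StrongDual ℝ E) :
    q P (dtp (fun j => c j * damp P t (L j)) α (fun j => Real.exp (-t) • L j) x) m =
      Real.exp (-t) / √(1 - Real.exp (-(2 * t))) * ∫ y, tp c α L (mix t x y) * m y ∂P := by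
  have := h.prob
  set b := √(1 - Real.exp (-(2 * t))) with hb
  have hb0 : 0 < b := by
    apply Real.sqrt_pos.2
    have : Real.exp (-(2 * t)) < 1 := by rw [Real.exp_lt_one_iff]; linarith
    linarith
  have hb2 : b * b = 1 - Real.exp (-(2 * t)) := Real.mul_self_sqrt (one_sub_nonneg ht.le)
  have h1 : ∫ y, tp c α L (mix t x y) * m y ∂P =
      ∑ j, c j * (-(Real.sin (Real.exp (-t) * L j x + α j)) * (b * q P (L j) m) *
        damp P t (L j)) := by
    have e1 : (fun y => tp c α L (mix t x y) * m y) = fun y =>
        ∑ j, c j * (Real.sin ((b • L j) y + (Real.exp (-t) * L j x + α j + Real.pi / 2)) * m y) := by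
      funext y
      unfold tp
      rw [Finset.sum_mul]
      refine Finset.sum_congr rfl fun j _ => ?_
      rw [← add_assoc, Real.sin_add_pi_div_two]
      unfold mix
      simp only [map_add, map_smul, smul_eq_mul, smul_apply]
      rw [← hb]
      have : Real.exp (-t) * L j x + b * L j y + α j = b * L j y + (Real.exp (-t) * L j x + α j) := by
        ring
      rw [this]
      ring
    rw [e1, integral_finsetSum]
    · refine Finset.sum_congr rfl fun j _ => ?_
      rw [integral_const_mul, h.int_sin_mul, Real.cos_add_pi_div_two, q_smul_left, q_smul_left,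
        q_smul_right]
      have h3 : -(b * (b * q P (L j) (L j))) / 2 =
          -((1 - Real.exp (-(2 * t))) * q P (L j) (L j)) / 2 := by
        rw [← mul_assoc, hb2]
      rw [h3]
      unfold damp
      ring
    · intro j _
      refine Integrable.const_mul ?_ _
      refine (h.int_dual m).bdd_mul (c := 1) ?_ ?_
      · exact (by fun_prop : Continuous fun y =>
          Real.sin ((b • L j) y + (Real.exp (-t) * L j x + α j + Real.pi / 2))).aestronglyMeasurable
      · exact Eventually.of_forall fun x => Real.abs_sin_le_one _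
  rw [h1]
  unfold dtp
  rw [q_sum_left h, Finset.mul_sum]
  refine Finset.sum_congr rfl fun j _ => ?_
  rw [q_smul_left, q_smul_left]
  simp only [smul_apply, smul_eq_mul]
  field_simp

end Trig

/-! ### Gaussian moments -/

/-- the `r`-norm of a standard normal variable -/
noncomputable def gk (r : ℝ) : ℝ := (∫ x, |x| ^ r ∂(gaussianReal 0 1)) ^ (1 / r)

theorem gk_nonneg (r : ℝ) : 0 ≤ gk r := by
  unfold gk
  apply Real.rpow_nonneg
  exact integral_nonneg fun x => by positivity

theorem dual_moment (h : IsCG P) (m : StrongDual ℝ E) {r : ℝ} (hr : 0 < r) :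
    (∫ y, |m y| ^ r ∂P) ^ (1 / r) = gk r * √(q P m m) := by
  have hg := h.gauss
  have h1 : P.map m = gaussianReal (P[m]) (Var[m; P]).toNNReal := hg.map_eq_gaussianReal m
  have h2 : P[m] = 0 := h.mean m
  rw [h2, h.var_eq] at h1
  have hq := q_self_nonneg (P := P) m
  have h3 : ∫ y, |m y| ^ r ∂P = ∫ x, |x| ^ r ∂(P.map m) := by
    rw [integral_map m.continuous.measurable.aemeasurable]
    exact (Continuous.rpow_const (by fun_prop) fun x => Or.inr hr.le).aestronglyMeasurable
  have h4 : gaussianReal 0 (q P m m).toNNReal =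
      (gaussianReal 0 1).map (fun x => √(q P m m) * x) := by
    rw [gaussianReal_map_const_mul]
    congr 1
    · simp
    · ext
      simp [Real.sq_sqrt hq, hq]
  rw [h3, h1, h4, integral_map (by fun_prop)
    (Continuous.rpow_const (by fun_prop) fun x => Or.inr hr.le).aestronglyMeasurable]
  have h5 : ∀ x : ℝ, |√(q P m m) * x| ^ r = √(q P m m) ^ r * |x| ^ r := by
    intro x
    rw [abs_mul, abs_of_nonneg (Real.sqrt_nonneg _), Real.mul_rpow (Real.sqrt_nonneg _) (abs_nonneg _)]
  simp only [h5]
  rw [integral_const_mul, Real.mul_rpow (by positivity) (integral_nonneg fun x => by positivity),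
    ← Real.rpow_mul (Real.sqrt_nonneg _), mul_one_div_cancel hr.ne', Real.rpow_one]
  unfold gk
  ring

/-! ### the gradient bound -/

section Grad

variable {ι κ : Type*} [Fintype ι] [Fintype κ]

/-- the `L^p` norm, as a real number -/
noncomputable def nrm (P : Measure E) (p : ℝ) (F : E → ℝ) : ℝ := (∫ x, |F x| ^ p ∂P) ^ (1 / p)

theorem nrm_nonneg (p : ℝ) (F : E → ℝ) : 0 ≤ nrm P p F :=
  Real.rpow_nonneg (integral_nonneg fun _ => by positivity) _

theorem memLp_tp_mix (h : IsCG P) (t : ℝ) (c α : ι → ℝ) (L : ι → StrongDual ℝ E) (x : E)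
    (p : ℝ≥0∞) : MemLp (fun y => tp c α L (mix t x y)) p P := by
  have := h.prob
  refine MemLp.of_bound ?_ (∑ j, |c j|) (Eventually.of_forall fun y => abs_tp_le c α L _)
  exact ((continuous_tp c α L).comp (by unfold mix; fun_prop)).aestronglyMeasurable

/-- ratio of the Mehler coefficients -/
noncomputable def ratio (t : ℝ) : ℝ := Real.exp (-t) / √(1 - Real.exp (-(2 * t)))

theorem ratio_nonneg (t : ℝ) : 0 ≤ ratio t := by unfold ratio; positivity

/-- pointwise gradient bound -/
theorem grad_bound (h : IsCG P) {p p' : ℝ} (hp : p.HolderConjugate p') {t : ℝ} (ht : 0 < t)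
    (c α : ι → ℝ) (L : ι → StrongDual ℝ E) (x : E) :
    √(q P (dtp (fun j => c j * damp P t (L j)) α (fun j => Real.exp (-t) • L j) x)
      (dtp (fun j => c j * damp P t (L j)) α (fun j => Real.exp (-t) • L j) x)) ≤
      ratio t * gk p' * (∫ y, |tp c α L (mix t x y)| ^ p ∂P) ^ (1 / p) := by
  set m := dtp (fun j => c j * damp P t (L j)) α (fun j => Real.exp (-t) • L j) x with hm
  have h1 := grad_ou h ht c α L x m
  rw [← hm] at h1
  have hH : |∫ y, tp c α L (mix t x y) * m y ∂P| ≤
      (∫ y, |tp c α L (mix t x y)| ^ p ∂P) ^ (1 / p) * (∫ y, |m y| ^ p' ∂P) ^ (1 / p') := by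
    have e1 := integral_mul_norm_le_Lp_mul_Lq hp
      (memLp_tp_mix h t c α L x (ENNReal.ofReal p))
      (h.memLp_dual m (ENNReal.ofReal p') ENNReal.ofReal_ne_top)
    simp only [Real.norm_eq_abs] at e1
    refine (abs_integral_le_integral_abs).trans ?_
    refine le_trans (le_of_eq ?_) e1
    congr 1
    funext y
    rw [abs_mul]
  rw [dual_moment h m hp.symm.pos] at hH
  set v := q P m m with hv
  have hv0 : 0 ≤ v := q_self_nonneg _
  set D := (∫ y, |tp c α L (mix t x y)| ^ p ∂P) ^ (1 / p) with hD
  have hD0 : 0 ≤ D := Real.rpow_nonneg (integral_nonneg fun _ => by positivity) _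
  have h2 : v ≤ ratio t * (D * (gk p' * √v)) := by
    have h3 := (le_abs_self _).trans hH
    have h4 := mul_le_mul_of_nonneg_left h3 (ratio_nonneg t)
    calc v = ratio t * ∫ y, tp c α L (mix t x y) * m y ∂P := h1
      _ ≤ _ := h4
  rcases (Real.sqrt_nonneg v).eq_or_lt with h0 | h0
  · rw [← h0]
    have := ratio_nonneg t
    have := gk_nonneg p'
    positivity
  · have h5 : √v * √v = v := Real.mul_self_sqrt hv0
    have h6 : √v * √v ≤ (ratio t * gk p' * D) * √v := by
      rw [h5]
      linarith
    exact le_of_mul_le_mul_right h6 h0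

/-- `L^p` gradient bound -/
theorem grad_bound_Lp (h : IsCG P) {p p' : ℝ} (hp : p.HolderConjugate p') {t : ℝ} (ht : 0 < t)
    (c α : ι → ℝ) (L : ι → StrongDual ℝ E) :
    nrm P p (fun x => √(q P (dtp (fun j => c j * damp P t (L j)) α (fun j => Real.exp (-t) • L j) x)
      (dtp (fun j => c j * damp P t (L j)) α (fun j => Real.exp (-t) • L j) x))) ≤
      ratio t * gk p' * nrm P p (tp c α L) := by
  have := h.prob
  have hp0 := hp.pos
  have hK : 0 ≤ ratio t * gk p' := mul_nonneg (ratio_nonneg t) (gk_nonneg p')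
  have hint : Integrable (fun w : E × E => |tp c α L (mix t w.1 w.2)| ^ p) (P.prod P) := by
    refine Integrable.of_bound (C := (∑ j, |c j|) ^ p) ?_ (Eventually.of_forall fun w => ?_)
    · refine Continuous.aestronglyMeasurable ?_
      refine Continuous.rpow_const ?_ fun x => Or.inr hp0.le
      exact ((continuous_tp c α L).comp (by unfold mix; fun_prop)).abs
    · rw [Real.norm_eq_abs, abs_of_nonneg (by positivity)]
      exact Real.rpow_le_rpow (abs_nonneg _) (abs_tp_le c α L _) hp0.le
  have h1 : ∫ x, |√(q P (dtp (fun j => c j * damp P t (L j)) α (fun j => Real.exp (-t) • L j) x)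
      (dtp (fun j => c j * damp P t (L j)) α (fun j => Real.exp (-t) • L j) x))| ^ p ∂P ≤
      (ratio t * gk p') ^ p * ∫ x, |tp c α L x| ^ p ∂P := by
    have h2 : ∫ x, |tp c α L x| ^ p ∂P = ∫ x, ∫ y, |tp c α L (mix t x y)| ^ p ∂P ∂P := by
      rw [← integral_prod _ hint]
      have h3 := (mix_mp h ht.le).map_eq
      rw [← integral_map (φ := fun w : E × E => mix t w.1 w.2) (μ := P.prod P)
        (f := fun x => |tp c α L x| ^ p) (mix_mp h ht.le).measurable.aemeasurable, h3]
      exact (Continuous.rpow_const (continuous_tp c α L).abs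
        fun x => Or.inr hp0.le).aestronglyMeasurable
    rw [h2, ← integral_const_mul]
    refine integral_mono_of_nonneg (Eventually.of_forall fun x => by positivity) ?_ ?_
    · exact hint.integral_prod_left.const_mul _
    · refine Eventually.of_forall fun x => ?_
      have h4 := grad_bound h hp ht c α L x
      have hI : 0 ≤ ∫ y, |tp c α L (mix t x y)| ^ p ∂P :=
        integral_nonneg fun _ => by positivity
      simp only
      rw [abs_of_nonneg (Real.sqrt_nonneg _)]
      calc _ ≤ (ratio t * gk p' * (∫ y, |tp c α L (mix t x y)| ^ p ∂P) ^ (1 / p)) ^ p :=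
            Real.rpow_le_rpow (Real.sqrt_nonneg _) h4 hp0.le
        _ = (ratio t * gk p') ^ p * ∫ y, |tp c α L (mix t x y)| ^ p ∂P := by
            rw [Real.mul_rpow hK (Real.rpow_nonneg hI _), ← Real.rpow_mul hI,
              one_div_mul_cancel hp0.ne', Real.rpow_one]
  unfold nrm
  calc _ ≤ ((ratio t * gk p') ^ p * ∫ x, |tp c α L x| ^ p ∂P) ^ (1 / p) :=
        Real.rpow_le_rpow (integral_nonneg fun _ => by positivity) h1 (by positivity)
    _ = ratio t * gk p' * (∫ x, |tp c α L x| ^ p ∂P) ^ (1 / p) := by
        rw [Real.mul_rpow (by positivity) (integral_nonneg fun _ => by positivity),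
          ← Real.rpow_mul hK, mul_one_div_cancel hp0.ne', Real.rpow_one]

end Grad

/-! ### interpolation along the rotation -/

section Interp

variable {ι κ : Type*} [Fintype ι] [Fintype κ]

theorem int_cos_cos (h : IsCG P) (L M : StrongDual ℝ E) (α β : ℝ) :
    ∫ x, Real.cos (L x + α) * Real.cos (M x + β) ∂P =
      1 / 2 * (Real.cos (α - β) * Real.exp (-(q P L L + q P M M - 2 * q P L M) / 2) +
        Real.cos (α + β) * Real.exp (-(q P L L + q P M M + 2 * q P L M) / 2)) := by
  have e : ∀ x, Real.cos (L x + α) * Real.cos (M x + β) =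
      1 / 2 * (Real.cos ((L - M) x + (α - β)) + Real.cos ((L + M) x + (α + β))) := by
    intro x
    rw [sub_apply, add_apply]
    have h1 : L x - M x + (α - β) = (L x + α) - (M x + β) := by ring
    have h2 : L x + M x + (α + β) = (L x + α) + (M x + β) := by ring
    rw [h1, h2, Real.cos_sub (L x + α) (M x + β), Real.cos_add (L x + α) (M x + β)]
    ring
  simp only [e]
  rw [integral_const_mul, integral_add (int_trig h _ _) (int_trig h _ _), h.int_cos_add,
    h.int_cos_add]
  have h1 : q P (L - M) (L - M) = q P L L + q P M M - 2 * q P L M := by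
    have : L - M = L + (-1 : ℝ) • M := by
      ext x
      simp [sub_eq_add_neg]
    rw [this, q_add_left h, q_add_right h, q_add_right h, q_smul_left, q_smul_left, q_smul_right,
      q_smul_right, q_comm M L]
    ring
  have h2 : q P (L + M) (L + M) = q P L L + q P M M + 2 * q P L M := by
    rw [q_add_left h, q_add_right h, q_add_right h, q_comm M L]
    ring
  rw [h1, h2]

theorem int_sin_sin (h : IsCG P) (L M : StrongDual ℝ E) (α β : ℝ) :
    ∫ x, Real.sin (L x + α) * Real.sin (M x + β) ∂P =
      1 / 2 * (Real.cos (α - β) * Real.exp (-(q P L L + q P M M - 2 * q P L M) / 2) -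
        Real.cos (α + β) * Real.exp (-(q P L L + q P M M + 2 * q P L M) / 2)) := by
  have h1 := int_cos_cos h L M (α - Real.pi / 2) (β - Real.pi / 2)
  have e1 : ∀ x, Real.cos (L x + (α - Real.pi / 2)) = Real.sin (L x + α) := by
    intro x; rw [← add_sub_assoc, Real.cos_sub_pi_div_two]
  have e2 : ∀ x, Real.cos (M x + (β - Real.pi / 2)) = Real.sin (M x + β) := by
    intro x; rw [← add_sub_assoc, Real.cos_sub_pi_div_two]
  simp only [e1, e2] at h1
  rw [h1]
  have e3 : α - Real.pi / 2 - (β - Real.pi / 2) = α - β := by ring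
  have e4 : α - Real.pi / 2 + (β - Real.pi / 2) = α + β - Real.pi := by ring
  rw [e3, e4, Real.cos_sub_pi]
  ring

theorem q_rot (_h : IsCG P) {A : E →L[ℝ] E} (hA : Rot P A) (θ : ℝ) (L : StrongDual ℝ E) :
    q P (L.comp (rotL A θ)) (L.comp (rotL A θ)) = q P L L := by
  unfold q
  simp only [ContinuousLinearMap.comp_apply, rotL_apply]
  have h1 := (hA.mp θ)
  rw [← integral_map (φ := rot A θ) (f := fun x => L x * L x) h1.measurable.aemeasurable
    (by fun_prop : Continuous fun x => L x * L x).aestronglyMeasurable, h1.map_eq]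

/-- `A R_θ = R_{θ + π/2}` -/
theorem rot_quarter {A : E →L[ℝ] E} (hA : Rot P A) (θ : ℝ) :
    A.comp (rotL A θ) = rotL A (θ + Real.pi / 2) := by
  ext x
  simp only [ContinuousLinearMap.comp_apply, rotL_apply, rot, map_add, map_smul, hA.sq,
    Real.cos_add_pi_div_two, Real.sin_add_pi_div_two, smul_neg, neg_smul]
  abel

theorem q_comp_rot (h : IsCG P) (A : E →L[ℝ] E) (θ : ℝ) (L M : StrongDual ℝ E) :
    q P (L.comp (rotL A θ)) M = Real.cos θ * q P L M + Real.sin θ * q P (L.comp A) M := by
  have : L.comp (rotL A θ) = Real.cos θ • L + Real.sin θ • L.comp A := by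
    ext x
    simp [rotL_apply, rot]
  rw [this, q_add_left h, q_smul_left, q_smul_left]

theorem hasDeriv_q_rot (h : IsCG P) {A : E →L[ℝ] E} (hA : Rot P A) (θ : ℝ)
    (L M : StrongDual ℝ E) :
    HasDerivAt (fun θ => q P (L.comp (rotL A θ)) M)
      (q P (L.comp (A.comp (rotL A θ))) M) θ := by
  rw [rot_quarter hA, q_comp_rot h, Real.cos_add_pi_div_two, Real.sin_add_pi_div_two]
  have : (fun θ => q P (L.comp (rotL A θ)) M) =
      fun θ => Real.cos θ * q P L M + Real.sin θ * q P (L.comp A) M := by
    funext θ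
    exact q_comp_rot h A θ L M
  rw [this]
  exact ((Real.hasDerivAt_cos θ).mul_const _).add ((Real.hasDerivAt_sin θ).mul_const _)

theorem hasDeriv_single (h : IsCG P) {A : E →L[ℝ] E} (hA : Rot P A) (θ : ℝ)
    (L M : StrongDual ℝ E) (α β : ℝ) :
    HasDerivAt (fun θ => ∫ x, Real.cos (L (rot A θ x) + α) * Real.cos (M x + β) ∂P)
      (∫ x, (q P (L.comp (A.comp (rotL A θ))) M *
        (Real.sin (L (rot A θ x) + α) * Real.sin (M x + β))) ∂P) θ := by
  have e1 : (fun θ => ∫ x, Real.cos (L (rot A θ x) + α) * Real.cos (M x + β) ∂P) = fun θ =>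
      1 / 2 * (Real.cos (α - β) *
          Real.exp (-(q P L L + q P M M - 2 * q P (L.comp (rotL A θ)) M) / 2) +
        Real.cos (α + β) *
          Real.exp (-(q P L L + q P M M + 2 * q P (L.comp (rotL A θ)) M) / 2)) := by
    funext θ
    have h1 := int_cos_cos h (L.comp (rotL A θ)) M α β
    rw [q_rot h hA] at h1
    simp only [ContinuousLinearMap.comp_apply, rotL_apply] at h1
    exact h1
  have e2 := int_sin_sin h (L.comp (rotL A θ)) M α β
  rw [q_rot h hA] at e2
  simp only [ContinuousLinearMap.comp_apply, rotL_apply] at e2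
  rw [e1, integral_const_mul, e2]
  have hd := hasDeriv_q_rot h hA θ L M
  have d1 : HasDerivAt (fun θ => -(q P L L + q P M M - 2 * q P (L.comp (rotL A θ)) M) / 2)
      (q P (L.comp (A.comp (rotL A θ))) M) θ := by
    refine (((hd.const_mul 2).const_sub (q P L L + q P M M)).neg.div_const 2).congr_deriv ?_
    ring
  have d2 : HasDerivAt (fun θ => -(q P L L + q P M M + 2 * q P (L.comp (rotL A θ)) M) / 2)
      (-q P (L.comp (A.comp (rotL A θ))) M) θ := by
    refine (((hd.const_mul 2).const_add (q P L L + q P M M)).neg.div_const 2).congr_deriv ?_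
    ring
  refine (((d1.exp.const_mul (Real.cos (α - β))).add
    (d2.exp.const_mul (Real.cos (α + β)))).const_mul (1 / 2)).congr_deriv ?_
  ring

/-- the derivative of the pairing along the rotation -/
theorem hasDeriv_pair (h : IsCG P) {A : E →L[ℝ] E} (hA : Rot P A) (θ : ℝ)
    (c α : ι → ℝ) (L : ι → StrongDual ℝ E) (d β : κ → ℝ) (M : κ → StrongDual ℝ E) :
    HasDerivAt (fun θ => ∫ x, tp c α L (rot A θ x) * tp d β M x ∂P)
      (∫ x, q P ((dtp c α L (rot A θ x)).comp (A.comp (rotL A θ))) (dtp d β M x) ∂P) θ := by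
  have := h.prob
  have hrc : ∀ θ, Continuous (rot A θ) := fun θ => by unfold rot; fun_prop
  have e1 : (fun θ => ∫ x, tp c α L (rot A θ x) * tp d β M x ∂P) = fun θ =>
      ∑ j, ∑ k, c j * d k * ∫ x, Real.cos (L j (rot A θ x) + α j) * Real.cos (M k x + β k) ∂P := by
    funext θ
    unfold tp
    simp only [Finset.sum_mul_sum]
    have hi : ∀ j k, Integrable (fun x => c j * Real.cos (L j (rot A θ x) + α j) *
        (d k * Real.cos (M k x + β k))) P := by
      intro j k
      refine Integrable.of_bound (C := |c j| * |d k|) ?_ (Eventually.of_forall fun x => ?_)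
      · have := hrc θ
        exact (by fun_prop : Continuous fun x => c j * Real.cos (L j (rot A θ x) + α j) *
          (d k * Real.cos (M k x + β k))).aestronglyMeasurable
      · rw [Real.norm_eq_abs, abs_mul, abs_mul, abs_mul]
        have h1 := Real.abs_cos_le_one (L j (rot A θ x) + α j)
        have h2 := Real.abs_cos_le_one (M k x + β k)
        calc |c j| * |Real.cos (L j (rot A θ x) + α j)| * (|d k| * |Real.cos (M k x + β k)|)
            ≤ |c j| * 1 * (|d k| * 1) := by gcongr
          _ = |c j| * |d k| := by ring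
    rw [integral_finsetSum _ (fun j _ => integrable_finsetSum _ fun k _ => hi j k)]
    refine Finset.sum_congr rfl fun j _ => ?_
    rw [integral_finsetSum _ (fun k _ => hi j k)]
    refine Finset.sum_congr rfl fun k _ => ?_
    rw [← integral_const_mul]
    congr 1
    funext x
    ring
  have e2 : ∫ x, q P ((dtp c α L (rot A θ x)).comp (A.comp (rotL A θ))) (dtp d β M x) ∂P =
      ∑ j, ∑ k, c j * d k * ∫ x, (q P ((L j).comp (A.comp (rotL A θ))) (M k) *
        (Real.sin (L j (rot A θ x) + α j) * Real.sin (M k x + β k))) ∂P := by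
    have e3 : ∀ x, q P ((dtp c α L (rot A θ x)).comp (A.comp (rotL A θ))) (dtp d β M x) =
        ∑ j, ∑ k, c j * d k * (q P ((L j).comp (A.comp (rotL A θ))) (M k) *
          (Real.sin (L j (rot A θ x) + α j) * Real.sin (M k x + β k))) := by
      intro x
      have e4 : (dtp c α L (rot A θ x)).comp (A.comp (rotL A θ)) =
          ∑ j, (-(c j * Real.sin (L j (rot A θ x) + α j))) • (L j).comp (A.comp (rotL A θ)) := by
        unfold dtp
        ext y
        simp
      rw [e4, q_sum_left h]
      refine Finset.sum_congr rfl fun j _ => ?_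
      rw [q_smul_left]
      unfold dtp
      rw [q_sum_right h, Finset.mul_sum]
      refine Finset.sum_congr rfl fun k _ => ?_
      rw [q_smul_right]
      ring
    simp only [e3]
    have hi : ∀ j k, Integrable (fun x => c j * d k * (q P ((L j).comp (A.comp (rotL A θ))) (M k) *
          (Real.sin (L j (rot A θ x) + α j) * Real.sin (M k x + β k)))) P := by
      intro j k
      refine Integrable.const_mul (Integrable.const_mul ?_ _) _
      refine Integrable.of_bound (C := 1) ?_ (Eventually.of_forall fun x => ?_)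
      · have := hrc θ
        exact (by fun_prop : Continuous fun x => Real.sin (L j (rot A θ x) + α j) *
          Real.sin (M k x + β k)).aestronglyMeasurable
      · rw [Real.norm_eq_abs, abs_mul]
        have h1 := Real.abs_sin_le_one (L j (rot A θ x) + α j)
        have h2 := Real.abs_sin_le_one (M k x + β k)
        calc _ ≤ (1:ℝ) * 1 := by gcongr
          _ = 1 := by ring
    rw [integral_finsetSum _ (fun j _ => integrable_finsetSum _ fun k _ => hi j k)]
    refine Finset.sum_congr rfl fun j _ => ?_
    rw [integral_finsetSum _ (fun k _ => hi j k)]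
    refine Finset.sum_congr rfl fun k _ => ?_
    rw [← integral_const_mul]
  rw [e1, e2]
  refine HasDerivAt.fun_sum fun j _ => HasDerivAt.fun_sum fun k _ => ?_
  exact (hasDeriv_single h hA θ (L j) (M k) (α j) (β k)).const_mul _

end Interp

end Pool.Agent.Helper99.MD
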