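import Mathlib
import Pool.Agent.Helper99.MD.Key

/-! The key estimate for trigonometric polynomials. -/

set_option autoImplicit false
set_option linter.unusedSectionVars false

open MeasureTheory ProbabilityTheory Filter Topology
open scoped ENNReal NNReal

namespace Pool.Agent.Helper99.MD

variable {E : Type*} [NormedAddCommGroup E] [NormedSpace ℝ E] [CompleteSpace E]
  [SecondCountableTopology E] [MeasurableSpace E] [BorelSpace E] {P : Measure E}

variable {ι κ : Type*} [Fintype ι] [Fintype κ]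

/-- length of the gradient -/
noncomputable def gl (P : Measure E) (c α : ι → ℝ) (L : ι → StrongDual ℝ E) (x : E) : ℝ :=
  √(q P (dtp c α L x) (dtp c α L x))

theorem q_dtp (h : IsCG P) (c α : ι → ℝ) (L : ι → StrongDual ℝ E) (x : E) :
    q P (dtp c α L x) (dtp c α L x) = ∑ j, ∑ k, (c j * Real.sin (L j x + α j)) *
      ((c k * Real.sin (L k x + α k)) * q P (L j) (L k)) := by
  unfold dtp
  rw [q_sum_left h]
  refine Finset.sum_congr rfl fun j _ => ?_
  rw [q_smul_left, q_sum_right h, Finset.mul_sum]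
  refine Finset.sum_congr rfl fun k _ => ?_
  rw [q_smul_right]
  ring

theorem continuous_gl (h : IsCG P) (c α : ι → ℝ) (L : ι → StrongDual ℝ E) :
    Continuous (gl P c α L) := by
  unfold gl
  refine Real.continuous_sqrt.comp ?_
  simp only [q_dtp h]
  fun_prop

theorem gl_le (h : IsCG P) (c α : ι → ℝ) (L : ι → StrongDual ℝ E) (x : E) :
    gl P c α L x ≤ √(∑ j, ∑ k, |c j| * (|c k| * |q P (L j) (L k)|)) := by
  unfold gl
  refine Real.sqrt_le_sqrt ?_
  rw [q_dtp h]
  refine Finset.sum_le_sum fun j _ => Finset.sum_le_sum fun k _ => ?_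
  refine (le_abs_self _).trans ?_
  rw [abs_mul, abs_mul, abs_mul, abs_mul]
  have h1 := Real.abs_sin_le_one (L j x + α j)
  have h2 := Real.abs_sin_le_one (L k x + α k)
  calc _ ≤ |c j| * 1 * (|c k| * 1 * |q P (L j) (L k)|) := by gcongr
    _ = _ := by ring

theorem memLp_gl (h : IsCG P) (c α : ι → ℝ) (L : ι → StrongDual ℝ E) (p : ℝ≥0∞) :
    MemLp (gl P c α L) p P := by
  have := h.prob
  refine MemLp.of_bound (continuous_gl h c α L).aestronglyMeasurable
    (√(∑ j, ∑ k, |c j| * (|c k| * |q P (L j) (L k)|))) (Eventually.of_forall fun x => ?_)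
  rw [Real.norm_eq_abs, abs_of_nonneg (show 0 ≤ gl P c α L x from Real.sqrt_nonneg _)]
  exact gl_le h c α L x

theorem continuous_rot (A : E →L[ℝ] E) (θ : ℝ) : Continuous (rot A θ) := by
  unfold rot; fun_prop

theorem nrm_comp_rot {A : E →L[ℝ] E} (hA : Rot P A) (θ : ℝ) {p : ℝ} (hp : 0 ≤ p) {F : E → ℝ}
    (hF : Continuous F) : nrm P p (fun x => F (rot A θ x)) = nrm P p F := by
  unfold nrm
  congr 1
  have h1 := hA.mp θ
  rw [← integral_map (φ := rot A θ) (f := fun x => |F x| ^ p) h1.measurable.aemeasurable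
    (Continuous.rpow_const hF.abs fun x => Or.inr hp).aestronglyMeasurable, h1.map_eq]

theorem pair_deriv_bound (h : IsCG P) {A : E →L[ℝ] E} (hA : Rot P A) {p p' : ℝ}
    (hp : p.HolderConjugate p') (θ : ℝ)
    (c α : ι → ℝ) (L : ι → StrongDual ℝ E) (d β : κ → ℝ) (M : κ → StrongDual ℝ E) :
    |∫ x, q P ((dtp c α L (rot A θ x)).comp (A.comp (rotL A θ))) (dtp d β M x) ∂P| ≤
      nrm P p (gl P c α L) * nrm P p' (gl P d β M) := by
  have := h.prob
  have h1 : ∀ x, |q P ((dtp c α L (rot A θ x)).comp (A.comp (rotL A θ))) (dtp d β M x)| ≤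
      gl P c α L (rot A θ x) * gl P d β M x := by
    intro x
    refine (q_cs h _ _).trans (le_of_eq ?_)
    rw [rot_quarter hA, q_rot h hA]
    rfl
  have hm1 : MemLp (fun x => gl P c α L (rot A θ x)) (ENNReal.ofReal p) P :=
    (memLp_gl h c α L _).comp_measurePreserving (hA.mp θ)
  have hm2 : MemLp (gl P d β M) (ENNReal.ofReal p') P := memLp_gl h d β M _
  have hm3 : Integrable (fun x => gl P c α L (rot A θ x) * gl P d β M x) P := by
    refine MemLp.integrable_mul (p := 2) (q := 2) ?_ (memLp_gl h d β M _)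
    exact (memLp_gl h c α L _).comp_measurePreserving (hA.mp θ)
  refine (abs_integral_le_integral_abs).trans ?_
  have h2 : ∫ x, |q P ((dtp c α L (rot A θ x)).comp (A.comp (rotL A θ))) (dtp d β M x)| ∂P ≤
      ∫ x, gl P c α L (rot A θ x) * gl P d β M x ∂P :=
    integral_mono_of_nonneg (Eventually.of_forall fun x => abs_nonneg _) hm3
      (Eventually.of_forall h1)
  refine h2.trans ?_
  have h3 := integral_mul_norm_le_Lp_mul_Lq hp hm1 hm2
  have e1 : ∀ x, ‖gl P c α L (rot A θ x)‖ = gl P c α L (rot A θ x) := fun x =>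
    Real.norm_of_nonneg (Real.sqrt_nonneg _)
  have e2 : ∀ x, ‖gl P d β M x‖ = gl P d β M x := fun x => Real.norm_of_nonneg (Real.sqrt_nonneg _)
  have e3 : nrm P p (gl P c α L) = nrm P p (fun x => gl P c α L (rot A θ x)) :=
    (nrm_comp_rot hA θ hp.pos.le (continuous_gl h c α L)).symm
  rw [e3]
  unfold nrm
  simp only [← Real.norm_eq_abs]
  refine le_trans (le_of_eq ?_) h3
  simp only [e1, e2]

theorem pair_lip (h : IsCG P) {A : E →L[ℝ] E} (hA : Rot P A) {p p' : ℝ}
    (hp : p.HolderConjugate p') (θ : ℝ)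
    (c α : ι → ℝ) (L : ι → StrongDual ℝ E) (d β : κ → ℝ) (M : κ → StrongDual ℝ E) :
    |∫ x, tp c α L (rot A θ x) * tp d β M x ∂P - ∫ x, tp c α L x * tp d β M x ∂P| ≤
      |θ| * (nrm P p (gl P c α L) * nrm P p' (gl P d β M)) := by
  have h1 := Convex.norm_image_sub_le_of_norm_hasDerivWithin_le
    (f := fun θ => ∫ x, tp c α L (rot A θ x) * tp d β M x ∂P)
    (f' := fun θ => ∫ x, q P ((dtp c α L (rot A θ x)).comp (A.comp (rotL A θ))) (dtp d β M x) ∂P)
    (C := nrm P p (gl P c α L) * nrm P p' (gl P d β M)) (s := Set.univ) (x := 0) (y := θ)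
    (fun θ _ => (hasDeriv_pair h hA θ c α L d β M).hasDerivWithinAt)
    (fun θ _ => pair_deriv_bound h hA hp θ c α L d β M) convex_univ (Set.mem_univ _)
    (Set.mem_univ _)
  have e0 : ∀ x, rot A 0 x = x := by
    intro x
    simp [rot]
  simp only [e0, sub_zero, Real.norm_eq_abs] at h1
  rw [mul_comm] at h1
  exact h1

/-- symmetry of the semigroup along the rotation, for trigonometric polynomials -/
theorem ou_sym_trig (h : IsCG P) {A : E →L[ℝ] E} (hA : Rot P A) {t : ℝ} (ht : 0 ≤ t) (θ : ℝ)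
    (c α : ι → ℝ) (L : ι → StrongDual ℝ E) (d β : κ → ℝ) (M : κ → StrongDual ℝ E) :
    ∫ x, ou P (2 * t) (tp c α L) (rot A θ x) * tp d β M x ∂P =
      ∫ x, ou P t (tp c α L) (rot A θ x) * ou P t (tp d β M) x ∂P := by
  have := h.prob
  rw [ou_tp h (by linarith : (0:ℝ) ≤ 2 * t), ou_tp h ht, ou_tp h ht]
  unfold tp
  simp only [Finset.sum_mul_sum]
  have hrc : Continuous (rot A θ) := continuous_rot A θ
  have hi : ∀ (a b : ℝ) (L M : StrongDual ℝ E) (α β : ℝ),
      Integrable (fun x => a * Real.cos (L (rot A θ x) + α) * (b * Real.cos (M x + β))) P := by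
    intro a b L M α β
    refine Integrable.of_bound (C := |a| * |b|) ?_ (Eventually.of_forall fun x => ?_)
    · exact (by fun_prop : Continuous fun x => a * Real.cos (L (rot A θ x) + α) *
        (b * Real.cos (M x + β))).aestronglyMeasurable
    · rw [Real.norm_eq_abs, abs_mul, abs_mul, abs_mul]
      have h1 := Real.abs_cos_le_one (L (rot A θ x) + α)
      have h2 := Real.abs_cos_le_one (M x + β)
      calc |a| * |Real.cos (L (rot A θ x) + α)| * (|b| * |Real.cos (M x + β)|)
          ≤ |a| * 1 * (|b| * 1) := by gcongr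
        _ = |a| * |b| := by ring
  have hs : ∀ (a b : ℝ) (L M : StrongDual ℝ E) (α β : ℝ),
      ∫ x, a * Real.cos (L (rot A θ x) + α) * (b * Real.cos (M x + β)) ∂P =
      a * b * (1 / 2 * (Real.cos (α - β) *
          Real.exp (-(q P L L + q P M M - 2 * q P (L.comp (rotL A θ)) M) / 2) +
        Real.cos (α + β) *
          Real.exp (-(q P L L + q P M M + 2 * q P (L.comp (rotL A θ)) M) / 2))) := by
    intro a b L M α β
    have h1 := int_cos_cos h (L.comp (rotL A θ)) M α β
    rw [q_rot h hA] at h1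
    simp only [ContinuousLinearMap.comp_apply, rotL_apply] at h1
    rw [← h1, ← integral_const_mul]
    congr 1
    funext x
    ring
  rw [integral_finsetSum _ (fun j _ => integrable_finsetSum _ fun k _ => hi _ _ _ _ _ _),
    integral_finsetSum _ (fun j _ => integrable_finsetSum _ fun k _ => hi _ _ _ _ _ _)]
  refine Finset.sum_congr rfl fun j _ => ?_
  rw [integral_finsetSum _ (fun k _ => hi _ _ _ _ _ _),
    integral_finsetSum _ (fun k _ => hi _ _ _ _ _ _)]
  refine Finset.sum_congr rfl fun k _ => ?_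
  rw [hs, hs]
  simp only [ContinuousLinearMap.smul_comp, q_smul_left, q_smul_right]
  unfold damp
  set V := q P (L j) (L j)
  set W := q P (M k) (M k)
  set z := q P ((L j).comp (rotL A θ)) (M k)
  have e2 : Real.exp (-(2 * t)) = Real.exp (-t) * Real.exp (-t) := by
    rw [← Real.exp_add]; ring_nf
  have e4 : Real.exp (-(2 * (2 * t))) = Real.exp (-(2 * t)) * Real.exp (-(2 * t)) := by
    rw [← Real.exp_add]; ring_nf
  have g1 : ∀ C D : ℝ, c j * Real.exp C * d k * (1 / 2 * D) = c j * d k * (1 / 2) * (Real.exp C * D) := by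
    intro C D; ring
  have g2 : ∀ C C' D : ℝ, c j * Real.exp C * (d k * Real.exp C') * (1 / 2 * D) =
      c j * d k * (1 / 2) * (Real.exp C * Real.exp C' * D) := by
    intro C C' D; ring
  rw [g1, g2]
  congr 1
  rw [mul_add, mul_add]
  congr 1
  · rw [mul_left_comm, ← Real.exp_add, mul_left_comm (Real.exp _ * Real.exp _), ← Real.exp_add,
      ← Real.exp_add]
    congr 2
    rw [e4, e2]
    ring
  · rw [mul_left_comm, ← Real.exp_add, mul_left_comm (Real.exp _ * Real.exp _), ← Real.exp_add,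
      ← Real.exp_add]
    congr 2
    rw [e4, e2]
    ring

/-- the key estimate for trigonometric polynomials -/
theorem key_trig (h : IsCG P) {A : E →L[ℝ] E} (hA : Rot P A) {p p' : ℝ}
    (hp : p.HolderConjugate p') {t : ℝ} (ht : 0 < t) (θ : ℝ)
    (c α : ι → ℝ) (L : ι → StrongDual ℝ E) (d β : κ → ℝ) (M : κ → StrongDual ℝ E) :
    |∫ x, ou P (2 * t) (tp c α L) (rot A θ x) * tp d β M x ∂P -
        ∫ x, ou P (2 * t) (tp c α L) x * tp d β M x ∂P| ≤
      |θ| * (ratio t ^ 2 * (gk p * gk p')) * (nrm P p (tp c α L) * nrm P p' (tp d β M)) := by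
  have e0 : ∀ x, rot A 0 x = x := by
    intro x
    simp [rot]
  have h1 := ou_sym_trig h hA ht.le θ c α L d β M
  have h2 := ou_sym_trig h hA ht.le 0 c α L d β M
  simp only [e0] at h2
  rw [h1, h2, ou_tp h ht.le, ou_tp h ht.le]
  refine (pair_lip h hA hp θ _ _ _ _ _ _).trans ?_
  rw [mul_assoc]
  refine mul_le_mul_of_nonneg_left ?_ (abs_nonneg θ)
  have h3 := grad_bound_Lp h hp ht c α L
  have h4 := grad_bound_Lp h hp.symm ht d β M
  calc _ ≤ (ratio t * gk p' * nrm P p (tp c α L)) * (ratio t * gk p * nrm P p' (tp d β M)) := by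
        refine mul_le_mul h3 h4 (nrm_nonneg _ _) ?_
        have := ratio_nonneg t
        have := gk_nonneg p'
        have := nrm_nonneg (P := P) p (tp c α L)
        positivity
    _ = _ := by ring

end Pool.Agent.Helper99.MD
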