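import Mathlib
import Pool.Agent.Helper99.MD.Key2

/-! Trigonometric polynomials are dense in every `L^p`, `p < ∞`. -/

set_option autoImplicit false
set_option linter.unusedSectionVars false

open MeasureTheory ProbabilityTheory Filter Topology
open scoped ENNReal NNReal

namespace Pool.Agent.Helper99.MD

variable {E : Type*} [NormedAddCommGroup E] [NormedSpace ℝ E] [CompleteSpace E]
  [SecondCountableTopology E] [MeasurableSpace E] [BorelSpace E] {P : Measure E}

/-- trigonometric polynomials -/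
def IsTP (f : E → ℝ) : Prop :=
  ∃ (ι : Type) (_ : Fintype ι) (c α : ι → ℝ) (L : ι → StrongDual ℝ E), f = tp c α L

theorem IsTP.add {f g : E → ℝ} (hf : IsTP f) (hg : IsTP g) : IsTP (fun x => f x + g x) := by
  obtain ⟨ι, _, c, α, L, rfl⟩ := hf
  obtain ⟨κ, _, d, β, M, rfl⟩ := hg
  refine ⟨ι ⊕ κ, inferInstance, Sum.elim c d, Sum.elim α β, Sum.elim L M, ?_⟩
  funext x
  unfold tp
  rw [Fintype.sum_sum_type]
  rfl

theorem IsTP.mul {f g : E → ℝ} (hf : IsTP f) (hg : IsTP g) : IsTP (fun x => f x * g x) := by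
  obtain ⟨ι, _, c, α, L, rfl⟩ := hf
  obtain ⟨κ, _, d, β, M, rfl⟩ := hg
  refine ⟨(ι × κ) ⊕ (ι × κ), inferInstance,
    Sum.elim (fun j => c j.1 * d j.2 / 2) (fun j => c j.1 * d j.2 / 2),
    Sum.elim (fun j => α j.1 - β j.2) (fun j => α j.1 + β j.2),
    Sum.elim (fun j => L j.1 - M j.2) (fun j => L j.1 + M j.2), ?_⟩
  funext x
  unfold tp
  rw [Fintype.sum_sum_type, Finset.sum_mul_sum, ← Finset.sum_add_distrib, Fintype.sum_prod_type]
  refine Finset.sum_congr rfl fun j _ => Finset.sum_congr rfl fun k _ => ?_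
  simp only [Sum.elim_inl, Sum.elim_inr, sub_apply, add_apply]
  have h1 : L j x - M k x + (α j - β k) = (L j x + α j) - (M k x + β k) := by ring
  have h2 : L j x + M k x + (α j + β k) = (L j x + α j) + (M k x + β k) := by ring
  rw [h1, h2, Real.cos_sub (L j x + α j) (M k x + β k), Real.cos_add (L j x + α j) (M k x + β k)]
  ring

theorem IsTP.const (c : ℝ) : IsTP (fun _ : E => c) := by
  refine ⟨Unit, inferInstance, fun _ => c, fun _ => 0, fun _ => 0, ?_⟩
  funext x
  simp [tp]

theorem IsTP.cos (L : StrongDual ℝ E) (α : ℝ) : IsTP (fun x : E => Real.cos (L x + α)) := by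
  refine ⟨Unit, inferInstance, fun _ => 1, fun _ => α, fun _ => L, ?_⟩
  funext x
  simp [tp]

theorem IsTP.pow {f : E → ℝ} (hf : IsTP f) (n : ℕ) : IsTP (fun x => f x ^ n) := by
  induction n with
  | zero => simpa using IsTP.const (E := E) 1
  | succ n ih =>
    simp only [pow_succ]
    exact ih.mul hf

theorem IsTP.poly {f : E → ℝ} (hf : IsTP f) (π : Polynomial ℝ) : IsTP (fun x => π.eval (f x)) := by
  induction π using Polynomial.induction_on' with
  | add p q hp hq =>
    simp only [Polynomial.eval_add]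
    exact hp.add hq
  | monomial n a =>
    simp only [Polynomial.eval_monomial]
    exact (IsTP.const a).mul (hf.pow n)

theorem IsTP.continuous {f : E → ℝ} (hf : IsTP f) : Continuous f := by
  obtain ⟨ι, _, c, α, L, rfl⟩ := hf
  exact continuous_tp c α L

theorem IsTP.bdd {f : E → ℝ} (hf : IsTP f) : ∃ C, 0 ≤ C ∧ ∀ x, |f x| ≤ C := by
  obtain ⟨ι, _, c, α, L, rfl⟩ := hf
  exact ⟨∑ j, |c j|, Finset.sum_nonneg fun _ _ => abs_nonneg _, fun x => abs_tp_le c α L x⟩

theorem IsTP.memLp (h : IsCG P) {f : E → ℝ} (hf : IsTP f) (p : ℝ≥0∞) : MemLp f p P := by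
  obtain ⟨ι, _, c, α, L, rfl⟩ := hf
  exact memLp_tp h c α L p

/-- a square integrable function orthogonal to the trigonometric polynomials vanishes -/
theorem eq_zero_of_orth (h : IsCG P) {g : E → ℝ} (hg : Integrable g P)
    (ho : ∀ f : E → ℝ, IsTP f → ∫ x, f x * g x ∂P = 0) : g =ᵐ[P] 0 := by
  have := h.prob
  -- the two parts
  set μ := P.withDensity (fun x => ENNReal.ofReal (g x)) with hμ
  set ν := P.withDensity (fun x => ENNReal.ofReal (-g x)) with hν
  have hμf : IsFiniteMeasure μ := isFiniteMeasure_withDensity_ofReal hg.2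
  have hνf : IsFiniteMeasure ν := isFiniteMeasure_withDensity_ofReal hg.neg.2
  have hgm : AEMeasurable g P := hg.aemeasurable
  have hgn : AEMeasurable (fun x => -g x) P := hgm.neg
  have hcf : charFunDual μ = charFunDual ν := by
    ext L
    rw [charFunDual_apply, charFunDual_apply, hμ, hν,
      integral_withDensity_eq_integral_toReal_smul₀ hgm.ennreal_ofReal
        (Eventually.of_forall fun x => ENNReal.ofReal_lt_top),
      integral_withDensity_eq_integral_toReal_smul₀ hgn.ennreal_ofReal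
        (Eventually.of_forall fun x => ENNReal.ofReal_lt_top)]
    have hb : ∀ x, ‖Complex.exp (L x * Complex.I)‖ ≤ 1 := fun x => by
      rw [Complex.norm_exp_ofReal_mul_I]
    have hc : Continuous fun x => Complex.exp (L x * Complex.I) := by fun_prop
    have i1 : Integrable (fun x => (ENNReal.ofReal (g x)).toReal •
        Complex.exp (L x * Complex.I)) P := by
      have : Integrable (fun x => ((ENNReal.ofReal (g x)).toReal : ℂ)) P := by
        have e : (fun x => ((ENNReal.ofReal (g x)).toReal : ℂ)) =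
            fun x => ((max (g x) 0 : ℝ) : ℂ) := by
          funext x; rw [ENNReal.toReal_ofReal']
        rw [e]
        exact hg.pos_part.ofReal
      have h2 := this.bdd_mul (c := 1) hc.aestronglyMeasurable (Eventually.of_forall hb)
      refine h2.congr (Eventually.of_forall fun x => ?_)
      simp [mul_comm]
    have i2 : Integrable (fun x => (ENNReal.ofReal (-g x)).toReal •
        Complex.exp (L x * Complex.I)) P := by
      have : Integrable (fun x => ((ENNReal.ofReal (-g x)).toReal : ℂ)) P := by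
        have e : (fun x => ((ENNReal.ofReal (-g x)).toReal : ℂ)) =
            fun x => ((max (-g x) 0 : ℝ) : ℂ) := by
          funext x; rw [ENNReal.toReal_ofReal']
        rw [e]
        exact hg.neg.pos_part.ofReal
      have h2 := this.bdd_mul (c := 1) hc.aestronglyMeasurable (Eventually.of_forall hb)
      refine h2.congr (Eventually.of_forall fun x => ?_)
      simp [mul_comm]
    rw [← sub_eq_zero, ← integral_sub i1 i2]
    have e1 : ∀ x, (ENNReal.ofReal (g x)).toReal • Complex.exp (L x * Complex.I) -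
        (ENNReal.ofReal (-g x)).toReal • Complex.exp (L x * Complex.I) =
        (Real.cos (L x + 0) * g x : ℝ) +
          (Real.cos (L x + (-(Real.pi / 2))) * g x : ℝ) * Complex.I := by
      intro x
      rw [← sub_smul, ENNReal.toReal_ofReal', ENNReal.toReal_ofReal']
      have : max (g x) 0 - max (-g x) 0 = g x := by
        rcases le_total 0 (g x) with h1 | h1
        · rw [max_eq_left h1, max_eq_right (by linarith)]; ring
        · rw [max_eq_right h1, max_eq_left (by linarith)]; ring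
      rw [this, add_zero, ← sub_eq_add_neg, Real.cos_sub_pi_div_two]
      rw [Complex.exp_mul_I, ← Complex.ofReal_cos, ← Complex.ofReal_sin]
      rw [Complex.real_smul]
      push_cast
      ring
    simp only [e1]
    have j1 : Integrable (fun x => ((Real.cos (L x + 0) * g x : ℝ) : ℂ)) P :=
      (hg.bdd_mul (c := 1) (IsTP.cos L 0).continuous.aestronglyMeasurable
        (Eventually.of_forall fun x => Real.abs_cos_le_one _)).ofReal
    have j2 : Integrable (fun x => ((Real.cos (L x + (-(Real.pi / 2))) * g x : ℝ) : ℂ)) P :=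
      (hg.bdd_mul (c := 1) (IsTP.cos L _).continuous.aestronglyMeasurable
        (Eventually.of_forall fun x => Real.abs_cos_le_one _)).ofReal
    have k1 : ∫ x, ((Real.cos (L x + 0) * g x : ℝ) : ℂ) ∂P = 0 := by
      have := integral_ofReal (𝕜 := ℂ) (μ := P) (f := fun x => Real.cos (L x + 0) * g x)
      rw [ho _ (IsTP.cos L 0)] at this
      simpa using this
    have k2 : ∫ x, ((Real.cos (L x + (-(Real.pi / 2))) * g x : ℝ) : ℂ) ∂P = 0 := by
      have := integral_ofReal (𝕜 := ℂ) (μ := P) (f := fun x => Real.cos (L x + (-(Real.pi / 2))) * g x)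
      rw [ho _ (IsTP.cos L _)] at this
      simpa using this
    rw [integral_add j1 (j2.mul_const _), integral_mul_const, k1, k2]
    simp
  have heq : μ = ν := Measure.ext_of_charFunDual hcf
  have h1 : (fun x => ENNReal.ofReal (g x)) =ᵐ[P] fun x => ENNReal.ofReal (-g x) := by
    rwa [hμ, hν, withDensity_eq_iff hgm.ennreal_ofReal hgn.ennreal_ofReal] at heq
    have := hμf.measure_univ_lt_top
    rw [hμ, withDensity_apply _ MeasurableSet.univ, Measure.restrict_univ] at this
    exact this.ne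
  filter_upwards [h1] with x hx
  simp only [Pi.zero_apply]
  rcases lt_trichotomy (g x) 0 with h2 | h2 | h2
  · rw [ENNReal.ofReal_of_nonpos h2.le] at hx
    have := ENNReal.ofReal_eq_zero.1 hx.symm
    linarith
  · exact h2
  · rw [ENNReal.ofReal_of_nonpos (by linarith : -g x ≤ 0)] at hx
    have := ENNReal.ofReal_eq_zero.1 hx
    linarith

/-- density in `L²` -/
theorem dense_two (h : IsCG P) {F : E → ℝ} (hF : MemLp F 2 P) {ε : ℝ} (hε : 0 < ε) :
    ∃ f : E → ℝ, IsTP f ∧ eLpNorm (fun x => F x - f x) 2 P ≤ ENNReal.ofReal ε := by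
  have := h.prob
  let K : Submodule ℝ (Lp ℝ 2 P) :=
    { carrier := {G | ∃ f : E → ℝ, IsTP f ∧ G =ᵐ[P] f}
      add_mem' := by
        rintro a b ⟨f, hf, ha⟩ ⟨g, hg, hb⟩
        refine ⟨_, hf.add hg, ?_⟩
        filter_upwards [ha, hb, Lp.coeFn_add a b] with x h1 h2 h3
        rw [h3, Pi.add_apply, h1, h2]
      zero_mem' := ⟨_, IsTP.const 0, Lp.coeFn_zero ℝ 2 P⟩
      smul_mem' := by
        rintro c a ⟨f, hf, ha⟩
        refine ⟨_, (IsTP.const c).mul hf, ?_⟩
        filter_upwards [ha, Lp.coeFn_smul c a] with x h1 h2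
        rw [h2, Pi.smul_apply, h1, smul_eq_mul] }
  have hK : Kᗮ = ⊥ := by
    rw [Submodule.eq_bot_iff]
    intro g hg
    have hgi : Integrable (g : E → ℝ) P := (Lp.memLp g).integrable (by norm_num)
    have h0 : (g : E → ℝ) =ᵐ[P] 0 := by
      apply eq_zero_of_orth h hgi
      intro f hf
      have h1 : (hf.memLp h 2).toLp f ∈ K := ⟨f, hf, MemLp.coeFn_toLp _⟩
      have h2 := hg _ h1
      rw [L2.inner_def] at h2
      rw [← h2]
      refine integral_congr_ae ?_
      filter_upwards [(hf.memLp h 2).coeFn_toLp] with x hx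
      rw [hx]
      simp [mul_comm]
    exact (Lp.eq_zero_iff_ae_eq_zero).2 h0
  have htop : K.topologicalClosure = ⊤ := Submodule.topologicalClosure_eq_top_iff.2 hK
  have hmem : hF.toLp F ∈ closure (K : Set (Lp ℝ 2 P)) := by
    have : hF.toLp F ∈ K.topologicalClosure := by rw [htop]; trivial
    exact this
  obtain ⟨G, ⟨f, hf, hGf⟩, hd⟩ := Metric.mem_closure_iff.1 hmem ε hε
  refine ⟨f, hf, ?_⟩
  rw [dist_eq_norm, Lp.norm_def] at hd
  have h1 : eLpNorm (fun x => F x - f x) 2 P = eLpNorm (hF.toLp F - G : Lp ℝ 2 P) 2 P := by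
    apply eLpNorm_congr_ae
    filter_upwards [hF.coeFn_toLp, hGf, Lp.coeFn_sub (hF.toLp F) G] with x h1 h2 h3
    rw [h3, Pi.sub_apply, h1, h2]
  rw [h1]
  rw [← ENNReal.ofReal_toReal (Lp.eLpNorm_ne_top (hF.toLp F - G))]
  exact ENNReal.ofReal_le_ofReal hd.le

/-- a bound of the `L^r` norm of a bounded function by its `L²` norm -/
theorem eLpNorm_le_two {w : E → ℝ} {K : ℝ} (hK : 1 ≤ K) (hw : ∀ x, |w x| ≤ K) {r : ℝ} (hr : 2 ≤ r)
    {δ : ℝ} (hδ : 0 ≤ δ) (h2 : eLpNorm w 2 P ≤ ENNReal.ofReal δ) :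
    eLpNorm w (ENNReal.ofReal r) P ≤ ENNReal.ofReal ((K ^ (r - 2) * δ ^ 2) ^ (1 / r)) := by
  have hr0 : 0 < r := by linarith
  have hK0 : 0 ≤ K := by linarith
  rw [eLpNorm_eq_lintegral_rpow_enorm_toReal (by simpa using hr0) ENNReal.ofReal_ne_top,
    ENNReal.toReal_ofReal hr0.le, ← ENNReal.ofReal_rpow_of_nonneg (by positivity) (by positivity)]
  refine ENNReal.rpow_le_rpow ?_ (by positivity)
  rw [eLpNorm_eq_lintegral_rpow_enorm_toReal (by norm_num) (by norm_num)] at h2
  have h3 : ∫⁻ x, ‖w x‖ₑ ^ (2:ℝ) ∂P ≤ ENNReal.ofReal (δ ^ 2) := by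
    have h4 := ENNReal.rpow_le_rpow h2 (by norm_num : (0:ℝ) ≤ 2)
    rw [ENNReal.toReal_ofNat, ← ENNReal.rpow_mul, one_div_mul_cancel (by norm_num),
      ENNReal.rpow_one, ENNReal.ofReal_rpow_of_nonneg hδ (by norm_num)] at h4
    simpa using h4
  calc ∫⁻ x, ‖w x‖ₑ ^ r ∂P ≤ ∫⁻ x, ENNReal.ofReal (K ^ (r - 2)) * ‖w x‖ₑ ^ (2:ℝ) ∂P := by
        refine lintegral_mono fun x => ?_
        rw [Real.enorm_eq_ofReal_abs, ENNReal.ofReal_rpow_of_nonneg (abs_nonneg _) hr0.le,
          ENNReal.ofReal_rpow_of_nonneg (abs_nonneg _) (by norm_num),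
          ← ENNReal.ofReal_mul (by positivity)]
        apply ENNReal.ofReal_le_ofReal
        have h5 : |w x| ^ r = |w x| ^ (r - 2) * |w x| ^ (2:ℝ) := by
          rcases (abs_nonneg (w x)).eq_or_lt with h6 | h6
          · rw [← h6, Real.zero_rpow hr0.ne', Real.zero_rpow (two_ne_zero (α := ℝ)), mul_zero]
          · rw [← Real.rpow_add h6]; ring_nf
        rw [h5]
        refine mul_le_mul_of_nonneg_right ?_ (by positivity)
        exact Real.rpow_le_rpow (abs_nonneg _) (hw x) (by linarith)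
    _ = ENNReal.ofReal (K ^ (r - 2)) * ∫⁻ x, ‖w x‖ₑ ^ (2:ℝ) ∂P :=
        lintegral_const_mul' _ _ ENNReal.ofReal_ne_top
    _ ≤ ENNReal.ofReal (K ^ (r - 2)) * ENNReal.ofReal (δ ^ 2) := by gcongr
    _ = ENNReal.ofReal (K ^ (r - 2) * δ ^ 2) := by rw [ENNReal.ofReal_mul (by positivity)]

/-- density for bounded continuous functions, large exponents -/
theorem dense_bdd (h : IsCG P) {g : E → ℝ} (hgc : Continuous g) {M : ℝ} (hM : 1 ≤ M)
    (hg : ∀ x, |g x| ≤ M) {r : ℝ} (hr : 2 ≤ r) {ε : ℝ} (hε : 0 < ε) :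
    ∃ f : E → ℝ, IsTP f ∧ eLpNorm (fun x => g x - f x) (ENNReal.ofReal r) P ≤
      ENNReal.ofReal ε := by
  have := h.prob
  have hr0 : 0 < r := by linarith
  set K : ℝ := 2 * M with hK
  have hK1 : 1 ≤ K := by linarith
  set δ : ℝ := √((ε / 2) ^ r / K ^ (r - 2)) with hδ
  have hKp : 0 < K ^ (r - 2) := by positivity
  have hδ0 : 0 < δ := by
    apply Real.sqrt_pos.2
    positivity
  have hδ2 : (K ^ (r - 2) * δ ^ 2) ^ (1 / r) = ε / 2 := by
    rw [hδ, Real.sq_sqrt (by positivity), mul_div_cancel₀ _ hKp.ne',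
      ← Real.rpow_mul (by positivity), mul_one_div_cancel hr0.ne', Real.rpow_one]
  have hgm : MemLp g 2 P := MemLp.of_bound hgc.aestronglyMeasurable M (Eventually.of_forall hg)
  obtain ⟨f, hf, hfd⟩ := dense_two h hgm hδ0
  obtain ⟨C, hC0, hC⟩ := hf.bdd
  -- clamp
  set cl : ℝ → ℝ := fun y => max (-M) (min y M) with hcl
  have hclc : Continuous cl := by fun_prop
  obtain ⟨π, hπ⟩ := exists_polynomial_near_of_continuousOn (-C) C cl hclc.continuousOn (ε / 2)
    (by positivity)
  refine ⟨fun x => π.eval (f x), hf.poly π, ?_⟩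
  have hclip : ∀ a b : ℝ, |b| ≤ M → |b - cl a| ≤ |b - a| := by
    intro a b hb
    have hb' := abs_le.1 hb
    simp only [hcl]
    rcases le_total a M with h1 | h1
    · rw [min_eq_left h1]
      rcases le_total (-M) a with h2 | h2
      · rw [max_eq_right h2]
      · rw [max_eq_left h2, abs_of_nonneg (by linarith), abs_of_nonneg (by linarith)]
        linarith
    · rw [min_eq_right h1, max_eq_right (by linarith), abs_sub_comm, abs_sub_comm b a,
        abs_of_nonneg (by linarith), abs_of_nonneg (by linarith)]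
      linarith
  have hclb : ∀ a : ℝ, |cl a| ≤ M := by
    intro a
    rw [abs_le]
    refine ⟨le_max_left _ _, ?_⟩
    simp only [hcl]
    exact max_le (by linarith) (min_le_right _ _)
  have h1 : eLpNorm (fun x => g x - cl (f x)) (ENNReal.ofReal r) P ≤ ENNReal.ofReal (ε / 2) := by
    rw [← hδ2]
    refine eLpNorm_le_two hK1 (fun x => ?_) hr hδ0.le ?_
    · calc |g x - cl (f x)| ≤ |g x| + |cl (f x)| := abs_sub _ _
        _ ≤ M + M := add_le_add (hg x) (hclb _)
        _ = K := by rw [hK]; ring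
    · refine le_trans (eLpNorm_mono fun x => ?_) hfd
      exact hclip _ _ (hg x)
  have h2 : eLpNorm (fun x => cl (f x) - π.eval (f x)) (ENNReal.ofReal r) P ≤
      ENNReal.ofReal (ε / 2) := by
    refine (eLpNorm_le_of_ae_bound (C := ε / 2) (Eventually.of_forall fun x => ?_)).trans ?_
    · rw [Real.norm_eq_abs, abs_sub_comm]
      exact (hπ (f x) (abs_le.1 (hC x))).le
    · simp
  have h3 : (fun x => g x - π.eval (f x)) =
      (fun x => g x - cl (f x)) + fun x => cl (f x) - π.eval (f x) := by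
    funext x
    simp
  rw [h3]
  refine (eLpNorm_add_le ?_ ?_ ?_).trans ?_
  · exact (hgc.sub (hclc.comp hf.continuous)).aestronglyMeasurable
  · exact ((hclc.comp hf.continuous).sub (π.continuous.comp hf.continuous)).aestronglyMeasurable
  · rw [ENNReal.one_le_ofReal]; linarith
  · calc _ ≤ ENNReal.ofReal (ε / 2) + ENNReal.ofReal (ε / 2) := add_le_add h1 h2
      _ = ENNReal.ofReal ε := by rw [← ENNReal.ofReal_add (by positivity) (by positivity)]; ring_nf

/-- **Trigonometric polynomials are dense in `L^p`.** -/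
theorem dense_Lp (h : IsCG P) {p : ℝ} (hp : 1 ≤ p) {F : E → ℝ} (hF : MemLp F (ENNReal.ofReal p) P)
    {ε : ℝ} (hε : 0 < ε) :
    ∃ f : E → ℝ, IsTP f ∧ eLpNorm (fun x => F x - f x) (ENNReal.ofReal p) P ≤
      ENNReal.ofReal ε := by
  have := h.prob
  obtain ⟨g, hg1, hg2⟩ := hF.exists_boundedContinuous_eLpNorm_sub_le ENNReal.ofReal_ne_top
    (ε := ENNReal.ofReal (ε / 2)) (by simpa using hε)
  set r := max p 2 with hr
  obtain ⟨f, hf, hfd⟩ := dense_bdd h g.continuous (M := max 1 ‖g‖) (le_max_left _ _)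
    (fun x => (g.norm_coe_le_norm x).trans (le_max_right _ _)) (r := r) (le_max_right _ _)
    (ε := ε / 2) (by positivity)
  refine ⟨f, hf, ?_⟩
  have h3 : (fun x => F x - f x) = (F - ⇑g) + fun x => g x - f x := by
    funext x
    simp
  rw [h3]
  refine (eLpNorm_add_le ?_ ?_ ?_).trans ?_
  · exact hF.1.sub g.continuous.aestronglyMeasurable
  · exact (g.continuous.sub hf.continuous).aestronglyMeasurable
  · rwa [ENNReal.one_le_ofReal]
  · have h4 : eLpNorm (fun x => g x - f x) (ENNReal.ofReal p) P ≤ ENNReal.ofReal (ε / 2) := by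
      refine le_trans (eLpNorm_le_eLpNorm_of_exponent_le ?_ ?_) hfd
      · exact ENNReal.ofReal_le_ofReal (le_max_left _ _)
      · exact (g.continuous.sub hf.continuous).aestronglyMeasurable
    calc _ ≤ ENNReal.ofReal (ε / 2) + ENNReal.ofReal (ε / 2) := add_le_add hg1 h4
      _ = ENNReal.ofReal ε := by rw [← ENNReal.ofReal_add (by positivity) (by positivity)]; ring_nf

end Pool.Agent.Helper99.MD
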