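import Mathlib
import Pool.Agent.Helper99.MD.Dense

/-! Bessel potentials. -/

set_option autoImplicit false
set_option linter.unusedSectionVars false

open MeasureTheory ProbabilityTheory Filter Topology
open scoped ENNReal NNReal

namespace Pool.Agent.Helper99.MD

/-! ### the Gamma distribution -/

/-- the Gamma distribution of shape `a` -/
noncomputable def gam (a : ℝ) : Measure ℝ := gammaMeasure a 1

theorem gam_prob {a : ℝ} (ha : 0 < a) : IsProbabilityMeasure (gam a) :=
  isProbabilityMeasure_gammaMeasure ha one_pos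

theorem measurable_gammaPDF (a r : ℝ) : Measurable (gammaPDF a r) :=
  (measurable_gammaPDFReal a r).ennreal_ofReal

theorem integral_gam {V : Type*} [NormedAddCommGroup V] [NormedSpace ℝ V] {a : ℝ} (ha : 0 < a)
    (φ : ℝ → V) :
    ∫ t, φ t ∂(gam a) =
      ∫ t in Set.Ioi (0:ℝ), ((Real.Gamma a)⁻¹ * (t ^ (a - 1) * Real.exp (-t))) • φ t := by
  unfold gam gammaMeasure
  rw [integral_withDensity_eq_integral_toReal_smul (measurable_gammaPDF a 1)
    (Eventually.of_forall fun x => by unfold gammaPDF; exact ENNReal.ofReal_lt_top)]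
  rw [← integral_indicator measurableSet_Ioi]
  refine integral_congr_ae ?_
  have h0 : ∀ᵐ t : ℝ, t ≠ 0 := by
    have : (volume : Measure ℝ) {0} = 0 := by simp
    exact compl_mem_ae_iff.2 this
  filter_upwards [h0] with t ht
  unfold gammaPDF
  rw [ENNReal.toReal_ofReal (gammaPDFReal_nonneg ha one_pos t)]
  rcases lt_or_gt_of_ne ht with h1 | h1
  · rw [Set.indicator_of_notMem (by simpa using h1.le)]
    unfold gammaPDFReal
    rw [if_neg (by linarith), zero_smul]
  · rw [Set.indicator_of_mem (by simpa using h1)]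
    unfold gammaPDFReal
    rw [if_pos h1.le]
    congr 1
    simp only [Real.one_rpow, one_mul, one_div]
    ring

theorem gam_pos {a : ℝ} (ha : 0 < a) : ∀ᵐ t ∂(gam a), 0 < t := by
  have := gam_prob ha
  unfold gam gammaMeasure
  rw [ae_withDensity_iff (measurable_gammaPDF a 1)]
  have h0 : ∀ᵐ t : ℝ, t ≠ 0 := by
    have : (volume : Measure ℝ) {0} = 0 := by simp
    exact compl_mem_ae_iff.2 this
  filter_upwards [h0] with t ht h
  by_contra hc
  have h1 : t < 0 := lt_of_le_of_ne (not_lt.1 hc) ht
  exact h (gammaPDF_of_neg h1)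

theorem ext_of_mgf {μ ν : Measure ℝ} [IsFiniteMeasure μ] [IsFiniteMeasure ν]
    (hμ : ∀ t < 1, Integrable (fun x => Real.exp (t * x)) μ)
    (hν : ∀ t < 1, Integrable (fun x => Real.exp (t * x)) ν)
    (h : ∀ t < 1, mgf id μ t = mgf id ν t) : μ = ν := by
  have key : Set.EqOn (complexMGF id μ) (complexMGF id ν) {z : ℂ | z.re < 1} := by
    have hX : AnalyticOnNhd ℂ (complexMGF id μ) {z : ℂ | z.re < 1} := by
      intro z hz
      apply analyticOnNhd_complexMGF (X := id) (μ := μ)
      have : Set.Iio (1:ℝ) ⊆ interior (integrableExpSet id μ) :=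
        interior_maximal (fun t ht => hμ t ht) isOpen_Iio
      exact this hz
    have hY : AnalyticOnNhd ℂ (complexMGF id ν) {z : ℂ | z.re < 1} := by
      intro z hz
      apply analyticOnNhd_complexMGF (X := id) (μ := ν)
      have : Set.Iio (1:ℝ) ⊆ interior (integrableExpSet id ν) :=
        interior_maximal (fun t ht => hν t ht) isOpen_Iio
      exact this hz
    refine AnalyticOnNhd.eqOn_of_preconnected_of_frequently_eq hX hY
      (convex_halfSpace_re_lt 1).isPreconnected
      (z₀ := ((0 : ℝ) : ℂ)) (by simp) ?_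
    have h_real : ∃ᶠ (x : ℝ) in 𝓝[≠] (0:ℝ), complexMGF id μ x = complexMGF id ν x := by
      apply Filter.Eventually.frequently
      have : ∀ᶠ x : ℝ in 𝓝[≠] (0:ℝ), x < 1 :=
        nhdsWithin_le_nhds (Iio_mem_nhds (by norm_num))
      filter_upwards [this] with x hx
      rw [complexMGF_ofReal, complexMGF_ofReal, h x hx]
    rw [frequently_iff_seq_forall] at h_real ⊢
    obtain ⟨xs, hx_tendsto, hx_eq⟩ := h_real
    refine ⟨fun n ↦ xs n, ?_, fun n ↦ ?_⟩
    · rw [tendsto_nhdsWithin_iff] at hx_tendsto ⊢
      constructor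
      · rw [Filter.tendsto_ofReal_iff]
        exact hx_tendsto.1
      · simpa using hx_tendsto.2
    · simp [hx_eq]
  apply Measure.ext_of_charFun
  funext t
  rw [← complexMGF_id_mul_I, ← complexMGF_id_mul_I]
  exact key (by simp)

theorem exp_gam {a s : ℝ} (ha : 0 < a) (hs : s < 1) :
    ∫ t, Real.exp (s * t) ∂(gam a) = (1 / (1 - s)) ^ a := by
  rw [integral_gam ha]
  have h1 := Real.integral_rpow_mul_exp_neg_mul_Ioi ha (by linarith : 0 < 1 - s)
  have hG := (Real.Gamma_pos_of_pos ha).ne'
  have h3 : ∫ t in Set.Ioi (0:ℝ), ((Real.Gamma a)⁻¹ * (t ^ (a - 1) * Real.exp (-t))) •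
      Real.exp (s * t) = (Real.Gamma a)⁻¹ *
      ∫ t in Set.Ioi (0:ℝ), t ^ (a - 1) * Real.exp (-((1 - s) * t)) := by
    rw [← integral_const_mul]
    refine setIntegral_congr_fun measurableSet_Ioi fun t ht => ?_
    simp only [smul_eq_mul]
    have : Real.exp (-((1 - s) * t)) = Real.exp (-t) * Real.exp (s * t) := by
      rw [← Real.exp_add]
      congr 1
      ring
    rw [this]
    ring
  rw [h3, h1]
  field_simp

theorem integrable_exp_gam {a s : ℝ} (ha : 0 < a) (hs : s < 1) :
    Integrable (fun t => Real.exp (s * t)) (gam a) := by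
  by_contra hc
  have h1 := integral_undef hc
  rw [exp_gam ha hs] at h1
  have : 0 < (1 / (1 - s)) ^ a := by
    apply Real.rpow_pos_of_pos
    rw [one_div_pos]
    linarith
  linarith

theorem gam_conv {a b : ℝ} (ha : 0 < a) (hb : 0 < b) :
    ((gam a).prod (gam b)).map (fun w => w.1 + w.2) = gam (a + b) := by
  have := gam_prob ha
  have := gam_prob hb
  have := gam_prob (add_pos ha hb)
  have hm : Measurable (fun w : ℝ × ℝ => w.1 + w.2) := by fun_prop
  have : IsProbabilityMeasure (((gam a).prod (gam b)).map (fun w => w.1 + w.2)) :=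
    Measure.isProbabilityMeasure_map hm.aemeasurable
  have hi : ∀ s < 1, Integrable (fun w : ℝ × ℝ => Real.exp (s * (w.1 + w.2)))
      ((gam a).prod (gam b)) := by
    intro s hs
    have h1 := (integrable_exp_gam ha hs).mul_prod (integrable_exp_gam hb hs)
    refine h1.congr (Eventually.of_forall fun w => ?_)
    simp only
    rw [← Real.exp_add]
    ring_nf
  refine ext_of_mgf (fun s hs => ?_) (fun s hs => integrable_exp_gam (add_pos ha hb) hs)
    fun s hs => ?_
  · rw [integrable_map_measure (by fun_prop : Continuous fun x => Real.exp (s * x)).aestronglyMeasurable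
      hm.aemeasurable]
    exact hi s hs
  · unfold mgf
    simp only [id]
    rw [integral_map hm.aemeasurable
      (by fun_prop : Continuous fun x => Real.exp (s * x)).aestronglyMeasurable,
      exp_gam (add_pos ha hb) hs]
    have h2 : ∀ w : ℝ × ℝ, Real.exp (s * (w.1 + w.2)) = Real.exp (s * w.1) * Real.exp (s * w.2) := by
      intro w
      rw [← Real.exp_add]
      ring_nf
    simp only [h2]
    rw [integral_prod_mul (fun t => Real.exp (s * t)) (fun t => Real.exp (s * t)),
      exp_gam ha hs, exp_gam hb hs, ← Real.rpow_add]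
    rw [one_div_pos]
    linarith

/-! ### potentials as averages -/

variable {E : Type*} [NormedAddCommGroup E] [NormedSpace ℝ E] [CompleteSpace E]
  [SecondCountableTopology E] [MeasurableSpace E] [BorelSpace E] {P : Measure E}

/-- the random map behind the potential -/
noncomputable def bmap (w : E × (ℝ × E)) : E := mix w.2.1 w.1 w.2.2

theorem measurable_bmap : Measurable (bmap (E := E)) := by
  have : Continuous (bmap (E := E)) := by
    unfold bmap mix
    fun_prop
  exact this.measurable

theorem bmap_mp (h : IsCG P) {a : ℝ} (ha : 0 < a) :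
    MeasurePreserving (bmap (E := E)) (P.prod ((gam a).prod P)) P := by
  have := h.prob
  have := gam_prob ha
  have h1 : MeasurePreserving (fun w : ℝ × (E × E) => (w.1, mix w.1 w.2.1 w.2.2))
      ((gam a).prod (P.prod P)) ((gam a).prod P) := by
    refine MeasurePreserving.skew_product (f := id) (g := fun t (w : E × E) => mix t w.1 w.2)
      (MeasurePreserving.id _) ?_ ?_
    · have : Continuous (Function.uncurry fun t (w : E × E) => mix t w.1 w.2) := by
        unfold mix Function.uncurry
        fun_prop
      exact this.measurable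
    · filter_upwards [gam_pos ha] with t ht
      exact (mix_mp h ht.le).map_eq
  have h2 : MeasurePreserving (Prod.snd : ℝ × E → E) ((gam a).prod P) P := measurePreserving_snd
  have h3 := h2.comp h1
  -- reorder the variables
  have h4 : MeasurePreserving (fun w : E × (ℝ × E) => (w.2.1, (w.1, w.2.2)))
      (P.prod ((gam a).prod P)) ((gam a).prod (P.prod P)) := by
    have e1 : MeasurePreserving (MeasurableEquiv.prodAssoc.symm : E × (ℝ × E) ≃ᵐ (E × ℝ) × E)
        (P.prod ((gam a).prod P)) ((P.prod (gam a)).prod P) :=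
      (measurePreserving_prodAssoc P (gam a) P).symm _
    have e2 : MeasurePreserving (Prod.map Prod.swap id : (E × ℝ) × E → (ℝ × E) × E)
        ((P.prod (gam a)).prod P) (((gam a).prod P).prod P) :=
      Measure.measurePreserving_swap.prod (MeasurePreserving.id P)
    have e3 := measurePreserving_prodAssoc (gam a) P P
    exact e3.comp (e2.comp e1)
  exact h3.comp h4

/-- potentials as averages -/
noncomputable def bav (P : Measure E) (a : ℝ) (F : E → ℝ) : E → ℝ :=
  avg ((gam a).prod P) bmap F

theorem bessel_eq (h : IsCG P) {r : ℕ} (hr : 1 ≤ r) {F : E → ℝ} (hF : Integrable F P) :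
    bessel P r F =ᵐ[P] bav P ((r : ℝ) / 2) F := by
  have := h.prob
  have hr' : (0:ℝ) < (r : ℝ) / 2 := by
    have : (1:ℝ) ≤ r := by exact_mod_cast hr
    positivity
  have := gam_prob hr'
  filter_upwards [ae_integrable (bmap_mp h hr') hF] with x hx
  unfold bav avg
  rw [integral_prod _ hx]
  change _ = ∫ t, ou P t F x ∂(gam ((r : ℝ) / 2))
  rw [integral_gam hr']
  unfold bessel
  rw [← integral_const_mul]
  refine setIntegral_congr_fun measurableSet_Ioi fun t ht => ?_
  simp only [smul_eq_mul]
  ring

/-- the potentials form a semigroup -/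
theorem bav_bav (h : IsCG P) {a b : ℝ} (ha : 0 < a) (hb : 0 < b) {F : E → ℝ}
    (hF : Integrable F P) : bav P a (bav P b F) =ᵐ[P] bav P (a + b) F := by
  have := h.prob
  have := gam_prob ha
  have := gam_prob hb
  have := gam_prob (add_pos ha hb)
  refine avg_avg (bmap_mp h ha) (bmap_mp h hb) (bmap_mp h (add_pos ha hb)) (fun x => ?_) hF
  have hm1 : Measurable (fun w : (ℝ × E) × (ℝ × E) => mix w.2.1 (mix w.1.1 x w.1.2) w.2.2) := by
    have : Continuous (fun w : (ℝ × E) × (ℝ × E) => mix w.2.1 (mix w.1.1 x w.1.2) w.2.2) := by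
      unfold mix; fun_prop
    exact this.measurable
  have hm2 : Measurable (fun v : ℝ × E => mix v.1 x v.2) := by
    have : Continuous (fun v : ℝ × E => mix v.1 x v.2) := by
      unfold mix; fun_prop
    exact this.measurable
  change (((gam a).prod P).prod ((gam b).prod P)).map
    (fun w : (ℝ × E) × (ℝ × E) => mix w.2.1 (mix w.1.1 x w.1.2) w.2.2) =
    ((gam (a + b)).prod P).map (fun v : ℝ × E => mix v.1 x v.2)
  -- compare the integrals of a nonnegative measurable function
  have key : ∀ g : E → ℝ≥0∞, Measurable g →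
      ∫⁻ w, g (mix w.2.1 (mix w.1.1 x w.1.2) w.2.2) ∂(((gam a).prod P).prod ((gam b).prod P)) =
      ∫⁻ v, g (mix v.1 x v.2) ∂((gam (a + b)).prod P) := by
    intro g hg
    have hgm1 : Measurable fun w : (ℝ × E) × (ℝ × E) => g (mix w.2.1 (mix w.1.1 x w.1.2) w.2.2) :=
      hg.comp hm1
    have m2 : Measurable fun v : ℝ × E => g (mix v.1 x v.2) := hg.comp hm2
    have e1 : ∫⁻ w, g (mix w.2.1 (mix w.1.1 x w.1.2) w.2.2)
        ∂(((gam a).prod P).prod ((gam b).prod P)) =
        ∫⁻ t, ∫⁻ y, ∫⁻ s, ∫⁻ y', g (mix s (mix t x y) y') ∂P ∂(gam b) ∂P ∂(gam a) := by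
      rw [lintegral_prod _ hgm1.aemeasurable]
      have m3 : Measurable fun w1 : ℝ × E =>
          ∫⁻ w2, g (mix w2.1 (mix w1.1 x w1.2) w2.2) ∂((gam b).prod P) :=
        Measurable.lintegral_prod_right' hgm1
      rw [lintegral_prod _ m3.aemeasurable]
      refine lintegral_congr fun t => lintegral_congr fun y => ?_
      have c4 : Continuous fun w2 : ℝ × E => mix w2.1 (mix t x y) w2.2 := by unfold mix; fun_prop
      have m4 : Measurable fun w2 : ℝ × E => g (mix w2.1 (mix t x y) w2.2) := hg.comp c4.measurable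
      exact lintegral_prod _ m4.aemeasurable
    rw [e1, lintegral_prod _ m2.aemeasurable, ← gam_conv ha hb]
    have m5 : Measurable fun u : ℝ => ∫⁻ y, g (mix u x y) ∂P :=
      Measurable.lintegral_prod_right' (f := fun w : ℝ × E => g (mix w.1 x w.2)) m2
    have e2 : ∫⁻ u, ∫⁻ y, g (mix u x y) ∂P ∂(((gam a).prod (gam b)).map
        (fun w => w.1 + w.2)) = ∫⁻ t, ∫⁻ s, ∫⁻ y, g (mix (t + s) x y) ∂P ∂(gam b) ∂(gam a) := by
      rw [lintegral_map m5 (by fun_prop)]
      rw [lintegral_prod]
      exact (m5.comp (by fun_prop : Measurable fun w : ℝ × ℝ => w.1 + w.2)).aemeasurable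
    rw [e2]
    refine lintegral_congr_ae ?_
    filter_upwards [gam_pos ha] with t ht
    rw [lintegral_lintegral_swap]
    · refine lintegral_congr_ae ?_
      filter_upwards [gam_pos hb] with s hs
      have c6 : Continuous fun w : E × E => mix s (mix t x w.1) w.2 := by unfold mix; fun_prop
      have c7 : Continuous fun y : E => mix (s + t) x y := by unfold mix; fun_prop
      have e3 : ∫⁻ y, ∫⁻ y', g (mix s (mix t x y) y') ∂P ∂P =
          ∫⁻ w, g (mix s (mix t x w.1) w.2) ∂(P.prod P) := by
        rw [lintegral_prod]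
        exact (hg.comp c6.measurable).aemeasurable
      rw [e3, add_comm t s, ← lintegral_map (f := g) (g := fun w : E × E => mix s (mix t x w.1) w.2)
        hg c6.measurable, map_mix_mix h hs.le ht.le x, lintegral_map hg c7.measurable]
    · have c8 : Continuous fun w : (E × ℝ) × E => mix w.1.2 (mix t x w.1.1) w.2 := by
        unfold mix; fun_prop
      exact (Measurable.lintegral_prod_right' (f := fun w : (E × ℝ) × E =>
        g (mix w.1.2 (mix t x w.1.1) w.2)) (hg.comp c8.measurable)).aemeasurable
  ext s hs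
  have h1 := key (s.indicator 1) (measurable_one.indicator hs)
  rw [← lintegral_map (f := s.indicator 1) (measurable_one.indicator hs) hm1,
    ← lintegral_map (f := s.indicator 1) (measurable_one.indicator hs) hm2,
    lintegral_indicator_one hs, lintegral_indicator_one hs] at h1
  exact h1

end Pool.Agent.Helper99.MD
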