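import Mathlib
import Pool.Agent.Helper99.MD.Pot

/-! Lipschitz bound for potentials along the rotation. -/

set_option autoImplicit false
set_option linter.unusedSectionVars false

open MeasureTheory ProbabilityTheory Filter Topology
open scoped ENNReal NNReal

namespace Pool.Agent.Helper99.MD

section General

variable {X : Type*} [MeasurableSpace X] {μ : Measure X}

/-- the `L^p` norm as a real number -/
noncomputable def N (μ : Measure X) (p : ℝ) (F : X → ℝ) : ℝ :=
  (eLpNorm F (ENNReal.ofReal p) μ).toReal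

theorem N_nonneg (p : ℝ) (F : X → ℝ) : 0 ≤ N μ p F := ENNReal.toReal_nonneg

theorem N_eq {p : ℝ} (hp : 0 < p) {F : X → ℝ} (hF : MemLp F (ENNReal.ofReal p) μ) :
    N μ p F = (∫ x, |F x| ^ p ∂μ) ^ (1 / p) := by
  unfold N
  rw [hF.eLpNorm_eq_integral_rpow_norm (by simpa using hp) ENNReal.ofReal_ne_top,
    ENNReal.toReal_ofReal hp.le, ENNReal.toReal_ofReal (by positivity), one_div]
  rfl

theorem N_congr {p : ℝ} {F G : X → ℝ} (h : F =ᵐ[μ] G) : N μ p F = N μ p G := by
  unfold N
  rw [eLpNorm_congr_ae h]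

theorem N_mono_of_le {p : ℝ} {F G : X → ℝ} (hG : MemLp G (ENNReal.ofReal p) μ)
    (h : eLpNorm F (ENNReal.ofReal p) μ ≤ eLpNorm G (ENNReal.ofReal p) μ) : N μ p F ≤ N μ p G :=
  ENNReal.toReal_mono hG.2.ne h

theorem N_add_le {p : ℝ} (hp : 1 ≤ p) {F G : X → ℝ} (hF : MemLp F (ENNReal.ofReal p) μ)
    (hG : MemLp G (ENNReal.ofReal p) μ) :
    N μ p (fun x => F x + G x) ≤ N μ p F + N μ p G := by
  unfold N
  rw [← ENNReal.toReal_add hF.2.ne hG.2.ne]
  refine ENNReal.toReal_mono (ENNReal.add_ne_top.2 ⟨hF.2.ne, hG.2.ne⟩) ?_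
  exact eLpNorm_add_le hF.1 hG.1 (by rwa [ENNReal.one_le_ofReal])

theorem N_sub_le {p : ℝ} (hp : 1 ≤ p) {F G : X → ℝ} (hF : MemLp F (ENNReal.ofReal p) μ)
    (hG : MemLp G (ENNReal.ofReal p) μ) :
    N μ p (fun x => F x - G x) ≤ N μ p F + N μ p G := by
  unfold N
  rw [← ENNReal.toReal_add hF.2.ne hG.2.ne]
  refine ENNReal.toReal_mono (ENNReal.add_ne_top.2 ⟨hF.2.ne, hG.2.ne⟩) ?_
  exact eLpNorm_sub_le hF.1 hG.1 (by rwa [ENNReal.one_le_ofReal])

theorem N_le_of_ofReal {p : ℝ} {F : X → ℝ} {ε : ℝ} (hε : 0 ≤ ε)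
    (h : eLpNorm F (ENNReal.ofReal p) μ ≤ ENNReal.ofReal ε) : N μ p F ≤ ε := by
  unfold N
  exact ENNReal.toReal_le_of_le_ofReal hε h

/-- Hölder -/
theorem holder {p p' : ℝ} (hp : p.HolderConjugate p') {F G : X → ℝ}
    (hF : MemLp F (ENNReal.ofReal p) μ) (hG : MemLp G (ENNReal.ofReal p') μ) :
    |∫ x, F x * G x ∂μ| ≤ N μ p F * N μ p' G := by
  have h1 := integral_mul_norm_le_Lp_mul_Lq hp hF hG
  rw [N_eq hp.pos hF, N_eq hp.symm.pos hG]
  refine (abs_integral_le_integral_abs).trans (le_trans (le_of_eq ?_) h1)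
  congr 1
  funext x
  rw [abs_mul]
  rfl

theorem int_mul {p p' : ℝ} (hp : p.HolderConjugate p') {F G : X → ℝ}
    (hF : MemLp F (ENNReal.ofReal p) μ) (hG : MemLp G (ENNReal.ofReal p') μ) :
    Integrable (fun x => F x * G x) μ := by
  have : ENNReal.HolderConjugate (ENNReal.ofReal p) (ENNReal.ofReal p') := hp.ennrealOfReal
  exact hF.integrable_mul hG

/-- duality -/
theorem N_le_of_dual {p p' : ℝ} (hp : p.HolderConjugate p') {F : X → ℝ}
    (hF : MemLp F (ENNReal.ofReal p) μ) {K : ℝ} (hK : 0 ≤ K)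
    (h : ∀ G : X → ℝ, MemLp G (ENNReal.ofReal p') μ → |∫ x, F x * G x ∂μ| ≤ K * N μ p' G) :
    N μ p F ≤ K := by
  have hp0 := hp.pos
  have hp1 := hp.lt
  have hp'0 := hp.symm.pos
  set G : X → ℝ := fun x => SignType.sign (F x) * |F x| ^ (p - 1) with hG
  have hGabs : ∀ x, |G x| = |F x| ^ (p - 1) := by
    intro x
    simp only [hG]
    rcases lt_trichotomy (F x) 0 with h1 | h1 | h1
    · simp [sign_neg h1, abs_of_nonneg (Real.rpow_nonneg (abs_nonneg (F x)) _)]
    · rw [h1]
      simp [Real.zero_rpow (by linarith : p - 1 ≠ 0)]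
    · simp [sign_pos h1, abs_of_nonneg (Real.rpow_nonneg (abs_nonneg (F x)) _)]
  have hGp : ∀ x, |G x| ^ p' = |F x| ^ p := by
    intro x
    rw [hGabs, ← Real.rpow_mul (abs_nonneg _)]
    congr 1
    have := hp.sub_one_mul_conj
    linarith
  have hFG : ∀ x, F x * G x = |F x| ^ p := by
    intro x
    simp only [hG]
    have h2 : F x * (SignType.sign (F x) * |F x| ^ (p - 1)) = |F x| * |F x| ^ (p - 1) := by
      rw [← mul_assoc]
      congr 1
      exact self_mul_sign (F x)
    rw [h2]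
    rcases (abs_nonneg (F x)).eq_or_lt with h3 | h3
    · rw [← h3, zero_mul, Real.zero_rpow hp0.ne']
    · nth_rewrite 1 [← Real.rpow_one |F x|]
      rw [← Real.rpow_add h3]
      ring_nf
  have hGm : AEStronglyMeasurable G μ := by
    have h4 : AEMeasurable F μ := hF.1.aemeasurable
    have h5 : AEMeasurable (fun x => ((SignType.sign (F x) : SignType) : ℝ)) μ := by
      have : Measurable (fun y : ℝ => ((SignType.sign y : SignType) : ℝ)) := by
        have e : (fun y : ℝ => ((SignType.sign y : SignType) : ℝ)) =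
            fun y => if 0 < y then 1 else if y < 0 then -1 else 0 := by
          funext y
          rcases lt_trichotomy y 0 with h1 | h1 | h1
          · simp [sign_neg h1, h1, not_lt.2 h1.le]
          · simp [h1]
          · simp [sign_pos h1, h1]
        rw [e]
        exact Measurable.ite measurableSet_Ioi measurable_const
          (Measurable.ite measurableSet_Iio measurable_const measurable_const)
      exact this.comp_aemeasurable h4
    exact (h5.mul (h4.abs.pow_const (p - 1))).aestronglyMeasurable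
  have hFi : Integrable (fun x => |F x| ^ p) μ := by
    have := (integrable_norm_rpow_iff hF.1 (by simpa using hp0) ENNReal.ofReal_ne_top).2 hF
    rw [ENNReal.toReal_ofReal hp0.le] at this
    exact this
  have hGL : MemLp G (ENNReal.ofReal p') μ := by
    rw [← integrable_norm_rpow_iff hGm (by simpa using hp'0) ENNReal.ofReal_ne_top,
      ENNReal.toReal_ofReal hp'0.le]
    refine hFi.congr (Eventually.of_forall fun x => ?_)
    exact (hGp x).symm
  have h6 := h G hGL
  simp only [hFG] at h6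
  rw [N_eq hp'0 hGL] at h6
  simp only [hGp] at h6
  rw [N_eq hp0 hF]
  set I := ∫ x, |F x| ^ p ∂μ with hI
  have hI0 : 0 ≤ I := integral_nonneg fun x => by positivity
  rw [abs_of_nonneg hI0] at h6
  rcases hI0.eq_or_lt with h7 | h7
  · rw [← h7, Real.zero_rpow (by positivity)]
    exact hK
  · have h8 : I = I ^ (1 / p) * I ^ (1 / p') := by
      rw [← Real.rpow_add h7]
      have := hp.inv_add_inv_eq_one
      rw [one_div, one_div, this, Real.rpow_one]
    have h9 : 0 < I ^ (1 / p') := Real.rpow_pos_of_pos h7 _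
    have h10 : I ^ (1 / p) * I ^ (1 / p') ≤ K * I ^ (1 / p') := by rwa [← h8]
    exact le_of_mul_le_mul_right h10 h9

end General

section Ext

variable {E : Type*} [NormedAddCommGroup E] [NormedSpace ℝ E] [CompleteSpace E]
  [SecondCountableTopology E] [MeasurableSpace E] [BorelSpace E] {P : Measure E}

theorem nrm_eq_N {p : ℝ} (hp : 0 < p) {F : E → ℝ} (hF : MemLp F (ENNReal.ofReal p) P) :
    nrm P p F = N P p F := by
  rw [N_eq hp hF]
  rfl

theorem ou_memLp (h : IsCG P) {t : ℝ} (ht : 0 ≤ t) {F : E → ℝ} {p : ℝ} (hp : 1 ≤ p)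
    (hF : MemLp F (ENNReal.ofReal p) P) : MemLp (ou P t F) (ENNReal.ofReal p) P := by
  have := h.prob
  exact avg_memLp (mix_mp h ht) hp hF

theorem N_ou_le (h : IsCG P) {t : ℝ} (ht : 0 ≤ t) {F : E → ℝ} {p : ℝ} (hp : 1 ≤ p)
    (hF : MemLp F (ENNReal.ofReal p) P) : N P p (ou P t F) ≤ N P p F := by
  have := h.prob
  exact N_mono_of_le hF (eLpNorm_avg_le (mix_mp h ht) hF.1 hp)

theorem N_rot {A : E →L[ℝ] E} (hA : Rot P A) (θ : ℝ) {F : E → ℝ} {p : ℝ}
    (hF : AEStronglyMeasurable F P) : N P p (fun x => F (rot A θ x)) = N P p F := by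
  unfold N
  rw [← eLpNorm_comp_measurePreserving hF (hA.mp θ)]
  rfl

theorem memLp_rot {A : E →L[ℝ] E} (hA : Rot P A) (θ : ℝ) {F : E → ℝ} {p : ℝ≥0∞}
    (hF : MemLp F p P) : MemLp (fun x => F (rot A θ x)) p P :=
  hF.comp_measurePreserving (hA.mp θ)

/-- the increment of `P_t F` along the rotation -/
noncomputable def inc (P : Measure E) (A : E →L[ℝ] E) (t θ : ℝ) (F : E → ℝ) (x : E) : ℝ :=
  ou P t F (rot A θ x) - ou P t F x

theorem inc_memLp (h : IsCG P) {A : E →L[ℝ] E} (hA : Rot P A) {t : ℝ} (ht : 0 ≤ t) (θ : ℝ)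
    {F : E → ℝ} {p : ℝ} (hp : 1 ≤ p) (hF : MemLp F (ENNReal.ofReal p) P) :
    MemLp (inc P A t θ F) (ENNReal.ofReal p) P :=
  (memLp_rot hA θ (ou_memLp h ht hp hF)).sub (ou_memLp h ht hp hF)

theorem N_inc_le (h : IsCG P) {A : E →L[ℝ] E} (hA : Rot P A) {t : ℝ} (ht : 0 ≤ t) (θ : ℝ)
    {F : E → ℝ} {p : ℝ} (hp : 1 ≤ p) (hF : MemLp F (ENNReal.ofReal p) P) :
    N P p (inc P A t θ F) ≤ 2 * N P p F := by
  have h1 := N_sub_le hp (memLp_rot hA θ (ou_memLp h ht hp hF)) (ou_memLp h ht hp hF)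
  have h2 := N_rot hA θ (p := p) (ou_memLp h ht hp hF).1
  have h3 := N_ou_le h ht hp hF
  calc N P p (inc P A t θ F) ≤ _ := h1
    _ ≤ _ := by rw [h2]; linarith

theorem inc_sub (h : IsCG P) {A : E →L[ℝ] E} (hA : Rot P A) {t : ℝ} (ht : 0 ≤ t) (θ : ℝ)
    {F G : E → ℝ} (hF : Integrable F P) (hG : Integrable G P) :
    inc P A t θ (fun x => F x - G x) =ᵐ[P] fun x => inc P A t θ F x - inc P A t θ G x := by
  have := h.prob
  have h1 := avg_sub (mix_mp h ht) hF hG
  have h2 : (fun x => ou P t (fun x => F x - G x) (rot A θ x)) =ᵐ[P]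
      fun x => ou P t F (rot A θ x) - ou P t G (rot A θ x) :=
    (hA.mp θ).quasiMeasurePreserving.ae_eq_comp h1
  filter_upwards [h1, h2] with x e1 e2
  have e1' : ou P t (fun x => F x - G x) x = ou P t F x - ou P t G x := e1
  unfold inc
  rw [e1', e2]
  ring

/-- the key estimate in `L^p` -/
theorem key_Lp (h : IsCG P) {A : E →L[ℝ] E} (hA : Rot P A) {p p' : ℝ}
    (hp : p.HolderConjugate p') {t : ℝ} (ht : 0 < t) (θ : ℝ) {F G : E → ℝ}
    (hF : MemLp F (ENNReal.ofReal p) P) (hG : MemLp G (ENNReal.ofReal p') P) :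
    |∫ x, inc P A (2 * t) θ F x * G x ∂P| ≤
      |θ| * (ratio t ^ 2 * (gk p * gk p')) * (N P p F * N P p' G) := by
  have := h.prob
  have hp1 : 1 ≤ p := hp.lt.le
  have hp'1 : 1 ≤ p' := hp.symm.lt.le
  have h2t : (0:ℝ) ≤ 2 * t := by linarith
  set C := |θ| * (ratio t ^ 2 * (gk p * gk p')) with hC
  have hC0 : 0 ≤ C := by
    have := gk_nonneg p
    have := gk_nonneg p'
    positivity
  have hFi : Integrable F P := hF.integrable (by rwa [ENNReal.one_le_ofReal])
  have hNF := N_nonneg (μ := P) p F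
  have hNG := N_nonneg (μ := P) p' G
  -- approximation
  have key : ∀ ε : ℝ, 0 < ε → |∫ x, inc P A (2 * t) θ F x * G x ∂P| ≤
      C * ((N P p F + ε) * (N P p' G + ε)) + (2 * ε * N P p' G + 2 * (N P p F + ε) * ε) := by
    intro ε hε
    obtain ⟨f, hf, hfd⟩ := dense_Lp h hp1 hF hε
    obtain ⟨g, hg, hgd⟩ := dense_Lp h hp'1 hG hε
    have hfL : MemLp f (ENNReal.ofReal p) P := hf.memLp h _
    have hgL : MemLp g (ENNReal.ofReal p') P := hg.memLp h _
    have hfi : Integrable f P := hfL.integrable (by rwa [ENNReal.one_le_ofReal])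
    have n1 : N P p (fun x => F x - f x) ≤ ε := N_le_of_ofReal hε.le hfd
    have n2 : N P p' (fun x => G x - g x) ≤ ε := N_le_of_ofReal hε.le hgd
    have n3 : N P p f ≤ N P p F + ε := by
      have e : f = fun x => F x - (F x - f x) := by funext x; ring
      rw [e]
      exact (N_sub_le hp1 hF (hF.sub hfL)).trans (add_le_add le_rfl n1)
    have n4 : N P p' g ≤ N P p' G + ε := by
      have e : g = fun x => G x - (G x - g x) := by funext x; ring
      rw [e]
      exact (N_sub_le hp'1 hG (hG.sub hgL)).trans (add_le_add le_rfl n2)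
    -- the three pieces
    have e1 : ∫ x, inc P A (2 * t) θ F x * G x ∂P =
        ∫ x, inc P A (2 * t) θ f x * g x ∂P +
        (∫ x, inc P A (2 * t) θ (fun x => F x - f x) x * G x ∂P +
          ∫ x, inc P A (2 * t) θ f x * (G x - g x) ∂P) := by
      rw [← integral_add, ← integral_add]
      · refine integral_congr_ae ?_
        filter_upwards [inc_sub h hA h2t θ hFi hfi] with x hx
        rw [hx]
        ring
      · exact int_mul hp (inc_memLp h hA h2t θ hp1 hfL) hgL
      · exact (int_mul hp (inc_memLp h hA h2t θ hp1 (hF.sub hfL)) hG).add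
          (int_mul hp (inc_memLp h hA h2t θ hp1 hfL) (hG.sub hgL))
      · exact int_mul hp (inc_memLp h hA h2t θ hp1 (hF.sub hfL)) hG
      · exact int_mul hp (inc_memLp h hA h2t θ hp1 hfL) (hG.sub hgL)
    have b1 : |∫ x, inc P A (2 * t) θ f x * g x ∂P| ≤ C * (N P p f * N P p' g) := by
      have hf' := hf
      have hg' := hg
      obtain ⟨ι, _, c, α, L, rfl⟩ := hf
      obtain ⟨κ, _, d, β, M, rfl⟩ := hg
      have k1 := key_trig h hA hp ht θ c α L d β M
      rw [nrm_eq_N hp.pos hfL, nrm_eq_N hp.symm.pos hgL] at k1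
      refine le_trans (le_of_eq ?_) k1
      congr 1
      rw [← integral_sub]
      · congr 1
        funext x
        unfold inc
        ring
      · exact int_mul hp (memLp_rot hA θ (ou_memLp h h2t hp1 hfL)) hgL
      · exact int_mul hp (ou_memLp h h2t hp1 hfL) hgL
    have b2 : |∫ x, inc P A (2 * t) θ (fun x => F x - f x) x * G x ∂P| ≤ 2 * ε * N P p' G := by
      refine (holder hp (inc_memLp h hA h2t θ hp1 (hF.sub hfL)) hG).trans ?_
      refine mul_le_mul_of_nonneg_right ?_ hNG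
      exact (N_inc_le h hA h2t θ hp1 (hF.sub hfL)).trans (by
        have : N P p (F - f) = N P p (fun x => F x - f x) := rfl
        rw [this]; linarith)
    have b3 : |∫ x, inc P A (2 * t) θ f x * (G x - g x) ∂P| ≤ 2 * (N P p F + ε) * ε := by
      refine (holder hp (inc_memLp h hA h2t θ hp1 hfL) (hG.sub hgL)).trans ?_
      refine mul_le_mul ?_ n2 (N_nonneg _ _) (by positivity)
      exact (N_inc_le h hA h2t θ hp1 hfL).trans (by linarith)
    rw [e1]
    refine (abs_add_le _ _).trans (add_le_add ?_ ((abs_add_le _ _).trans (add_le_add b2 b3)))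
    refine b1.trans ?_
    have := N_nonneg (μ := P) p' g
    gcongr
  have hlim : Tendsto (fun ε : ℝ => C * ((N P p F + ε) * (N P p' G + ε)) +
      (2 * ε * N P p' G + 2 * (N P p F + ε) * ε)) (𝓝[>] 0) (𝓝 (C * (N P p F * N P p' G))) := by
    have hc : Continuous (fun ε : ℝ => C * ((N P p F + ε) * (N P p' G + ε)) +
      (2 * ε * N P p' G + 2 * (N P p F + ε) * ε)) := by fun_prop
    have := hc.tendsto 0
    simp only [add_zero, mul_zero, zero_mul] at this
    exact this.mono_left nhdsWithin_le_nhds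
  refine ge_of_tendsto hlim ?_
  filter_upwards [self_mem_nhdsWithin] with ε hε
  exact key ε hε

end Ext

end Pool.Agent.Helper99.MD
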