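import Mathlib
import Pool.Agent.Helper99.MD.Lip

/-! Lipschitz bound for potentials along the rotation, integrated form. -/

set_option autoImplicit false
set_option linter.unusedSectionVars false

open MeasureTheory ProbabilityTheory Filter Topology
open scoped ENNReal NNReal

namespace Pool.Agent.Helper99.MD

variable {E : Type*} [NormedAddCommGroup E] [NormedSpace ℝ E] [CompleteSpace E]
  [SecondCountableTopology E] [MeasurableSpace E] [BorelSpace E] {P : Measure E}

theorem bav_memLp (h : IsCG P) {a : ℝ} (ha : 0 < a) {F : E → ℝ} {p : ℝ} (hp : 1 ≤ p)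
    (hF : MemLp F (ENNReal.ofReal p) P) : MemLp (bav P a F) (ENNReal.ofReal p) P := by
  have := h.prob
  have := gam_prob ha
  exact avg_memLp (bmap_mp h ha) hp hF

theorem N_bav_le (h : IsCG P) {a : ℝ} (ha : 0 < a) {F : E → ℝ} {p : ℝ} (hp : 1 ≤ p)
    (hF : MemLp F (ENNReal.ofReal p) P) : N P p (bav P a F) ≤ N P p F := by
  have := h.prob
  have := gam_prob ha
  exact N_mono_of_le hF (eLpNorm_avg_le (bmap_mp h ha) hF.1 hp)

/-- pairing of a potential, as an integral over time -/
theorem bav_pair (h : IsCG P) {a : ℝ} (ha : 0 < a) {p p' : ℝ} (hp : p.HolderConjugate p')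
    {R : E → E} (hR : MeasurePreserving R P P) {F G : E → ℝ}
    (hF : MemLp F (ENNReal.ofReal p) P) (hG : MemLp G (ENNReal.ofReal p') P) :
    Integrable (fun t => ∫ x, ou P t F (R x) * G x ∂P) (gam a) ∧
    ∫ x, bav P a F (R x) * G x ∂P = ∫ t, ∫ x, ou P t F (R x) * G x ∂P ∂(gam a) := by
  have := h.prob
  have := gam_prob ha
  -- the integrand on the big space
  have hb : MeasurePreserving (fun w : E × (ℝ × E) => bmap (R w.1, w.2))
      (P.prod ((gam a).prod P)) P :=
    (bmap_mp h ha).comp (hR.prod (MeasurePreserving.id ((gam a).prod P)))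
  have h1 : MemLp (fun w : E × (ℝ × E) => F (bmap (R w.1, w.2))) (ENNReal.ofReal p)
      (P.prod ((gam a).prod P)) := hF.comp_measurePreserving hb
  have h2 : MemLp (fun w : E × (ℝ × E) => G w.1) (ENNReal.ofReal p')
      (P.prod ((gam a).prod P)) := hG.comp_measurePreserving measurePreserving_fst
  have h3 : Integrable (fun w : E × (ℝ × E) => F (bmap (R w.1, w.2)) * G w.1)
      (P.prod ((gam a).prod P)) := int_mul hp h1 h2
  have hassoc := measurePreserving_prodAssoc P (gam a) P
  have h4 : Integrable (fun v : (E × ℝ) × E => F (bmap (R v.1.1, (v.1.2, v.2))) * G v.1.1)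
      ((P.prod (gam a)).prod P) := hassoc.integrable_comp_of_integrable h3
  have h5 : Integrable (fun u : E × ℝ => ou P u.2 F (R u.1) * G u.1) (P.prod (gam a)) := by
    refine h4.integral_prod_left.congr (Eventually.of_forall fun u => ?_)
    exact integral_mul_const (G u.1) (fun y => F (bmap (R u.1, (u.2, y))))
  have e1 : ∫ x, bav P a F (R x) * G x ∂P =
      ∫ w : E × (ℝ × E), F (bmap (R w.1, w.2)) * G w.1 ∂(P.prod ((gam a).prod P)) := by
    rw [integral_prod _ h3]
    refine integral_congr_ae (Eventually.of_forall fun x => ?_)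
    exact (integral_mul_const _ _).symm
  have e2 : ∫ w : E × (ℝ × E), F (bmap (R w.1, w.2)) * G w.1 ∂(P.prod ((gam a).prod P)) =
      ∫ v : (E × ℝ) × E, F (bmap (R v.1.1, (v.1.2, v.2))) * G v.1.1 ∂((P.prod (gam a)).prod P) :=
    (hassoc.integral_comp (MeasurableEquiv.measurableEmbedding _)
      (fun w : E × (ℝ × E) => F (bmap (R w.1, w.2)) * G w.1)).symm
  have e3 : ∫ v : (E × ℝ) × E, F (bmap (R v.1.1, (v.1.2, v.2))) * G v.1.1
      ∂((P.prod (gam a)).prod P) =
      ∫ u : E × ℝ, ou P u.2 F (R u.1) * G u.1 ∂(P.prod (gam a)) := by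
    rw [integral_prod _ h4]
    refine integral_congr_ae (Eventually.of_forall fun u => ?_)
    exact integral_mul_const (G u.1) (fun y => F (bmap (R u.1, (u.2, y))))
  refine ⟨h5.integral_prod_right, ?_⟩
  rw [e1, e2, e3, integral_prod_symm _ h5]

theorem ratio_sq {t : ℝ} (ht : 0 < t) : ratio (t / 2) ^ 2 ≤ 1 / t := by
  unfold ratio
  rw [div_pow, Real.sq_sqrt (one_sub_nonneg (by linarith : (0:ℝ) ≤ t / 2)), ← Real.exp_nat_mul]
  have e1 : ((2:ℕ):ℝ) * -(t / 2) = -t := by push_cast; ring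
  have e2 : -(2 * (t / 2)) = -t := by ring
  rw [e1, e2]
  have h1 : Real.exp (-t) < 1 := by rw [Real.exp_lt_one_iff]; linarith
  have h2 : t + 1 ≤ Real.exp t := Real.add_one_le_exp t
  have h3 : Real.exp (-t) * Real.exp t = 1 := by rw [← Real.exp_add]; simp
  have h4 := Real.exp_pos (-t)
  rw [div_le_div_iff₀ (by linarith) ht]
  nlinarith

theorem int_inv_gam : ∫ t, 1 / t ∂(gam 2) = 1 := by
  rw [integral_gam (by norm_num : (0:ℝ) < 2)]
  have h1 : ∫ t in Set.Ioi (0:ℝ), ((Real.Gamma 2)⁻¹ * (t ^ ((2:ℝ) - 1) * Real.exp (-t))) • (1 / t) =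
      ∫ t in Set.Ioi (0:ℝ), Real.exp (-t) := by
    refine setIntegral_congr_fun measurableSet_Ioi fun t ht => ?_
    have ht' : (0:ℝ) < t := ht
    simp only [smul_eq_mul]
    rw [Real.Gamma_two, show (2:ℝ) - 1 = 1 by norm_num, Real.rpow_one]
    field_simp
  rw [h1, integral_exp_neg_Ioi_zero]

theorem integrable_inv_gam : Integrable (fun t : ℝ => 1 / t) (gam 2) := by
  by_contra hc
  have h1 := integral_undef hc
  rw [int_inv_gam] at h1
  exact one_ne_zero h1

/-- the increment of the potential along the rotation -/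
noncomputable def binc (P : Measure E) (A : E →L[ℝ] E) (θ : ℝ) (F : E → ℝ) (x : E) : ℝ :=
  bav P 2 F (rot A θ x) - bav P 2 F x

theorem binc_memLp (h : IsCG P) {A : E →L[ℝ] E} (hA : Rot P A) (θ : ℝ)
    {F : E → ℝ} {p : ℝ} (hp : 1 ≤ p) (hF : MemLp F (ENNReal.ofReal p) P) :
    MemLp (binc P A θ F) (ENNReal.ofReal p) P :=
  (memLp_rot hA θ (bav_memLp h (by norm_num) hp hF)).sub (bav_memLp h (by norm_num) hp hF)

theorem binc_pair (h : IsCG P) {A : E →L[ℝ] E} (hA : Rot P A) {p p' : ℝ}
    (hp : p.HolderConjugate p') (θ : ℝ) {F G : E → ℝ}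
    (hF : MemLp F (ENNReal.ofReal p) P) (hG : MemLp G (ENNReal.ofReal p') P) :
    |∫ x, binc P A θ F x * G x ∂P| ≤ |θ| * (gk p * gk p') * (N P p F * N P p' G) := by
  have := h.prob
  have := gam_prob (by norm_num : (0:ℝ) < 2)
  have hp1 : 1 ≤ p := hp.lt.le
  obtain ⟨i1, e1⟩ := bav_pair h (by norm_num : (0:ℝ) < 2) hp (hA.mp θ) hF hG
  obtain ⟨i2, e2⟩ := bav_pair h (by norm_num : (0:ℝ) < 2) hp (MeasurePreserving.id P) hF hG
  simp only [id] at i2 e2
  have hb := bav_memLp h (by norm_num : (0:ℝ) < 2) hp1 hF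
  have e3 : ∫ x, binc P A θ F x * G x ∂P =
      ∫ t, (∫ x, ou P t F (rot A θ x) * G x ∂P - ∫ x, ou P t F x * G x ∂P) ∂(gam 2) := by
    rw [integral_sub i1 i2, ← e1, ← e2, ← integral_sub]
    · congr 1
      funext x
      unfold binc
      ring
    · exact int_mul hp (memLp_rot hA θ hb) hG
    · exact int_mul hp hb hG
  set C := |θ| * (gk p * gk p') * (N P p F * N P p' G) with hC
  have hC0 : 0 ≤ C := by
    have := gk_nonneg p
    have := gk_nonneg p'
    have := N_nonneg (μ := P) p F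
    have := N_nonneg (μ := P) p' G
    positivity
  have key : ∀ᵐ t ∂(gam 2),
      ‖∫ x, ou P t F (rot A θ x) * G x ∂P - ∫ x, ou P t F x * G x ∂P‖ ≤ C * (1 / t) := by
    filter_upwards [gam_pos (by norm_num : (0:ℝ) < 2)] with t ht
    have k1 := key_Lp h hA hp (t := t / 2) (by linarith) θ hF hG
    rw [show 2 * (t / 2) = t by ring] at k1
    have k2 : ∫ x, inc P A t θ F x * G x ∂P =
        ∫ x, ou P t F (rot A θ x) * G x ∂P - ∫ x, ou P t F x * G x ∂P := by
      rw [← integral_sub]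
      · congr 1
        funext x
        unfold inc
        ring
      · exact int_mul hp (memLp_rot hA θ (ou_memLp h ht.le hp1 hF)) hG
      · exact int_mul hp (ou_memLp h ht.le hp1 hF) hG
    rw [k2] at k1
    rw [Real.norm_eq_abs]
    refine k1.trans ?_
    have k3 := ratio_sq ht
    have hK : 0 ≤ |θ| * (gk p * gk p') * (N P p F * N P p' G) := hC0
    calc |θ| * (ratio (t / 2) ^ 2 * (gk p * gk p')) * (N P p F * N P p' G) =
        C * ratio (t / 2) ^ 2 := by rw [hC]; ring
      _ ≤ C * (1 / t) := mul_le_mul_of_nonneg_left k3 hC0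
  rw [e3, ← Real.norm_eq_abs]
  refine (norm_integral_le_of_norm_le (integrable_inv_gam.const_mul C) key).trans ?_
  rw [integral_const_mul, int_inv_gam, mul_one]

/-- the Lipschitz bound in `L^p` -/
theorem N_binc_le (h : IsCG P) {A : E →L[ℝ] E} (hA : Rot P A) {p p' : ℝ}
    (hp : p.HolderConjugate p') (θ : ℝ) {F : E → ℝ}
    (hF : MemLp F (ENNReal.ofReal p) P) :
    N P p (binc P A θ F) ≤ |θ| * (gk p * gk p' * N P p F) := by
  have := gk_nonneg p
  have := gk_nonneg p'
  have := N_nonneg (μ := P) p F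
  refine N_le_of_dual hp (binc_memLp h hA θ hp.lt.le hF) (by positivity) fun G hG => ?_
  refine (binc_pair h hA hp θ hF hG).trans (le_of_eq ?_)
  ring

end Pool.Agent.Helper99.MD
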