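import Mathlib
import Pool.Agent.Helper99.MD.Pot2

/-! Differentiability of potentials along the rotation. -/

set_option autoImplicit false
set_option linter.unusedSectionVars false

open MeasureTheory ProbabilityTheory Filter Topology
open scoped ENNReal NNReal

namespace Pool.Agent.Helper99.MD

variable {E : Type*} [NormedAddCommGroup E] [NormedSpace ℝ E] [CompleteSpace E]
  [SecondCountableTopology E] [MeasurableSpace E] [BorelSpace E] {P : Measure E}

theorem cos_sub_one_abs (h : ℝ) : |Real.cos h - 1| ≤ h ^ 2 / 2 := by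
  have h1 := Real.one_sub_sq_div_two_le_cos (x := h)
  have h2 := Real.cos_le_one h
  rw [abs_le]
  constructor <;> linarith

theorem sin_sub_abs {h : ℝ} (hh : |h| ≤ 1) : |Real.sin h - h| ≤ h ^ 2 := by
  have h1 := Real.sin_bound hh
  have h2 : h ^ 2 = |h| ^ 2 := (sq_abs h).symm
  have h3 : |h ^ 3 / 6| = |h| ^ 3 / 6 := by
    rw [abs_div, abs_pow]
    norm_num
  have h4 : Real.sin h - h = (Real.sin h - (h - h ^ 3 / 6)) - h ^ 3 / 6 := by ring
  have h0 := abs_nonneg h
  rw [h4]
  refine (abs_sub _ _).trans ?_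
  rw [h3, h2]
  have h5 : |h| ^ 3 ≤ |h| ^ 2 := pow_le_pow_of_le_one h0 hh (by norm_num)
  have h6 : |h| ^ 4 ≤ |h| ^ 2 := pow_le_pow_of_le_one h0 hh (by norm_num)
  have h7 : 0 ≤ |h| ^ 2 := by positivity
  nlinarith

theorem cos_taylor (u h : ℝ) : |Real.cos (u + h) - Real.cos u + h * Real.sin u| ≤ 3 * h ^ 2 := by
  rcases le_or_gt |h| 1 with hh | hh
  · have e : Real.cos (u + h) - Real.cos u + h * Real.sin u =
        Real.cos u * (Real.cos h - 1) - Real.sin u * (Real.sin h - h) := by
      rw [Real.cos_add]; ring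
    rw [e]
    refine (abs_sub _ _).trans ?_
    rw [abs_mul, abs_mul]
    have h1 := cos_sub_one_abs h
    have h2 := sin_sub_abs hh
    have h3 := Real.abs_cos_le_one u
    have h4 := Real.abs_sin_le_one u
    have h5 : |Real.cos u| * |Real.cos h - 1| ≤ 1 * (h ^ 2 / 2) :=
      mul_le_mul h3 h1 (abs_nonneg _) zero_le_one
    have h6 : |Real.sin u| * |Real.sin h - h| ≤ 1 * h ^ 2 :=
      mul_le_mul h4 h2 (abs_nonneg _) zero_le_one
    nlinarith [sq_nonneg h]
  · have h2 : h ^ 2 = |h| ^ 2 := (sq_abs h).symm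
    have h3 : |Real.cos (u + h) - Real.cos u + h * Real.sin u| ≤ 1 + 1 + |h| * 1 := by
      refine (abs_add_le _ _).trans (add_le_add ((abs_sub _ _).trans (add_le_add
        (Real.abs_cos_le_one _) (Real.abs_cos_le_one _))) ?_)
      rw [abs_mul]
      gcongr
      exact Real.abs_sin_le_one u
    rw [h2]
    nlinarith

theorem cos_taylor' (u h k θ : ℝ) :
    |Real.cos (u + h) - Real.cos u + θ * k * Real.sin u| ≤ 3 * h ^ 2 + |h - θ * k| := by
  have e : Real.cos (u + h) - Real.cos u + θ * k * Real.sin u =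
      (Real.cos (u + h) - Real.cos u + h * Real.sin u) - (h - θ * k) * Real.sin u := by ring
  rw [e]
  refine (abs_sub _ _).trans (add_le_add (cos_taylor u h) ?_)
  rw [abs_mul]
  calc |h - θ * k| * |Real.sin u| ≤ |h - θ * k| * 1 := by
        gcongr
        exact Real.abs_sin_le_one u
    _ = _ := mul_one _

theorem rot_sub (A : E →L[ℝ] E) (θ : ℝ) (L : StrongDual ℝ E) (x : E) :
    L (rot A θ x) - L x = (Real.cos θ - 1) * L x + Real.sin θ * L (A x) := by
  unfold rot
  simp only [map_add, map_smul, smul_eq_mul]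
  ring

theorem rot_sub_abs (A : E →L[ℝ] E) {θ : ℝ} (hθ : |θ| ≤ 1) (L : StrongDual ℝ E) (x : E) :
    |L (rot A θ x) - L x| ≤ |θ| * (|L x| + |L (A x)|) := by
  rw [rot_sub]
  refine (abs_add_le _ _).trans ?_
  rw [abs_mul, abs_mul]
  have h1 := cos_sub_one_abs θ
  have h2 : |Real.sin θ| ≤ |θ| := Real.abs_sin_le_abs
  have h3 : θ ^ 2 / 2 ≤ |θ| := by
    rw [← sq_abs θ]
    nlinarith [abs_nonneg θ]
  have h4 : |Real.cos θ - 1| ≤ |θ| := h1.trans h3
  have := mul_le_mul_of_nonneg_right h4 (abs_nonneg (L x))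
  have := mul_le_mul_of_nonneg_right h2 (abs_nonneg (L (A x)))
  linarith

theorem rot_sub_abs' (A : E →L[ℝ] E) {θ : ℝ} (hθ : |θ| ≤ 1) (L : StrongDual ℝ E) (x : E) :
    |(L (rot A θ x) - L x) - θ * L (A x)| ≤ θ ^ 2 * (|L x| + |L (A x)|) := by
  rw [rot_sub]
  have e : (Real.cos θ - 1) * L x + Real.sin θ * L (A x) - θ * L (A x) =
      (Real.cos θ - 1) * L x + (Real.sin θ - θ) * L (A x) := by ring
  rw [e]
  refine (abs_add_le _ _).trans ?_
  rw [abs_mul, abs_mul]
  have h1 := cos_sub_one_abs θ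
  have h2 := sin_sub_abs hθ
  have h4 : |Real.cos θ - 1| ≤ θ ^ 2 := h1.trans (by nlinarith [sq_nonneg θ])
  have := mul_le_mul_of_nonneg_right h4 (abs_nonneg (L x))
  have := mul_le_mul_of_nonneg_right h2 (abs_nonneg (L (A x)))
  linarith

theorem mix_rot (A : E →L[ℝ] E) (θ t : ℝ) (L : StrongDual ℝ E) (x y : E) :
    L (mix t (rot A θ x) y) = L (mix t x y) + Real.exp (-t) * (L (rot A θ x) - L x) := by
  unfold mix
  simp only [map_add, map_smul, smul_eq_mul]
  ring

/-- first order expansion, with all moments, of the potential along the rotation -/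
def Good (P : Measure E) (A : E →L[ℝ] E) (f : E → ℝ) : Prop :=
  ∃ m D : E → ℝ, (∀ p : ℝ≥0∞, p ≠ ∞ → MemLp m p P) ∧ (∀ p : ℝ≥0∞, p ≠ ∞ → MemLp D p P) ∧
    ∀ θ : ℝ, |θ| ≤ 1 → ∀ x, |binc P A θ f x - θ * m x| ≤ θ ^ 2 * D x

theorem cont_sin_mix (L : StrongDual ℝ E) (α : ℝ) :
    Continuous fun u : E × (ℝ × E) => Real.sin (L (mix u.2.1 u.1 u.2.2) + α) * Real.exp (-u.2.1) := by
  unfold mix
  fun_prop

theorem good_cos (h : IsCG P) (A : E →L[ℝ] E) (L : StrongDual ℝ E) (α : ℝ) :
    Good P A (fun x => Real.cos (L x + α)) := by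
  have := h.prob
  have h2 : (0:ℝ) < 2 := by norm_num
  have := gam_prob h2
  set κ := (gam 2).prod P with hκ
  have hpos : ∀ᵐ w ∂κ, 0 < w.1 := by
    have : Tendsto (Prod.fst : ℝ × E → ℝ) (ae κ) (ae (gam 2)) :=
      Measure.quasiMeasurePreserving_fst.tendsto_ae
    exact this.eventually (gam_pos h2)
  -- the derivative
  set S : E → ℝ := fun x => ∫ w : ℝ × E, Real.sin (L (mix w.1 x w.2) + α) * Real.exp (-w.1) ∂κ with hS
  have hSm : AEStronglyMeasurable S P := by
    have : StronglyMeasurable fun u : E × (ℝ × E) =>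
        Real.sin (L (mix u.2.1 u.1 u.2.2) + α) * Real.exp (-u.2.1) :=
      (cont_sin_mix L α).stronglyMeasurable
    exact this.integral_prod_right'.aestronglyMeasurable
  have hbd : ∀ x, ∀ᵐ w ∂κ, ‖Real.sin (L (mix w.1 x w.2) + α) * Real.exp (-w.1)‖ ≤ 1 := by
    intro x
    filter_upwards [hpos] with w hw
    rw [norm_mul, Real.norm_eq_abs, Real.norm_eq_abs]
    have h3 := Real.abs_sin_le_one (L (mix w.1 x w.2) + α)
    have h4 : |Real.exp (-w.1)| ≤ 1 := by
      rw [abs_of_pos (Real.exp_pos _)]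
      exact exp_neg_le_one' hw.le
    calc _ ≤ 1 * 1 := mul_le_mul h3 h4 (abs_nonneg _) zero_le_one
      _ = 1 := one_mul 1
  have hSb : ∀ x, |S x| ≤ 1 := by
    intro x
    have := norm_integral_le_of_norm_le_const (hbd x)
    simpa using this
  have hLA : ∀ p : ℝ≥0∞, p ≠ ∞ → MemLp (fun x => L (A x)) p P := fun p hp =>
    h.memLp_dual (L.comp A) p hp
  have hL : ∀ p : ℝ≥0∞, p ≠ ∞ → MemLp (fun x => L x) p P := fun p hp => h.memLp_dual L p hp
  set W : E → ℝ := fun x => |L x| + |L (A x)| with hW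
  have hWm : ∀ p : ℝ≥0∞, p ≠ ∞ → MemLp W p P := fun p hp => (hL p hp).abs.add (hLA p hp).abs
  have hW2 : ∀ p : ℝ≥0∞, p ≠ ∞ → MemLp (fun x => W x ^ 2) p P := by
    intro p hp
    have h5 : MemLp (fun x => W x * W x) p P := by
      have : ENNReal.HolderTriple (2 * p) (2 * p) p := by
        constructor
        rw [← two_mul, ENNReal.mul_inv (Or.inl (by norm_num)) (Or.inl (by norm_num)), ← mul_assoc,
          ENNReal.mul_inv_cancel (by norm_num) (by norm_num), one_mul]
      exact (hWm (2 * p) (ENNReal.mul_ne_top (by norm_num) hp)).mul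
        (hWm (2 * p) (ENNReal.mul_ne_top (by norm_num) hp))
    refine h5.congr_norm ?_ ?_
    · have := (hWm 1 (by norm_num)).1
      exact this.pow 2
    · exact Eventually.of_forall fun x => by simp [pow_two]
  refine ⟨fun x => -(L (A x) * S x), fun x => 3 * W x ^ 2 + W x, ?_, ?_, ?_⟩
  · intro p hp
    refine (hLA p hp).of_le ?_ ?_
    · exact ((hLA 1 (by norm_num)).1.mul hSm).neg
    · refine Eventually.of_forall fun x => ?_
      rw [norm_neg, norm_mul]
      have := hSb x
      calc ‖L (A x)‖ * ‖S x‖ ≤ ‖L (A x)‖ * 1 := by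
            gcongr
            exact this
        _ = _ := mul_one _
  · intro p hp
    exact ((hW2 p hp).const_mul 3).add (hWm p hp)
  · intro θ hθ x
    -- write the difference as an integral
    have i1 : Integrable (fun w : ℝ × E => Real.cos (L (mix w.1 (rot A θ x) w.2) + α)) κ :=
      Integrable.of_bound (C := 1) (by unfold mix; fun_prop : Continuous fun w : ℝ × E =>
        Real.cos (L (mix w.1 (rot A θ x) w.2) + α)).aestronglyMeasurable
        (Eventually.of_forall fun x => Real.abs_cos_le_one _)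
    have i2 : Integrable (fun w : ℝ × E => Real.cos (L (mix w.1 x w.2) + α)) κ :=
      Integrable.of_bound (C := 1) (by unfold mix; fun_prop : Continuous fun w : ℝ × E =>
        Real.cos (L (mix w.1 x w.2) + α)).aestronglyMeasurable
        (Eventually.of_forall fun x => Real.abs_cos_le_one _)
    have i3 : Integrable (fun w : ℝ × E => Real.sin (L (mix w.1 x w.2) + α) * Real.exp (-w.1)) κ :=
      Integrable.of_bound (C := 1) (by unfold mix; fun_prop : Continuous fun w : ℝ × E =>
        Real.sin (L (mix w.1 x w.2) + α) * Real.exp (-w.1)).aestronglyMeasurable (hbd x)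
    have e1 : binc P A θ (fun x => Real.cos (L x + α)) x - θ * -(L (A x) * S x) =
        ∫ w : ℝ × E, (Real.cos (L (mix w.1 (rot A θ x) w.2) + α) -
          Real.cos (L (mix w.1 x w.2) + α) +
          θ * L (A x) * (Real.sin (L (mix w.1 x w.2) + α) * Real.exp (-w.1))) ∂κ := by
      have i12 : Integrable (fun w : ℝ × E => Real.cos (L (mix w.1 (rot A θ x) w.2) + α) -
          Real.cos (L (mix w.1 x w.2) + α)) κ := i1.sub i2
      rw [integral_add i12 (i3.const_mul _), integral_sub i1 i2, integral_const_mul]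
      unfold binc bav avg bmap
      rw [hS, hκ]
      ring
    rw [e1]
    have hb : ∀ᵐ w ∂κ, ‖Real.cos (L (mix w.1 (rot A θ x) w.2) + α) -
          Real.cos (L (mix w.1 x w.2) + α) +
          θ * L (A x) * (Real.sin (L (mix w.1 x w.2) + α) * Real.exp (-w.1))‖ ≤
        θ ^ 2 * (3 * W x ^ 2 + W x) := by
      filter_upwards [hpos] with w hw
      rw [Real.norm_eq_abs, mix_rot]
      set d := L (rot A θ x) - L x with hd
      set ex := Real.exp (-w.1) with hex
      have hex0 : 0 < ex := Real.exp_pos _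
      have hex1 : ex ≤ 1 := exp_neg_le_one' hw.le
      have k1 := cos_taylor' (L (mix w.1 x w.2) + α) (ex * d) (ex * L (A x)) θ
      have e2 : L (mix w.1 x w.2) + ex * d + α = L (mix w.1 x w.2) + α + ex * d := by ring
      have e3 : θ * L (A x) * (Real.sin (L (mix w.1 x w.2) + α) * ex) =
          θ * (ex * L (A x)) * Real.sin (L (mix w.1 x w.2) + α) := by ring
      rw [e2, e3]
      refine k1.trans ?_
      have k2 := rot_sub_abs A hθ L x
      have k3 := rot_sub_abs' A hθ L x
      rw [← hd] at k2 k3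
      have k4 : (ex * d) ^ 2 ≤ θ ^ 2 * W x ^ 2 := by
        have : |ex * d| ≤ |θ| * W x := by
          rw [abs_mul, abs_of_pos hex0]
          calc ex * |d| ≤ 1 * |d| := by gcongr
            _ ≤ _ := by rw [one_mul]; exact k2
        have h0 := abs_nonneg (ex * d)
        calc (ex * d) ^ 2 = |ex * d| ^ 2 := (sq_abs _).symm
          _ ≤ (|θ| * W x) ^ 2 := by gcongr
          _ = θ ^ 2 * W x ^ 2 := by rw [mul_pow, sq_abs]
      have k5 : |ex * d - θ * (ex * L (A x))| ≤ θ ^ 2 * W x := by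
        have : ex * d - θ * (ex * L (A x)) = ex * (d - θ * L (A x)) := by ring
        rw [this, abs_mul, abs_of_pos hex0]
        calc ex * |d - θ * L (A x)| ≤ 1 * |d - θ * L (A x)| := by gcongr
          _ ≤ _ := by rw [one_mul]; exact k3
      nlinarith
    have := norm_integral_le_of_norm_le_const hb
    simpa using this

section
variable {ι : Type*} [Fintype ι]

theorem binc_tp (h : IsCG P) (A : E →L[ℝ] E) (c α : ι → ℝ) (L : ι → StrongDual ℝ E) (θ : ℝ)
    (x : E) : binc P A θ (tp c α L) x =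
      ∑ j, c j * binc P A θ (fun x => Real.cos (L j x + α j)) x := by
  have := h.prob
  have := gam_prob (by norm_num : (0:ℝ) < 2)
  have e : ∀ z, bav P 2 (tp c α L) z = ∑ j, c j * bav P 2 (fun x => Real.cos (L j x + α j)) z := by
    intro z
    unfold bav avg tp
    rw [integral_finsetSum]
    · refine Finset.sum_congr rfl fun j _ => ?_
      rw [integral_const_mul]
    · intro j _
      refine Integrable.const_mul ?_ _
      exact Integrable.of_bound (C := 1) (by unfold bmap mix; fun_prop : Continuous fun w : ℝ × E =>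
        Real.cos (L j (bmap (z, w)) + α j)).aestronglyMeasurable
        (Eventually.of_forall fun x => Real.abs_cos_le_one _)
  unfold binc
  rw [e, e, ← Finset.sum_sub_distrib]
  refine Finset.sum_congr rfl fun j _ => ?_
  ring

theorem good_tp (h : IsCG P) (A : E →L[ℝ] E) (c α : ι → ℝ) (L : ι → StrongDual ℝ E) :
    Good P A (tp c α L) := by
  choose m D hm hD hmD using fun j => good_cos h A (L j) (α j)
  refine ⟨fun x => ∑ j, c j * m j x, fun x => ∑ j, |c j| * D j x, ?_, ?_, ?_⟩
  · intro p hp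
    exact memLp_finsetSum _ fun j _ => (hm j p hp).const_mul (c j)
  · intro p hp
    exact memLp_finsetSum _ fun j _ => (hD j p hp).const_mul |c j|
  · intro θ hθ x
    rw [binc_tp h, Finset.mul_sum, ← Finset.sum_sub_distrib, Finset.mul_sum]
    refine (Finset.abs_sum_le_sum_abs _ _).trans (Finset.sum_le_sum fun j _ => ?_)
    have e : c j * binc P A θ (fun x => Real.cos (L j x + α j)) x - θ * (c j * m j x) =
        c j * (binc P A θ (fun x => Real.cos (L j x + α j)) x - θ * m j x) := by ring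
    rw [e, abs_mul]
    calc _ ≤ |c j| * (θ ^ 2 * D j x) := by
          gcongr
          exact hmD j θ hθ x
      _ = _ := by ring

end

/-! ### difference quotients -/

/-- difference quotient of the potential -/
noncomputable def bq (P : Measure E) (A : E →L[ℝ] E) (θ : ℝ) (F : E → ℝ) (x : E) : ℝ :=
  binc P A θ F x / θ

theorem bq_memLp (h : IsCG P) {A : E →L[ℝ] E} (hA : Rot P A) (θ : ℝ)
    {F : E → ℝ} {p : ℝ} (hp : 1 ≤ p) (hF : MemLp F (ENNReal.ofReal p) P) :
    MemLp (bq P A θ F) (ENNReal.ofReal p) P := by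
  have := (binc_memLp h hA θ hp hF).const_mul θ⁻¹
  refine this.congr_norm ?_ (Eventually.of_forall fun x => ?_)
  · unfold bq
    simp only [div_eq_inv_mul]
    exact this.1
  · unfold bq
    rw [div_eq_inv_mul]

theorem N_const_mul (p : ℝ) (c : ℝ) (F : E → ℝ) :
    N P p (fun x => c * F x) = |c| * N P p F := by
  unfold N
  have : eLpNorm (fun x => c * F x) (ENNReal.ofReal p) P =
      ‖c‖ₑ * eLpNorm F (ENNReal.ofReal p) P := eLpNorm_const_smul c F _ _
  rw [this, ENNReal.toReal_mul]
  simp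

theorem N_bq_le (h : IsCG P) {A : E →L[ℝ] E} (hA : Rot P A) {p p' : ℝ}
    (hp : p.HolderConjugate p') {θ : ℝ} (hθ : θ ≠ 0) {F : E → ℝ}
    (hF : MemLp F (ENNReal.ofReal p) P) :
    N P p (bq P A θ F) ≤ gk p * gk p' * N P p F := by
  have e : bq P A θ F = fun x => θ⁻¹ * binc P A θ F x := by
    funext x
    unfold bq
    rw [div_eq_inv_mul]
  rw [e, N_const_mul, abs_inv]
  have h1 := N_binc_le h hA hp θ hF
  have h2 : 0 < |θ| := abs_pos.2 hθ
  rw [inv_mul_le_iff₀ h2]
  exact h1

theorem bq_sub (h : IsCG P) {A : E →L[ℝ] E} (hA : Rot P A) (θ : ℝ)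
    {F G : E → ℝ} (hF : Integrable F P) (hG : Integrable G P) :
    bq P A θ (fun x => F x - G x) =ᵐ[P] fun x => bq P A θ F x - bq P A θ G x := by
  have := h.prob
  have := gam_prob (by norm_num : (0:ℝ) < 2)
  have h1 := avg_sub (bmap_mp h (by norm_num : (0:ℝ) < 2)) hF hG
  have h2 : (fun x => bav P 2 (fun x => F x - G x) (rot A θ x)) =ᵐ[P]
      fun x => bav P 2 F (rot A θ x) - bav P 2 G (rot A θ x) :=
    (hA.mp θ).quasiMeasurePreserving.ae_eq_comp h1
  filter_upwards [h1, h2] with x e1 e2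
  have e1' : bav P 2 (fun x => F x - G x) x = bav P 2 F x - bav P 2 G x := e1
  unfold bq binc
  rw [e1', e2]
  ring

theorem bq_cauchy (h : IsCG P) {A : E →L[ℝ] E} (hA : Rot P A) {p p' : ℝ}
    (hp : p.HolderConjugate p') {F : E → ℝ} (hF : MemLp F (ENNReal.ofReal p) P) {ε : ℝ}
    (hε : 0 < ε) : ∃ δ > 0, ∀ θ θ' : ℝ, θ ≠ 0 → θ' ≠ 0 → |θ| < δ → |θ'| < δ →
      N P p (fun x => bq P A θ F x - bq P A θ' F x) ≤ ε := by
  have := h.prob
  have hp1 : 1 ≤ p := hp.lt.le
  have hp1' : (1:ℝ≥0∞) ≤ ENNReal.ofReal p := by rwa [ENNReal.one_le_ofReal]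
  set C := gk p * gk p' with hC
  have hC0 : 0 ≤ C := by
    have := gk_nonneg p
    have := gk_nonneg p'
    positivity
  obtain ⟨f, hf, hfd⟩ := dense_Lp h hp1 hF (ε := ε / (4 * (C + 1))) (by positivity)
  have hfL : MemLp f (ENNReal.ofReal p) P := hf.memLp h _
  have n1 : N P p (fun x => F x - f x) ≤ ε / (4 * (C + 1)) :=
    N_le_of_ofReal (by positivity) hfd
  have n2 : C * N P p (fun x => F x - f x) ≤ ε / 4 := by
    calc C * N P p (fun x => F x - f x) ≤ (C + 1) * (ε / (4 * (C + 1))) := by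
          have := N_nonneg (μ := P) p (fun x => F x - f x)
          gcongr
          linarith
      _ = ε / 4 := by field_simp
  obtain ⟨m, D, hm, hD, hmD⟩ : Good P A f := by
    obtain ⟨ι, _, c, α, L, rfl⟩ := hf
    exact good_tp h A c α L
  have hDp := hD (ENNReal.ofReal p) ENNReal.ofReal_ne_top
  have hmp := hm (ENNReal.ofReal p) ENNReal.ofReal_ne_top
  set d := N P p D with hd
  have hd0 : 0 ≤ d := N_nonneg _ _
  refine ⟨min 1 (ε / (4 * (d + 1))), lt_min one_pos (by positivity), ?_⟩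
  intro θ θ' hθ hθ' hb hb'
  have q1 : ∀ θ : ℝ, θ ≠ 0 → |θ| < min 1 (ε / (4 * (d + 1))) →
      N P p (fun x => bq P A θ F x - m x) ≤ ε / 2 := by
    intro θ hθ hb
    have b1 : |θ| ≤ 1 := (hb.trans_le (min_le_left _ _)).le
    have b2 : |θ| ≤ ε / (4 * (d + 1)) := (hb.trans_le (min_le_right _ _)).le
    have hθ0 : 0 < |θ| := abs_pos.2 hθ
    have r1 : N P p (fun x => bq P A θ F x - bq P A θ f x) ≤ ε / 4 := by
      have e := bq_sub h hA θ (hF.integrable hp1') (hfL.integrable hp1')
      rw [← N_congr e]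
      exact (N_bq_le h hA hp hθ (hF.sub hfL)).trans n2
    have r2 : N P p (fun x => bq P A θ f x - m x) ≤ ε / 4 := by
      have e1 : N P p (fun x => bq P A θ f x - m x) ≤ N P p (fun x => |θ| * D x) := by
        refine N_mono_of_le (hDp.const_mul _) (eLpNorm_mono fun x => ?_)
        have := hmD θ b1 x
        unfold bq
        rw [Real.norm_eq_abs, Real.norm_eq_abs]
        have e2 : binc P A θ f x / θ - m x = (binc P A θ f x - θ * m x) / θ := by
          field_simp
        rw [e2, abs_div, div_le_iff₀ hθ0]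
        refine this.trans ?_
        have : θ ^ 2 = |θ| * |θ| := by rw [← sq_abs]; ring
        rw [this, abs_mul, abs_abs]
        have := le_abs_self (D x)
        nlinarith [mul_nonneg hθ0.le hθ0.le]
      refine e1.trans ?_
      rw [N_const_mul, abs_abs]
      calc |θ| * N P p D ≤ (ε / (4 * (d + 1))) * (d + 1) := by
            gcongr
            linarith
        _ = ε / 4 := by field_simp
    have e3 : (fun x => bq P A θ F x - m x) =
        fun x => (bq P A θ F x - bq P A θ f x) + (bq P A θ f x - m x) := by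
      funext x; ring
    rw [e3]
    refine (N_add_le hp1 ((bq_memLp h hA θ hp1 hF).sub (bq_memLp h hA θ hp1 hfL))
      ((bq_memLp h hA θ hp1 hfL).sub hmp)).trans ?_
    have r1' : N P p (bq P A θ F - bq P A θ f) ≤ ε / 4 := r1
    have r2' : N P p (bq P A θ f - m) ≤ ε / 4 := r2
    linarith
  have e4 : (fun x => bq P A θ F x - bq P A θ' F x) =
      fun x => (bq P A θ F x - m x) - (bq P A θ' F x - m x) := by
    funext x; ring
  rw [e4]
  refine (N_sub_le hp1 ((bq_memLp h hA θ hp1 hF).sub hmp)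
    ((bq_memLp h hA θ' hp1 hF).sub hmp)).trans ?_
  have r1 : N P p (bq P A θ F - m) ≤ ε / 2 := q1 θ hθ hb
  have r2 : N P p (bq P A θ' F - m) ≤ ε / 2 := q1 θ' hθ' hb'
  linarith

/-- existence of the derivative of the potential along the rotation, in `L^p` -/
theorem exists_lim (h : IsCG P) {A : E →L[ℝ] E} (hA : Rot P A) {p p' : ℝ}
    (hp : p.HolderConjugate p') {F : E → ℝ} (hF : MemLp F (ENNReal.ofReal p) P) :
    ∃ m : E → ℝ, MemLp m (ENNReal.ofReal p) P ∧ N P p m ≤ gk p * gk p' * N P p F ∧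
      Tendsto (fun θ => N P p (fun x => bq P A θ F x - m x)) (𝓝[≠] 0) (𝓝 0) := by
  have := h.prob
  have hp1 : 1 ≤ p := hp.lt.le
  have hp1' : (1:ℝ≥0∞) ≤ ENNReal.ofReal p := by rwa [ENNReal.one_le_ofReal]
  have : Fact ((1:ℝ≥0∞) ≤ ENNReal.ofReal p) := ⟨hp1'⟩
  set τ : ℕ → ℝ := fun n => 1 / ((n : ℝ) + 1) with hτ
  have hτ0 : ∀ n, τ n ≠ 0 := fun n => by positivity
  have hτl : Tendsto τ atTop (𝓝 0) := tendsto_one_div_add_atTop_nhds_zero_nat
  have hmem : ∀ n, MemLp (bq P A (τ n) F) (ENNReal.ofReal p) P := fun n => bq_memLp h hA _ hp1 hF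
  have hc : CauchySeq fun n => (hmem n).toLp := by
    rw [Metric.cauchySeq_iff']
    intro ε hε
    obtain ⟨δ, hδ, hb⟩ := bq_cauchy h hA hp hF (half_pos hε)
    have h1 : ∀ᶠ n in atTop, |τ n| < δ := by
      have := (Metric.tendsto_nhds.1 hτl) δ hδ
      simpa [Real.dist_eq] using this
    obtain ⟨M, hM⟩ := h1.exists_forall_of_atTop
    refine ⟨M, fun n hn => ?_⟩
    rw [dist_eq_norm, ← MemLp.toLp_sub, Lp.norm_toLp]
    have h2 := hb (τ n) (τ M) (hτ0 n) (hτ0 M) (hM n hn) (hM M le_rfl)
    have h3 : (eLpNorm (bq P A (τ n) F - bq P A (τ M) F) (ENNReal.ofReal p) P).toReal ≤ ε / 2 := h2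
    linarith
  obtain ⟨u, hu⟩ := cauchySeq_tendsto_of_complete hc
  have hum : MemLp u (ENNReal.ofReal p) P := Lp.memLp u
  have hlim : Tendsto (fun n => N P p (fun x => bq P A (τ n) F x - u x)) atTop (𝓝 0) := by
    have h4 := tendsto_iff_norm_sub_tendsto_zero.1 hu
    refine h4.congr fun n => ?_
    rw [Lp.norm_def]
    unfold N
    congr 1
    refine eLpNorm_congr_ae ?_
    filter_upwards [Lp.coeFn_sub (hmem n).toLp u, (hmem n).coeFn_toLp] with x e1 e2
    rw [e1, Pi.sub_apply, e2]
  refine ⟨u, hum, ?_, ?_⟩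
  · have h5 : ∀ n, N P p u ≤ gk p * gk p' * N P p F + N P p (fun x => bq P A (τ n) F x - u x) := by
      intro n
      have e : (u : E → ℝ) = fun x => bq P A (τ n) F x - (bq P A (τ n) F x - u x) := by
        funext x; ring
      have h6 : N P p u ≤ N P p (bq P A (τ n) F) + N P p (bq P A (τ n) F - u) := by
        nth_rewrite 1 [e]
        exact N_sub_le hp1 (hmem n) ((hmem n).sub hum)
      exact h6.trans (add_le_add (N_bq_le h hA hp (hτ0 n) hF) le_rfl)
    have h7 := hlim.const_add (gk p * gk p' * N P p F)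
    rw [add_zero] at h7
    exact ge_of_tendsto' h7 h5
  · rw [Metric.tendsto_nhdsWithin_nhds]
    intro ε hε
    obtain ⟨δ, hδ, hb⟩ := bq_cauchy h hA hp hF (half_pos hε)
    refine ⟨δ, hδ, fun θ hθ hθδ => ?_⟩
    have hθ0 : θ ≠ 0 := hθ
    have hθδ' : |θ| < δ := by simpa [Real.dist_eq] using hθδ
    have h8 : N P p (fun x => bq P A θ F x - u x) ≤ ε / 2 := by
      have h9 : ∀ᶠ n in atTop, N P p (fun x => bq P A θ F x - u x) ≤
          ε / 2 + N P p (fun x => bq P A (τ n) F x - u x) := by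
        have h1 : ∀ᶠ n in atTop, |τ n| < δ := by
          have := (Metric.tendsto_nhds.1 hτl) δ hδ
          simpa [Real.dist_eq] using this
        filter_upwards [h1] with n hn
        have e : (fun x => bq P A θ F x - u x) =
            fun x => (bq P A θ F x - bq P A (τ n) F x) + (bq P A (τ n) F x - u x) := by
          funext x; ring
        rw [e]
        refine (N_add_le hp1 ((bq_memLp h hA θ hp1 hF).sub (hmem n)) ((hmem n).sub hum)).trans ?_
        exact add_le_add (hb θ (τ n) hθ0 (hτ0 n) hθδ' hn) le_rfl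
      have h10 := hlim.const_add (ε / 2)
      rw [add_zero] at h10
      exact ge_of_tendsto h10 h9
    rw [Real.dist_eq, sub_zero, abs_of_nonneg (N_nonneg _ _)]
    linarith

end Pool.Agent.Helper99.MD
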