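import Mathlib
import Pool.Agent.Helper99.MD.Diff

/-! The derivative along the rotation of a smooth functional. -/

set_option autoImplicit false
set_option linter.unusedSectionVars false

open MeasureTheory ProbabilityTheory Filter Topology
open scoped ENNReal NNReal

namespace Pool.Agent.Helper99.MD

variable {E : Type*} [NormedAddCommGroup E] [NormedSpace ℝ E] [CompleteSpace E]
  [SecondCountableTopology E] [MeasurableSpace E] [BorelSpace E] {P : Measure E}

/-! ### commutation of potentials and rotations -/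

theorem rot_rot {A : E →L[ℝ] E} (hA : ∀ x, A (A x) = -x) (θ η : ℝ) (x : E) :
    rot A θ (rot A η x) = rot A (θ + η) x := by
  unfold rot
  simp only [map_add, map_smul, smul_add, smul_smul, hA, smul_neg]
  rw [Real.cos_add, Real.sin_add, sub_smul, add_smul]
  module

theorem rot_zero (A : E →L[ℝ] E) (x : E) : rot A 0 x = x := by
  simp [rot]

/-- rotations as homeomorphisms -/
noncomputable def rotH {A : E →L[ℝ] E} (hA : ∀ x, A (A x) = -x) (θ : ℝ) : E ≃ₜ E where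
  toFun := rot A θ
  invFun := rot A (-θ)
  left_inv x := by rw [rot_rot hA]; simp [rot_zero]
  right_inv x := by rw [rot_rot hA]; simp [rot_zero]
  continuous_toFun := by
    have : Continuous (rot A θ) := by unfold rot; fun_prop
    exact this
  continuous_invFun := by
    have : Continuous (rot A (-θ)) := by unfold rot; fun_prop
    exact this

theorem rot_emb {A : E →L[ℝ] E} (hA : ∀ x, A (A x) = -x) (θ : ℝ) :
    MeasurableEmbedding (rot A θ) := (rotH hA θ).measurableEmbedding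

theorem rot_mix (A : E →L[ℝ] E) (θ t : ℝ) (x y : E) :
    mix t (rot A θ x) (rot A θ y) = rot A θ (mix t x y) := by
  unfold mix rot
  simp only [map_add, map_smul]
  module

/-- potentials commute with rotations -/
theorem bav_rot (h : IsCG P) {A : E →L[ℝ] E} (hA : Rot P A) {a : ℝ} (ha : 0 < a) (θ : ℝ)
    (F : E → ℝ) (x : E) : bav P a (fun z => F (rot A θ z)) x = bav P a F (rot A θ x) := by
  have := h.prob
  have := gam_prob ha
  unfold bav avg bmap
  have h1 : MeasurePreserving (Prod.map id (rot A θ) : ℝ × E → ℝ × E) ((gam a).prod P)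
      ((gam a).prod P) := (MeasurePreserving.id (gam a)).prod (hA.mp θ)
  have h2 : MeasurableEmbedding (Prod.map id (rot A θ) : ℝ × E → ℝ × E) :=
    MeasurableEmbedding.id.prodMap (rot_emb hA.sq θ)
  rw [← h1.integral_comp h2 (fun w : ℝ × E => F (mix w.1 (rot A θ x) w.2))]
  congr 1
  funext w
  simp only [Prod.map_fst, Prod.map_snd, id]
  rw [rot_mix]

/-! ### difference quotients -/

/-- difference quotient along the rotation -/
noncomputable def dq (A : E →L[ℝ] E) (θ : ℝ) (F : E → ℝ) (x : E) : ℝ :=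
  (F (rot A θ x) - F x) / θ

/-- `m` is the derivative of `F` along the rotation, in all `L^p` -/
def IsLim (P : Measure E) (A : E →L[ℝ] E) (F m : E → ℝ) : Prop :=
  ∀ p : ℝ, 1 < p → MemLp m (ENNReal.ofReal p) P ∧
    Tendsto (fun θ => N P p (fun x => dq A θ F x - m x)) (𝓝[≠] 0) (𝓝 0)

theorem dq_congr {A : E →L[ℝ] E} (hA : Rot P A) (θ : ℝ) {F G : E → ℝ} (h : F =ᵐ[P] G) :
    dq A θ F =ᵐ[P] dq A θ G := by
  have h1 : (fun x => F (rot A θ x)) =ᵐ[P] fun x => G (rot A θ x) :=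
    (hA.mp θ).quasiMeasurePreserving.ae_eq_comp h
  filter_upwards [h, h1] with x e1 e2
  unfold dq
  rw [e1, e2]

theorem dq_memLp {A : E →L[ℝ] E} (hA : Rot P A) (θ : ℝ)
    {F : E → ℝ} {p : ℝ≥0∞} (hF : MemLp F p P) : MemLp (dq A θ F) p P := by
  have h1 := ((memLp_rot hA θ hF).sub hF).const_mul θ⁻¹
  refine (memLp_congr_ae (Eventually.of_forall fun x => ?_)).1 h1
  unfold dq
  simp only [Pi.sub_apply]
  rw [div_eq_inv_mul]

theorem N_zero_iff {p : ℝ} (hp : 0 < p) {F : E → ℝ} (hF : MemLp F (ENNReal.ofReal p) P)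
    (h : N P p F = 0) : F =ᵐ[P] 0 := by
  unfold N at h
  rw [ENNReal.toReal_eq_zero_iff] at h
  rcases h with h | h
  · rwa [eLpNorm_eq_zero_iff hF.1 (by simpa using hp)] at h
  · exact absurd h hF.2.ne

theorem N_le_N [IsProbabilityMeasure P] {p q : ℝ} (hpq : p ≤ q) {F : E → ℝ}
    (hF : MemLp F (ENNReal.ofReal q) P) : N P p F ≤ N P q F := by
  unfold N
  exact ENNReal.toReal_mono hF.2.ne (eLpNorm_le_eLpNorm_of_exponent_le
    (ENNReal.ofReal_le_ofReal hpq) hF.1)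

theorem MemLp.lower [IsProbabilityMeasure P] {p q : ℝ} (hpq : p ≤ q) {F : E → ℝ}
    (hF : MemLp F (ENNReal.ofReal q) P) : MemLp F (ENNReal.ofReal p) P :=
  hF.mono_exponent (ENNReal.ofReal_le_ofReal hpq)

/-- uniqueness of limits, with different exponents -/
theorem lim_unique [IsProbabilityMeasure P] {p q : ℝ} (hp : 1 ≤ p) (hq : 1 ≤ q)
    {u : ℝ → E → ℝ} {m k : E → ℝ}
    (hup : ∀ θ, MemLp (u θ) (ENNReal.ofReal p) P) (huq : ∀ θ, MemLp (u θ) (ENNReal.ofReal q) P)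
    (hm : MemLp m (ENNReal.ofReal p) P) (hk : MemLp k (ENNReal.ofReal q) P)
    (h1 : Tendsto (fun θ => N P p (fun x => u θ x - m x)) (𝓝[≠] 0) (𝓝 0))
    (h2 : Tendsto (fun θ => N P q (fun x => u θ x - k x)) (𝓝[≠] 0) (𝓝 0)) : m =ᵐ[P] k := by
  have hm1 : MemLp m (ENNReal.ofReal 1) P := MemLp.lower hp hm
  have hk1 : MemLp k (ENNReal.ofReal 1) P := MemLp.lower hq hk
  have key : N P 1 (fun x => m x - k x) ≤ 0 := by
    have h3 := h1.add h2
    rw [add_zero] at h3
    refine ge_of_tendsto' h3 fun θ => ?_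
    have hu1 : MemLp (u θ) (ENNReal.ofReal 1) P := MemLp.lower hp (hup θ)
    have e : (fun x => m x - k x) = fun x => (u θ x - k x) - (u θ x - m x) := by
      funext x; ring
    have a1 : N P 1 (u θ - m) ≤ N P p (fun x => u θ x - m x) := N_le_N hp ((hup θ).sub hm)
    have a2 : N P 1 (u θ - k) ≤ N P q (fun x => u θ x - k x) := N_le_N hq ((huq θ).sub hk)
    rw [e]
    refine (N_sub_le le_rfl (hu1.sub hk1) (hu1.sub hm1)).trans ?_
    linarith
  have h4 := N_zero_iff one_pos (hm1.sub hk1) (le_antisymm key (N_nonneg _ _))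
  filter_upwards [h4] with x hx
  have : m x - k x = 0 := hx
  linarith

theorem IsLim.unique (h : IsCG P) {A : E →L[ℝ] E} (hA : Rot P A) {F m k : E → ℝ}
    (hF : MemLp F (ENNReal.ofReal 2) P) (hm : IsLim P A F m) (hk : IsLim P A F k) :
    m =ᵐ[P] k := by
  have := h.prob
  exact lim_unique (p := 2) (q := 2) (by norm_num) (by norm_num) (fun θ => dq_memLp hA θ hF)
    (fun θ => dq_memLp hA θ hF) (hm 2 (by norm_num)).1 (hk 2 (by norm_num)).1
    (hm 2 (by norm_num)).2 (hk 2 (by norm_num)).2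

theorem IsLim.congr_left {A : E →L[ℝ] E} (hA : Rot P A) {F G m : E → ℝ}
    (hFG : F =ᵐ[P] G) (hm : IsLim P A F m) : IsLim P A G m := by
  intro p hp
  refine ⟨(hm p hp).1, (hm p hp).2.congr fun θ => N_congr ?_⟩
  filter_upwards [dq_congr hA θ hFG] with x hx
  rw [hx]

theorem IsLim.congr_right {A : E →L[ℝ] E} {F m k : E → ℝ}
    (hmk : m =ᵐ[P] k) (hm : IsLim P A F m) : IsLim P A F k := by
  intro p hp
  refine ⟨(memLp_congr_ae hmk).1 (hm p hp).1, (hm p hp).2.congr fun θ => N_congr ?_⟩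
  filter_upwards [hmk] with x hx
  rw [hx]

theorem IsLim.add {A : E →L[ℝ] E} (hA : Rot P A) {F G m k : E → ℝ}
    (hF : ∀ p : ℝ, 1 < p → MemLp F (ENNReal.ofReal p) P)
    (hG : ∀ p : ℝ, 1 < p → MemLp G (ENNReal.ofReal p) P)
    (hm : IsLim P A F m) (hk : IsLim P A G k) :
    IsLim P A (fun x => F x + G x) (fun x => m x + k x) := by
  intro p hp
  refine ⟨(hm p hp).1.add (hk p hp).1, ?_⟩
  have h1 := (hm p hp).2.add (hk p hp).2
  rw [add_zero] at h1
  refine tendsto_of_tendsto_of_tendsto_of_le_of_le tendsto_const_nhds h1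
    (fun θ => N_nonneg _ _) fun θ => ?_
  have e : (fun x => dq A θ (fun x => F x + G x) x - (m x + k x)) =
      fun x => (dq A θ F x - m x) + (dq A θ G x - k x) := by
    funext x
    unfold dq
    ring
  simp only
  rw [e]
  exact N_add_le hp.le ((dq_memLp hA θ (hF p hp)).sub (hm p hp).1)
    ((dq_memLp hA θ (hG p hp)).sub (hk p hp).1)

theorem IsLim.const_mul {A : E →L[ℝ] E} {F m : E → ℝ} (c : ℝ)
    (hm : IsLim P A F m) : IsLim P A (fun x => c * F x) (fun x => c * m x) := by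
  intro p hp
  refine ⟨(hm p hp).1.const_mul c, ?_⟩
  have h1 := (hm p hp).2.const_mul |c|
  rw [mul_zero] at h1
  refine h1.congr fun θ => ?_
  rw [← N_const_mul]
  congr 1
  funext x
  unfold dq
  ring

theorem N_mul_le {p : ℝ} (_hp : 1 ≤ p) {F G : E → ℝ} (hF : MemLp F (ENNReal.ofReal (2 * p)) P)
    (hG : MemLp G (ENNReal.ofReal (2 * p)) P) :
    MemLp (fun x => F x * G x) (ENNReal.ofReal p) P ∧
    N P p (fun x => F x * G x) ≤ N P (2 * p) F * N P (2 * p) G := by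
  have hT : ENNReal.HolderTriple (ENNReal.ofReal (2 * p)) (ENNReal.ofReal (2 * p))
      (ENNReal.ofReal p) := by
    constructor
    rw [ENNReal.ofReal_mul (by norm_num), ENNReal.ofReal_ofNat, ← two_mul,
      ENNReal.mul_inv (Or.inl (by norm_num)) (Or.inl (by norm_num)), ← mul_assoc,
      ENNReal.mul_inv_cancel (by norm_num) (by norm_num), one_mul]
  refine ⟨?_, ?_⟩
  · have : MemLp (F * G) (ENNReal.ofReal p) P := hG.mul' hF
    exact this
  · unfold N
    rw [← ENNReal.toReal_mul]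
    refine ENNReal.toReal_mono (ENNReal.mul_ne_top hF.2.ne hG.2.ne) ?_
    have h1 := eLpNorm_smul_le_mul_eLpNorm (p := ENNReal.ofReal (2 * p))
      (q := ENNReal.ofReal (2 * p)) (r := ENNReal.ofReal p) (μ := P) (f := G) (φ := F)
      hG.1 hF.1 (hpqr := hT)
    exact h1

/-- the Leibniz rule -/
theorem IsLim.mul (h : IsCG P) {A : E →L[ℝ] E} (hA : Rot P A) {F G m k : E → ℝ}
    (hF : ∀ p : ℝ, 1 < p → MemLp F (ENNReal.ofReal p) P)
    (hG : ∀ p : ℝ, 1 < p → MemLp G (ENNReal.ofReal p) P)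
    (hm : IsLim P A F m) (hk : IsLim P A G k) :
    IsLim P A (fun x => F x * G x) (fun x => F x * k x + G x * m x) := by
  have := h.prob
  intro p hp
  have hp1 : 1 ≤ p := hp.le
  have hp2 : 1 < 2 * p := by linarith
  have hFp := hF (2 * p) hp2
  have hGp := hG (2 * p) hp2
  obtain ⟨hmp, hml⟩ := hm (2 * p) hp2
  obtain ⟨hkp, hkl⟩ := hk (2 * p) hp2
  refine ⟨(N_mul_le hp1 hFp hkp).1.add (N_mul_le hp1 hGp hmp).1, ?_⟩
  set a : ℝ → ℝ := fun θ => N P (2 * p) (fun x => dq A θ F x - m x) with ha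
  set b : ℝ → ℝ := fun θ => N P (2 * p) (fun x => dq A θ G x - k x) with hb
  set nF := N P (2 * p) F
  set nG := N P (2 * p) G
  set nm := N P (2 * p) m
  set nk := N P (2 * p) k
  -- bound
  have bound : ∀ θ : ℝ, θ ≠ 0 → N P p (fun x => dq A θ (fun x => F x * G x) x -
      (F x * k x + G x * m x)) ≤ nF * b θ + (a θ * nG + (a θ + nm) * (|θ| * (b θ + nk))) := by
    intro θ hθ
    have hFd := dq_memLp hA θ hFp
    have hGd := dq_memLp hA θ hGp
    have hGr := memLp_rot hA θ hGp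
    have e : (fun x => dq A θ (fun x => F x * G x) x - (F x * k x + G x * m x)) =
        fun x => F x * (dq A θ G x - k x) + ((dq A θ F x - m x) * G x +
          dq A θ F x * (θ * dq A θ G x)) := by
      funext x
      unfold dq
      field_simp
      ring
    have m1 : MemLp (fun x => dq A θ F x - m x) (ENNReal.ofReal (2 * p)) P := hFd.sub hmp
    have m2 : MemLp (fun x => dq A θ G x - k x) (ENNReal.ofReal (2 * p)) P := hGd.sub hkp
    have m3 : MemLp (fun x => θ * dq A θ G x) (ENNReal.ofReal (2 * p)) P := hGd.const_mul θ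
    have n1 := N_mul_le hp1 hFp m2
    have n2 := N_mul_le hp1 m1 hGp
    have n3 := N_mul_le hp1 hFd m3
    have n4 : N P (2 * p) (dq A θ F) ≤ a θ + nm := by
      have e1 : dq A θ F = fun x => (dq A θ F x - m x) + m x := by funext x; ring
      nth_rewrite 1 [e1]
      exact N_add_le (by linarith) m1 hmp
    have n5 : N P (2 * p) (dq A θ G) ≤ b θ + nk := by
      have e1 : dq A θ G = fun x => (dq A θ G x - k x) + k x := by funext x; ring
      nth_rewrite 1 [e1]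
      exact N_add_le (by linarith) m2 hkp
    rw [e]
    refine (N_add_le hp1 n1.1 (n2.1.add n3.1)).trans ?_
    refine add_le_add n1.2 ?_
    refine (N_add_le hp1 n2.1 n3.1).trans ?_
    refine add_le_add n2.2 (n3.2.trans ?_)
    rw [N_const_mul]
    refine mul_le_mul n4 (mul_le_mul_of_nonneg_left n5 (abs_nonneg θ)) ?_ ?_
    · exact mul_nonneg (abs_nonneg θ) (N_nonneg _ _)
    · exact (N_nonneg _ _).trans n4
  have hθ : Tendsto (fun θ : ℝ => |θ|) (𝓝[≠] 0) (𝓝 0) := by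
    have : Tendsto (fun θ : ℝ => |θ|) (𝓝 0) (𝓝 |0|) := continuous_abs.tendsto 0
    rw [abs_zero] at this
    exact this.mono_left nhdsWithin_le_nhds
  have hal : Tendsto a (𝓝[≠] 0) (𝓝 0) := hml
  have hbl : Tendsto b (𝓝[≠] 0) (𝓝 0) := hkl
  have l1 : Tendsto (fun θ => nF * b θ) (𝓝[≠] 0) (𝓝 (nF * 0)) := hbl.const_mul nF
  have l2 : Tendsto (fun θ => a θ * nG) (𝓝[≠] 0) (𝓝 (0 * nG)) := hal.mul_const nG
  have l3 : Tendsto (fun θ => a θ + nm) (𝓝[≠] 0) (𝓝 (0 + nm)) := hal.add_const nm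
  have l4 : Tendsto (fun θ => b θ + nk) (𝓝[≠] 0) (𝓝 (0 + nk)) := hbl.add_const nk
  have l5 : Tendsto (fun θ => |θ| * (b θ + nk)) (𝓝[≠] 0) (𝓝 (0 * (0 + nk))) := hθ.mul l4
  have hlim : Tendsto (fun θ => nF * b θ + (a θ * nG + (a θ + nm) * (|θ| * (b θ + nk))))
      (𝓝[≠] 0) (𝓝 (nF * 0 + (0 * nG + (0 + nm) * (0 * (0 + nk))))) :=
    l1.add (l2.add (l3.mul l5))
  simp only [mul_zero, zero_mul, add_zero] at hlim
  refine tendsto_of_tendsto_of_tendsto_of_le_of_le' tendsto_const_nhds hlim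
    (Eventually.of_forall fun θ => N_nonneg _ _) ?_
  filter_upwards [self_mem_nhdsWithin] with θ hθ
  exact bound θ hθ

/-! ### smooth functionals -/

/-- `F = (I + L)^{-r/2} G` with `G ∈ L^p` -/
def Rep (P : Measure E) (p : ℝ) (r : ℕ) (F G : E → ℝ) : Prop :=
  MemLp G (ENNReal.ofReal p) P ∧ F =ᵐ[P] bessel P r G

theorem rep_iff (h : IsCG P) {p : ℝ} (hp : 1 ≤ p) {r : ℕ} (hr : 1 ≤ r) {F G : E → ℝ} :
    Rep P p r F G ↔ MemLp G (ENNReal.ofReal p) P ∧ F =ᵐ[P] bav P ((r : ℝ) / 2) G := by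
  have := h.prob
  have hp1' : (1:ℝ≥0∞) ≤ ENNReal.ofReal p := by rwa [ENNReal.one_le_ofReal]
  constructor
  · rintro ⟨h1, h2⟩
    exact ⟨h1, h2.trans (bessel_eq h hr (h1.integrable hp1'))⟩
  · rintro ⟨h1, h2⟩
    exact ⟨h1, h2.trans (bessel_eq h hr (h1.integrable hp1')).symm⟩

theorem half_pos' {r : ℕ} (hr : 1 ≤ r) : (0:ℝ) < (r : ℝ) / 2 := by
  have : (1:ℝ) ≤ r := by exact_mod_cast hr
  positivity

/-- the derivative of `(I+L)^{-(r+4)/2} G` is `(I+L)^{-r/2} G'` -/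
theorem deriv_rep (h : IsCG P) {A : E →L[ℝ] E} (hA : Rot P A) {p p' : ℝ}
    (hp : p.HolderConjugate p') {r : ℕ} (hr : 1 ≤ r) {F G : E → ℝ} (hFG : Rep P p (r + 4) F G) :
    ∃ m G' : E → ℝ, Rep P p r m G' ∧ N P p G' ≤ gk p * gk p' * N P p G ∧
      MemLp m (ENNReal.ofReal p) P ∧
      Tendsto (fun θ => N P p (fun x => dq A θ F x - m x)) (𝓝[≠] 0) (𝓝 0) := by
  have := h.prob
  have hp1 : 1 ≤ p := hp.lt.le
  have hp1' : (1:ℝ≥0∞) ≤ ENNReal.ofReal p := by rwa [ENNReal.one_le_ofReal]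
  have ha := half_pos' hr
  have h2 : (0:ℝ) < 2 := by norm_num
  have := gam_prob ha
  obtain ⟨hG, hF⟩ := (rep_iff h hp1 (by omega)).1 hFG
  obtain ⟨G', hG', hGb, hGl⟩ := exists_lim h hA hp hG
  have hGi := hG.integrable hp1'
  have e1 : F =ᵐ[P] bav P ((r:ℝ) / 2) (bav P 2 G) := by
    have e2 := bav_bav h ha h2 hGi
    have e3 : ((r + 4 : ℕ) : ℝ) / 2 = (r:ℝ) / 2 + 2 := by push_cast; ring
    rw [e3] at hF
    exact hF.trans e2.symm
  have hm : MemLp (bav P ((r:ℝ) / 2) G') (ENNReal.ofReal p) P := bav_memLp h ha hp1 hG'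
  refine ⟨bav P ((r:ℝ) / 2) G', G', (rep_iff h hp1 hr).2 ⟨hG', EventuallyEq.rfl⟩, hGb, hm, ?_⟩
  have hbG : MemLp (bav P 2 G) (ENNReal.ofReal p) P := bav_memLp h h2 hp1 hG
  have key : ∀ θ : ℝ, N P p (fun x => dq A θ F x - bav P ((r:ℝ) / 2) G' x) ≤
      N P p (fun x => bq P A θ G x - G' x) := by
    intro θ
    have hq := bq_memLp h hA θ hp1 hG
    have e4 : (fun x => dq A θ F x - bav P ((r:ℝ) / 2) G' x) =ᵐ[P]
        bav P ((r:ℝ) / 2) (fun x => bq P A θ G x - G' x) := by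
      have f1 := avg_sub (bmap_mp h ha) (hq.integrable hp1') (hG'.integrable hp1')
      have f2 := avg_sub (bmap_mp h ha)
        ((memLp_rot hA θ hbG).integrable hp1') (hbG.integrable hp1')
      have f3 := dq_congr hA θ e1
      have f4 : ∀ x, bav P ((r:ℝ) / 2) (bq P A θ G) x =
          bav P ((r:ℝ) / 2) (binc P A θ G) x / θ := fun x => congrFun (avg_div θ _) x
      filter_upwards [f1, f2, f3] with x g1 g2 g3
      have g1' : bav P ((r:ℝ) / 2) (fun x => bq P A θ G x - G' x) x =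
          bav P ((r:ℝ) / 2) (bq P A θ G) x - bav P ((r:ℝ) / 2) G' x := g1
      have g2' : bav P ((r:ℝ) / 2) (binc P A θ G) x =
          bav P ((r:ℝ) / 2) (fun x => bav P 2 G (rot A θ x)) x -
            bav P ((r:ℝ) / 2) (bav P 2 G) x := g2
      rw [g1', g3, f4, g2', bav_rot h hA ha]
      rfl
    rw [N_congr e4]
    exact N_bav_le h ha hp1 (hq.sub hG')
  exact tendsto_of_tendsto_of_tendsto_of_le_of_le tendsto_const_nhds hGl
    (fun θ => N_nonneg _ _) key

/-- `F ∈ D^∞` -/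
def Smooth (P : Measure E) (F : E → ℝ) : Prop :=
  ∀ p : ℝ, 1 < p → ∀ r : ℕ, 1 ≤ r → ∃ G, Rep P p r F G

theorem Smooth.memLp (h : IsCG P) {F : E → ℝ} (hF : Smooth P F) {p : ℝ} (hp : 1 < p) :
    MemLp F (ENNReal.ofReal p) P := by
  obtain ⟨G, hG⟩ := hF p hp 1 le_rfl
  obtain ⟨h1, h2⟩ := (rep_iff h hp.le le_rfl).1 hG
  exact (memLp_congr_ae h2).2 (bav_memLp h (half_pos' le_rfl) hp.le h1)

/-- the constant in the estimates -/
noncomputable def cst (p : ℝ) : ℝ := gk p * gk (p / (p - 1))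

theorem conj_of {p : ℝ} (hp : 1 < p) : p.HolderConjugate (p / (p - 1)) :=
  (Real.holderConjugate_iff_eq_conjExponent hp).2 rfl

theorem Smooth.exists_deriv (h : IsCG P) {A : E →L[ℝ] E} (hA : Rot P A) {F : E → ℝ}
    (hF : Smooth P F) : ∃ m, IsLim P A F m := by
  have := h.prob
  have key : ∀ p : ℝ, 1 < p → ∃ m : E → ℝ, MemLp m (ENNReal.ofReal p) P ∧
      Tendsto (fun θ => N P p (fun x => dq A θ F x - m x)) (𝓝[≠] 0) (𝓝 0) := by
    intro p hp
    obtain ⟨G, hG⟩ := hF p hp (1 + 4) (by norm_num)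
    obtain ⟨m, G', -, -, h3, h4⟩ := deriv_rep h hA (conj_of hp) le_rfl hG
    exact ⟨m, h3, h4⟩
  obtain ⟨m, hm, hml⟩ := key 2 (by norm_num)
  refine ⟨m, fun p hp => ?_⟩
  obtain ⟨k, hk, hkl⟩ := key p hp
  have e : k =ᵐ[P] m := lim_unique (p := p) (q := 2) hp.le (by norm_num)
    (fun θ => dq_memLp hA θ (hF.memLp h hp)) (fun θ => dq_memLp hA θ (hF.memLp h (by norm_num)))
    hk hm hkl hml
  refine ⟨(memLp_congr_ae e).1 hk, hkl.congr fun θ => N_congr ?_⟩
  filter_upwards [e] with x hx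
  rw [hx]

theorem IsLim.rep (h : IsCG P) {A : E →L[ℝ] E} (hA : Rot P A) {F m : E → ℝ}
    (hm : IsLim P A F m) {p : ℝ} (hp : 1 < p) {r : ℕ} (hr : 1 ≤ r) {G : E → ℝ}
    (hFG : Rep P p (r + 4) F G) : ∃ G', Rep P p r m G' ∧ N P p G' ≤ cst p * N P p G := by
  have := h.prob
  obtain ⟨k, G', h1, h2, h3, h4⟩ := deriv_rep h hA (conj_of hp) hr hFG
  have hFp : MemLp F (ENNReal.ofReal p) P := by
    obtain ⟨f1, f2⟩ := (rep_iff h hp.le (by omega)).1 hFG
    exact (memLp_congr_ae f2).2 (bav_memLp h (half_pos' (by omega)) hp.le f1)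
  have e : k =ᵐ[P] m := lim_unique (p := p) (q := p) hp.le hp.le
    (fun θ => dq_memLp hA θ hFp) (fun θ => dq_memLp hA θ hFp)
    h3 (hm p hp).1 h4 (hm p hp).2
  exact ⟨G', ⟨h1.1, e.symm.trans h1.2⟩, h2⟩

theorem IsLim.smooth (h : IsCG P) {A : E →L[ℝ] E} (hA : Rot P A) {F m : E → ℝ}
    (hF : Smooth P F) (hm : IsLim P A F m) : Smooth P m := by
  intro p hp r hr
  obtain ⟨G, hG⟩ := hF p hp (r + 4) (by omega)
  obtain ⟨G', hG', -⟩ := hm.rep h hA hp hr hG
  exact ⟨G', hG'⟩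

end Pool.Agent.Helper99.MD
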