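import Mathlib
import Pool.Agent.Helper99.MD.Deriv

/-! Lemmas on the Sobolev norms. -/

set_option autoImplicit false
set_option linter.unusedSectionVars false

open MeasureTheory ProbabilityTheory Filter Topology
open scoped ENNReal NNReal

namespace Pool.Agent.Helper99.MD

variable {E : Type*} [NormedAddCommGroup E] [NormedSpace ℝ E] [CompleteSpace E]
  [SecondCountableTopology E] [MeasurableSpace E] [BorelSpace E] {P : Measure E}

theorem Rep.add (h : IsCG P) {p : ℝ} (hp : 1 ≤ p) {r : ℕ} (hr : 1 ≤ r) {F G F' G' : E → ℝ}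
    (h1 : Rep P p r F G) (h2 : Rep P p r F' G') :
    Rep P p r (fun x => F x + F' x) (fun x => G x + G' x) := by
  have := h.prob
  have := gam_prob (half_pos' hr)
  have hp1' : (1:ℝ≥0∞) ≤ ENNReal.ofReal p := by rwa [ENNReal.one_le_ofReal]
  rw [rep_iff h hp hr] at h1 h2 ⊢
  refine ⟨h1.1.add h2.1, ?_⟩
  have e := avg_add (bmap_mp h (half_pos' hr)) (h1.1.integrable hp1') (h2.1.integrable hp1')
  filter_upwards [h1.2, h2.2, e] with x e1 e2 e3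
  rw [e1, e2]
  exact e3.symm

theorem Rep.const_mul (h : IsCG P) {p : ℝ} (hp : 1 ≤ p) {r : ℕ} (hr : 1 ≤ r) {F G : E → ℝ}
    (c : ℝ) (h1 : Rep P p r F G) : Rep P p r (fun x => c * F x) (fun x => c * G x) := by
  have := h.prob
  have := gam_prob (half_pos' hr)
  rw [rep_iff h hp hr] at h1 ⊢
  refine ⟨h1.1.const_mul c, ?_⟩
  filter_upwards [h1.2] with x e1
  rw [e1]
  exact (congrFun (avg_const_mul c G) x).symm

theorem Rep.congr {p : ℝ} {r : ℕ} {F G F' : E → ℝ} (e : F =ᵐ[P] F') (h1 : Rep P p r F G) :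
    Rep P p r F' G := ⟨h1.1, e.symm.trans h1.2⟩

theorem rep_zero (p : ℝ) (r : ℕ) : Rep P p r (fun _ : E => (0:ℝ)) (fun _ => 0) := by
  refine ⟨MemLp.zero', Eventually.of_forall fun x => ?_⟩
  unfold bessel ou
  simp

theorem sobNorm_bdd (p : ℝ) (r : ℕ) (F : E → ℝ) :
    BddBelow {c | ∃ G : E → ℝ, (MemLp G (ENNReal.ofReal p) P ∧ F =ᵐ[P] bessel P r G) ∧
    c = (eLpNorm G (ENNReal.ofReal p) P).toReal} := by
  refine ⟨0, ?_⟩
  rintro c ⟨G, -, rfl⟩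
  exact ENNReal.toReal_nonneg

theorem sobNorm_le {p : ℝ} {r : ℕ} {F G : E → ℝ} (hFG : Rep P p r F G) :
    sobNorm P p r F ≤ N P p G :=
  csInf_le (sobNorm_bdd p r F) ⟨G, hFG, rfl⟩

theorem le_sobNorm {p : ℝ} {r : ℕ} {F : E → ℝ} (hne : ∃ G, Rep P p r F G) {b : ℝ}
    (hb : ∀ G, Rep P p r F G → b ≤ N P p G) : b ≤ sobNorm P p r F := by
  obtain ⟨G, hG⟩ := hne
  refine le_csInf ⟨_, G, hG, rfl⟩ ?_
  rintro c ⟨G, hG, rfl⟩
  exact hb G hG

theorem sobNorm_nonneg (p : ℝ) (r : ℕ) (F : E → ℝ) : 0 ≤ sobNorm P p r F := by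
  apply Real.sInf_nonneg
  rintro c ⟨G, -, rfl⟩
  exact ENNReal.toReal_nonneg

theorem sobNorm_zero (p : ℝ) (r : ℕ) {F : E → ℝ} (hF : F =ᵐ[P] fun _ => 0) :
    sobNorm P p r F = 0 := by
  refine le_antisymm ?_ (sobNorm_nonneg _ _ _)
  refine (sobNorm_le ((rep_zero p r).congr hF.symm)).trans ?_
  unfold N
  simp

theorem sobNorm_add (h : IsCG P) {p : ℝ} (hp : 1 < p) {r : ℕ} (hr : 1 ≤ r) {F F' K : E → ℝ}
    (hF : ∃ G, Rep P p r F G) (hF' : ∃ G, Rep P p r F' G) (hK : K =ᵐ[P] fun x => F x + F' x) :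
    sobNorm P p r K ≤ sobNorm P p r F + sobNorm P p r F' := by
  have key : ∀ G, Rep P p r F G → ∀ G', Rep P p r F' G' →
      sobNorm P p r K ≤ N P p G + N P p G' := by
    intro G hG G' hG'
    exact (sobNorm_le ((Rep.add h hp.le hr hG hG').congr hK.symm)).trans
      (N_add_le hp.le hG.1 hG'.1)
  have k2 : sobNorm P p r K - sobNorm P p r F' ≤ sobNorm P p r F := by
    refine le_sobNorm hF fun G hG => ?_
    have k3 : sobNorm P p r K - N P p G ≤ sobNorm P p r F' := by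
      refine le_sobNorm hF' fun G' hG' => ?_
      have := key G hG G' hG'
      linarith
    linarith
  linarith

theorem sobNorm_smul (h : IsCG P) {p : ℝ} (hp : 1 < p) {r : ℕ} (hr : 1 ≤ r) (c : ℝ)
    {F K : E → ℝ} (hF : ∃ G, Rep P p r F G) (hK : K =ᵐ[P] fun x => c * F x) :
    sobNorm P p r K ≤ ‖c‖ * sobNorm P p r F := by
  rcases eq_or_ne c 0 with rfl | hc
  · rw [sobNorm_zero p r (hK.trans (Eventually.of_forall fun x => by simp))]
    simp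
  · have hc' : 0 < |c| := abs_pos.2 hc
    rw [Real.norm_eq_abs, ← div_le_iff₀' hc']
    refine le_sobNorm hF fun G hG => ?_
    rw [div_le_iff₀' hc', ← N_const_mul]
    exact sobNorm_le ((Rep.const_mul h hp.le hr c hG).congr hK.symm)

/-! ### classes -/

theorem cls_zero (p : ℝ) (r : ℕ) :
    ∃ G : E → ℝ, MemLp G (ENNReal.ofReal p) P ∧ (0 : E →ₘ[P] ℝ) =ᵐ[P] bessel P r G :=
  ⟨_, (rep_zero p r).congr (AEEqFun.coeFn_zero (β := ℝ)).symm⟩

theorem cls_add (h : IsCG P) {p : ℝ} (hp : 1 < p) {r : ℕ} (hr : 1 ≤ r) {F F' : E →ₘ[P] ℝ}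
    (hF : ∃ G : E → ℝ, MemLp G (ENNReal.ofReal p) P ∧ F =ᵐ[P] bessel P r G)
    (hF' : ∃ G : E → ℝ, MemLp G (ENNReal.ofReal p) P ∧ F' =ᵐ[P] bessel P r G) :
    ∃ G : E → ℝ, MemLp G (ENNReal.ofReal p) P ∧ (F + F' : E →ₘ[P] ℝ) =ᵐ[P] bessel P r G := by
  obtain ⟨G, hG⟩ := hF
  obtain ⟨G', hG'⟩ := hF'
  exact ⟨_, (Rep.add h hp.le hr hG hG').congr (AEEqFun.coeFn_add F F').symm⟩

theorem cls_smul (h : IsCG P) {p : ℝ} (hp : 1 < p) {r : ℕ} (hr : 1 ≤ r) (c : ℝ) {F : E →ₘ[P] ℝ}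
    (hF : ∃ G : E → ℝ, MemLp G (ENNReal.ofReal p) P ∧ F =ᵐ[P] bessel P r G) :
    ∃ G : E → ℝ, MemLp G (ENNReal.ofReal p) P ∧ (c • F : E →ₘ[P] ℝ) =ᵐ[P] bessel P r G := by
  obtain ⟨G, hG⟩ := hF
  exact ⟨_, (Rep.const_mul h hp.le hr c hG).congr (AEEqFun.coeFn_smul c F).symm⟩

/-! ### means -/

theorem cg_of_mean [IsGaussian P] (hm : ∫ x, x ∂P = 0) : IsCG P := by
  refine ⟨inferInstance, fun L => ?_⟩
  rw [IsGaussian.integral_dual L, hm, map_zero]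

theorem dual_mean [IsGaussian P] (L : StrongDual ℝ E) : ∫ x, L x ∂P = L (∫ x, x ∂P) :=
  IsGaussian.integral_dual L

end Pool.Agent.Helper99.MD
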