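import Mathlib
import Pool.Agent.Helper99.MD.DLem

/-! The space `D^∞` and its topology. -/

set_option autoImplicit false

open MeasureTheory ProbabilityTheory
open scoped ENNReal NNReal

namespace Pool.Agent.Helper99.MD

variable {E : Type*} [NormedAddCommGroup E] [NormedSpace ℝ E] [CompleteSpace E]
  [SecondCountableTopology E] [MeasurableSpace E] [BorelSpace E] {P : Measure E}

/-- the classes of functionals which belong to all the spaces `D^p_r`, `p > 1`, `r ≥ 1`:
for all these `p`, `r` one has `F = (I+L)^{-r/2} G` with some `G ∈ L^p` -/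
def DInf (P : Measure E) (h : IsCG P) : Submodule ℝ (E →ₘ[P] ℝ) where
  carrier := {F | ∀ p : ℝ, 1 < p → ∀ r : ℕ, 1 ≤ r →
    ∃ G : E → ℝ, MemLp G (ENNReal.ofReal p) P ∧ F =ᵐ[P] bessel P r G}
  zero_mem' p _ r _ := cls_zero p r
  add_mem' hF hF' p hp r hr := cls_add h hp hr (hF p hp r hr) (hF' p hp r hr)
  smul_mem' c _ hF p hp r hr := cls_smul h hp hr c (hF p hp r hr)

/-- the space `D^∞` -/
def DSp (P : Measure E) (h : IsCG P) : Type _ := DInf P h

/-- an element of `D^∞` as a class of measurable functions -/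
def DSp.cl {h : IsCG P} (F : DSp P h) : E →ₘ[P] ℝ := Subtype.val F

noncomputable instance (P : Measure E) (h : IsCG P) : AddCommGroup (DSp P h) :=
  Submodule.addCommGroup (DInf P h)

noncomputable instance (P : Measure E) (h : IsCG P) : Module ℝ (DSp P h) :=
  Submodule.module (DInf P h)

theorem sem_zero (P : Measure E) (h : IsCG P) (p : ℝ) (r : ℕ) :
    sobNorm P p r (0 : DSp P h).cl = 0 :=
  sobNorm_zero p r (AEEqFun.coeFn_zero (β := ℝ))

theorem sem_add {P : Measure E} {h : IsCG P} {p : ℝ} (hp : 1 < p) {r : ℕ} (hr : 1 ≤ r)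
    (F F' : DSp P h) :
    sobNorm P p r (F + F').cl ≤ sobNorm P p r F.cl + sobNorm P p r F'.cl :=
  sobNorm_add h hp hr (F.2 p hp r hr) (F'.2 p hp r hr) (AEEqFun.coeFn_add F.cl F'.cl)

theorem sem_smul {P : Measure E} {h : IsCG P} {p : ℝ} (hp : 1 < p) {r : ℕ} (hr : 1 ≤ r) (c : ℝ)
    (F : DSp P h) : sobNorm P p r (c • F).cl ≤ ‖c‖ * sobNorm P p r F.cl :=
  sobNorm_smul h hp hr c (F.2 p hp r hr) (AEEqFun.coeFn_smul c F.cl)

/-- the norms `‖F‖_{p,r}` of `D^∞`, indexed by `p > 1` and `r ≥ 1` -/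
noncomputable def sobSem (P : Measure E) (h : IsCG P) (i : {p : ℝ // 1 < p} × {r : ℕ // 1 ≤ r}) :
    Seminorm ℝ (DSp P h) :=
  Seminorm.ofSMulLE (fun F => sobNorm P i.1 i.2 F.cl)
    (sem_zero P h i.1 i.2) (sem_add i.1.2 i.2.2) (sem_smul i.1.2 i.2.2)

/-- the topology of `D^∞`, defined by all the norms `‖·‖_{p,r}` -/
noncomputable instance (P : Measure E) (h : IsCG P) : TopologicalSpace (DSp P h) :=
  (SeminormFamily.moduleFilterBasis (𝕜 := ℝ) (sobSem P h)).topology

/-- the Leibniz rule: `δ(FG) = F δG + G δF` whenever `F`, `G`, `FG` are in `D^∞` -/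
def Leibniz {P : Measure E} {h : IsCG P} (δ : DSp P h →L[ℝ] DSp P h) : Prop :=
  ∀ F G K : DSp P h, K.cl = F.cl * G.cl → (δ K).cl = F.cl * (δ G).cl + G.cl * (δ F).cl

end Pool.Agent.Helper99.MD
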