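import Mathlib
import Pool.Agent.Helper99.MD.Space

/-! The derivation generated by a rotation. -/

set_option autoImplicit false
set_option linter.unusedSectionVars false

open MeasureTheory ProbabilityTheory Filter Topology
open scoped ENNReal NNReal

namespace Pool.Agent.Helper99.MD

variable {E : Type*} [NormedAddCommGroup E] [NormedSpace ℝ E] [CompleteSpace E]
  [SecondCountableTopology E] [MeasurableSpace E] [BorelSpace E] {P : Measure E}

theorem dsm {h : IsCG P} (F : DSp P h) : Smooth P F.cl := F.2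

theorem mem_dinf {h : IsCG P} {F : E → ℝ} (hm : AEStronglyMeasurable F P) (hF : Smooth P F) :
    AEEqFun.mk F hm ∈ DInf P h := by
  intro p hp r hr
  obtain ⟨G, hG⟩ := hF p hp r hr
  exact ⟨G, hG.congr (AEEqFun.coeFn_mk F hm).symm⟩

theorem DSp.ext {h : IsCG P} {F G : DSp P h} (e : F.cl = G.cl) : F = G := Subtype.ext e

theorem cl_add {h : IsCG P} (F G : DSp P h) : (F + G).cl = F.cl + G.cl := rfl

theorem cl_smul {h : IsCG P} (c : ℝ) (F : DSp P h) : (c • F).cl = c • F.cl := rfl

/-- derivative along the rotation -/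
noncomputable def dfun (h : IsCG P) {A : E →L[ℝ] E} (hA : Rot P A) (F : DSp P h) : E → ℝ :=
  (Smooth.exists_deriv h hA (dsm F)).choose

theorem dfun_spec (h : IsCG P) {A : E →L[ℝ] E} (hA : Rot P A) (F : DSp P h) :
    IsLim P A F.cl (dfun h hA F) := (Smooth.exists_deriv h hA (dsm F)).choose_spec

theorem dfun_aesm (h : IsCG P) {A : E →L[ℝ] E} (hA : Rot P A) (F : DSp P h) :
    AEStronglyMeasurable (dfun h hA F) P := ((dfun_spec h hA F) 2 (by norm_num)).1.1

theorem dfun_unique (h : IsCG P) {A : E →L[ℝ] E} (hA : Rot P A) (F : DSp P h) {m : E → ℝ}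
    (hm : IsLim P A F.cl m) : dfun h hA F =ᵐ[P] m :=
  (dfun_spec h hA F).unique h hA ((dsm F).memLp h (by norm_num)) hm

/-- the derivation generated by the rotation -/
noncomputable def der (h : IsCG P) {A : E →L[ℝ] E} (hA : Rot P A) : DSp P h →ₗ[ℝ] DSp P h where
  toFun F := ⟨AEEqFun.mk (dfun h hA F) (dfun_aesm h hA F),
    mem_dinf _ ((dfun_spec h hA F).smooth h hA (dsm F))⟩
  map_add' F G := by
    apply Subtype.ext
    change AEEqFun.mk (dfun h hA (F + G)) (dfun_aesm h hA _) =
      AEEqFun.mk (dfun h hA F) (dfun_aesm h hA F) + AEEqFun.mk (dfun h hA G) (dfun_aesm h hA G)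
    rw [AEEqFun.mk_add_mk, AEEqFun.mk_eq_mk]
    refine dfun_unique h hA (F + G) ?_
    refine IsLim.congr_left hA ?_ (IsLim.add hA (fun p hp => (dsm F).memLp h hp)
      (fun p hp => (dsm G).memLp h hp) (dfun_spec h hA F) (dfun_spec h hA G))
    exact (AEEqFun.coeFn_add F.cl G.cl).symm
  map_smul' c F := by
    apply Subtype.ext
    change AEEqFun.mk (dfun h hA (c • F)) (dfun_aesm h hA _) =
      c • AEEqFun.mk (dfun h hA F) (dfun_aesm h hA F)
    rw [AEEqFun.smul_mk, AEEqFun.mk_eq_mk]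
    refine dfun_unique h hA (c • F) ?_
    refine IsLim.congr_left hA ?_ (IsLim.const_mul c (dfun_spec h hA F))
    exact (AEEqFun.coeFn_smul c F.cl).symm

theorem der_coe (h : IsCG P) {A : E →L[ℝ] E} (hA : Rot P A) (F : DSp P h) :
    (der h hA F).cl =ᵐ[P] dfun h hA F := AEEqFun.coeFn_mk _ _

theorem der_lim (h : IsCG P) {A : E →L[ℝ] E} (hA : Rot P A) (F : DSp P h) :
    IsLim P A F.cl (der h hA F).cl :=
  (dfun_spec h hA F).congr_right (der_coe h hA F).symm

theorem der_eq (h : IsCG P) {A : E →L[ℝ] E} (hA : Rot P A) (F : DSp P h) {m : E → ℝ}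
    (hm : IsLim P A F.cl m) : (der h hA F).cl =ᵐ[P] m :=
  (der_coe h hA F).trans (dfun_unique h hA F hm)

theorem cst_nonneg (p : ℝ) : 0 ≤ cst p := mul_nonneg (gk_nonneg _) (gk_nonneg _)

theorem sobNorm_der (h : IsCG P) {A : E →L[ℝ] E} (hA : Rot P A) (F : DSp P h) {p : ℝ}
    (hp : 1 < p) {r : ℕ} (hr : 1 ≤ r) :
    sobNorm P p r (der h hA F).cl ≤
      (cst p + 1) * sobNorm P p (r + 4) F.cl := by
  have hc : 0 < cst p + 1 := by linarith [cst_nonneg p]
  rw [← div_le_iff₀' hc]
  refine le_sobNorm (F.2 p hp (r + 4) (by omega)) fun G hG => ?_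
  rw [div_le_iff₀' hc]
  obtain ⟨G', hG', hb⟩ := (der_lim h hA F).rep h hA hp hr hG
  refine (sobNorm_le hG').trans (hb.trans ?_)
  have := N_nonneg (μ := P) p G
  nlinarith

/-- the derivation as a continuous linear map -/
noncomputable def derL (h : IsCG P) {A : E →L[ℝ] E} (hA : Rot P A) : DSp P h →L[ℝ] DSp P h :=
  ⟨der h hA, by
    have hw : WithSeminorms (𝕜 := ℝ) (E := DSp P h) (sobSem P h) := ⟨rfl⟩
    refine WithSeminorms.continuous_of_isBounded hw hw (der h hA) ?_
    refine Seminorm.IsBounded.of_real fun i => ?_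
    refine ⟨{(i.1, ⟨i.2.1 + 4, by omega⟩)}, cst i.1 + 1, fun F => ?_⟩
    rw [Finset.sup_singleton]
    exact sobNorm_der h hA F i.1.2 i.2.2⟩

theorem derL_leibniz (h : IsCG P) {A : E →L[ℝ] E} (hA : Rot P A) : Leibniz (derL h hA) := by
  intro F G K hK
  change (der h hA K).cl = F.cl * (der h hA G).cl + G.cl * (der h hA F).cl
  have h1 := IsLim.mul h hA (fun p hp => (dsm F).memLp h hp)
    (fun p hp => (dsm G).memLp h hp) (der_lim h hA F) (der_lim h hA G)
  have h2 : (fun x => F.cl x * G.cl x) =ᵐ[P] K.cl := by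
    rw [hK]
    exact (AEEqFun.coeFn_mul F.cl G.cl).symm
  have h3 := der_eq h hA K (h1.congr_left hA h2)
  apply AEEqFun.ext
  refine h3.trans ?_
  have e1 := AEEqFun.coeFn_add (F.cl * (der h hA G).cl)
    (G.cl * (der h hA F).cl)
  have e2 := AEEqFun.coeFn_mul F.cl (der h hA G).cl
  have e3 := AEEqFun.coeFn_mul G.cl (der h hA F).cl
  filter_upwards [e1, e2, e3] with x g1 g2 g3
  rw [g1, Pi.add_apply, g2, g3]
  rfl

/-! ### images under linear maps -/

theorem isCG_map (h : IsCG P) (T : E →L[ℝ] E) : IsCG (P.map T) := by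
  have := h.gauss
  refine ⟨inferInstance, fun L => ?_⟩
  rw [integral_map T.continuous.measurable.aemeasurable L.continuous.aestronglyMeasurable]
  exact h.mean (L.comp T)

theorem q_map (T : E →L[ℝ] E) (L M : StrongDual ℝ E) :
    q (P.map T) L M = q P (L.comp T) (M.comp T) := by
  unfold q
  rw [integral_map T.continuous.measurable.aemeasurable]
  · rfl
  · exact (L.continuous.mul M.continuous).aestronglyMeasurable

theorem comp_rotL (A : E →L[ℝ] E) (θ : ℝ) (L : StrongDual ℝ E) :
    L.comp (rotL A θ) = Real.cos θ • L + Real.sin θ • L.comp A := by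
  ext x
  change L (rotL A θ x) = Real.cos θ * L x + Real.sin θ * L (A x)
  rw [rotL_apply]
  unfold rot
  simp

theorem q_rotL (h : IsCG P) (A : E →L[ℝ] E) (θ : ℝ) (L M : StrongDual ℝ E) :
    q P (L.comp (rotL A θ)) (M.comp (rotL A θ)) = Real.cos θ ^ 2 * q P L M +
      Real.cos θ * Real.sin θ * (q P L (M.comp A) + q P (L.comp A) M) +
      Real.sin θ ^ 2 * q P (L.comp A) (M.comp A) := by
  rw [comp_rotL, comp_rotL]
  simp only [q_add_left h, q_add_right h, q_smul_left, q_smul_right]
  ring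

theorem rot_of {A : E →L[ℝ] E} (hsq : ∀ x, A (A x) = -x)
    (hmap : ∀ θ, P.map (rotL A θ) = P) : Rot P A where
  sq := hsq
  mp θ := by
    have e : rot A θ = rotL A θ := by
      funext x
      exact (rotL_apply A θ x).symm
    rw [e]
    exact ⟨(rotL A θ).continuous.measurable, hmap θ⟩

theorem q_sub3_left (h : IsCG P) (a b c M : StrongDual ℝ E) :
    q P (a - b - c) M = q P a M - q P b M - q P c M := by
  have e : a - b - c = a + (-1:ℝ) • b + (-1:ℝ) • c := by module
  rw [e, q_add_left h, q_add_left h, q_smul_left, q_smul_left]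
  ring

theorem q_sub3_right (h : IsCG P) (a b c M : StrongDual ℝ E) :
    q P M (a - b - c) = q P M a - q P M b - q P M c := by
  rw [q_comm, q_sub3_left h, q_comm a, q_comm b, q_comm c]

/-! ### linear functionals -/

theorem bav_lin (h : IsCG P) {a : ℝ} (ha : 0 < a) (L : StrongDual ℝ E) (x : E) :
    bav P a (fun z => L z) x = (1 / 2) ^ a * L x := by
  have := h.prob
  have := gam_prob ha
  unfold bav avg bmap
  have hpos : ∀ᵐ w ∂((gam a).prod P), 0 < w.1 := by
    have : Tendsto (Prod.fst : ℝ × E → ℝ) (ae ((gam a).prod P)) (ae (gam a)) :=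
      Measure.quasiMeasurePreserving_fst.tendsto_ae
    exact this.eventually (gam_pos ha)
  have e1 : ∀ w : ℝ × E, L (mix w.1 x w.2) =
      Real.exp (-w.1) * L x + √(1 - Real.exp (-(2 * w.1))) * L w.2 := by
    intro w
    unfold mix
    simp
  simp only [e1]
  have i1 : Integrable (fun w : ℝ × E => Real.exp (-w.1) * L x) ((gam a).prod P) := by
    have := integrable_exp_gam ha (s := -1) (by norm_num)
    have h2 : Integrable (fun t : ℝ => Real.exp (-t) * L x) (gam a) := by
      refine (this.mul_const (L x)).congr (Eventually.of_forall fun t => ?_)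
      simp
    exact h2.comp_fst P
  have hs : ∀ t : ℝ, |√(1 - Real.exp (-(2 * t)))| ≤ 1 := by
    intro t
    rw [abs_of_nonneg (Real.sqrt_nonneg _), Real.sqrt_le_one]
    have := Real.exp_pos (-(2 * t))
    linarith
  have i2 : Integrable (fun t : ℝ => √(1 - Real.exp (-(2 * t)))) (gam a) :=
    Integrable.of_bound (C := 1) (by fun_prop : Continuous fun t : ℝ =>
      √(1 - Real.exp (-(2 * t)))).aestronglyMeasurable (Eventually.of_forall hs)
  have i3 : Integrable (fun w : ℝ × E => √(1 - Real.exp (-(2 * w.1))) * L w.2) ((gam a).prod P) :=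
    i2.mul_prod (h.int_dual L)
  rw [integral_add i1 i3, integral_prod_mul (fun t : ℝ => √(1 - Real.exp (-(2 * t)))) (fun y => L y),
    h.mean L, mul_zero, add_zero]
  have e2 : ∫ w : ℝ × E, Real.exp (-w.1) * L x ∂((gam a).prod P) =
      (∫ t, Real.exp (-t) ∂(gam a)) * L x := by
    rw [integral_mul_const]
    congr 1
    have := integral_prod_mul (μ := gam a) (ν := P) (fun t : ℝ => Real.exp (-t)) (fun _ : E => (1:ℝ))
    simpa using this
  have e3 := exp_gam ha (s := -1) (by norm_num)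
  have e4 : ∫ t, Real.exp (-t) ∂(gam a) = (1 / 2) ^ a := by
    have e5 : (fun t : ℝ => Real.exp (-t)) = fun t => Real.exp (-1 * t) := by
      funext t; ring_nf
    rw [e5, e3]
    norm_num
  rw [e2, e4]

theorem smooth_lin (h : IsCG P) (L : StrongDual ℝ E) : Smooth P (fun z => L z) := by
  intro p hp r hr
  have ha := half_pos' hr
  have := h.prob
  have := gam_prob ha
  have hL := h.memLp_dual L (ENNReal.ofReal p) ENNReal.ofReal_ne_top
  refine ⟨fun z => ((1 / 2 : ℝ) ^ ((r:ℝ) / 2))⁻¹ * L z, (rep_iff h hp.le hr).2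
    ⟨hL.const_mul _, Eventually.of_forall fun x => ?_⟩⟩
  have e := congrFun (avg_const_mul (ν := (gam ((r:ℝ) / 2)).prod P) (S := bmap)
    ((1 / 2 : ℝ) ^ ((r:ℝ) / 2))⁻¹ (fun z => L z)) x
  have e' : bav P ((r:ℝ) / 2) (fun z => ((1 / 2 : ℝ) ^ ((r:ℝ) / 2))⁻¹ * L z) x =
    ((1 / 2 : ℝ) ^ ((r:ℝ) / 2))⁻¹ * bav P ((r:ℝ) / 2) (fun z => L z) x := e
  rw [e', bav_lin h ha]
  have : (0:ℝ) < (1 / 2 : ℝ) ^ ((r:ℝ) / 2) := by positivity
  field_simp

theorem isLim_lin (h : IsCG P) (A : E →L[ℝ] E) (L : StrongDual ℝ E) :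
    IsLim P A (fun z => L z) (fun z => L (A z)) := by
  intro p hp
  have hL := h.memLp_dual L (ENNReal.ofReal p) ENNReal.ofReal_ne_top
  have hLA := h.memLp_dual (L.comp A) (ENNReal.ofReal p) ENNReal.ofReal_ne_top
  refine ⟨hLA, ?_⟩
  have hc : Tendsto (fun θ : ℝ => |(Real.cos θ - 1) / θ| * N P p (fun z => L z) +
      |Real.sin θ / θ - 1| * N P p (fun z => L (A z))) (𝓝[≠] 0) (𝓝 0) := by
    have h1 : Tendsto (fun θ : ℝ => (Real.cos θ - 1) / θ) (𝓝[≠] 0) (𝓝 0) := by
      have := (Real.hasDerivAt_cos 0).tendsto_slope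
      simp only [Real.sin_zero, neg_zero] at this
      refine this.congr fun θ => ?_
      rw [slope_def_field]
      simp
    have h2 : Tendsto (fun θ : ℝ => Real.sin θ / θ - 1) (𝓝[≠] 0) (𝓝 0) := by
      have := (Real.hasDerivAt_sin 0).tendsto_slope
      simp only [Real.cos_zero] at this
      have h3 := this.sub_const 1
      rw [sub_self] at h3
      refine h3.congr fun θ => ?_
      rw [slope_def_field]
      simp
    have h4 := (h1.abs.mul_const (N P p (fun z => L z))).add
      (h2.abs.mul_const (N P p (fun z => L (A z))))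
    simpa using h4
  refine tendsto_of_tendsto_of_tendsto_of_le_of_le' tendsto_const_nhds hc
    (Eventually.of_forall fun θ => N_nonneg _ _) ?_
  filter_upwards [self_mem_nhdsWithin] with θ hθ
  have hθ' : θ ≠ 0 := hθ
  have e : (fun x => dq A θ (fun z => L z) x - L (A x)) =
      fun x => ((Real.cos θ - 1) / θ) * L x + (Real.sin θ / θ - 1) * L (A x) := by
    funext x
    unfold dq
    rw [rot_sub]
    field_simp
    ring
  rw [e]
  refine (N_add_le hp.le (hL.const_mul _) (hLA.const_mul _)).trans ?_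
  rw [N_const_mul]
  have := N_const_mul (P := P) p (Real.sin θ / θ - 1) (fun x => L (A x))
  refine add_le_add le_rfl (le_of_eq this)

/-- linear functionals, as elements of `D^∞` -/
noncomputable def linD (h : IsCG P) (L : StrongDual ℝ E) : DSp P h :=
  ⟨AEEqFun.mk (fun z => L z) L.continuous.aestronglyMeasurable, mem_dinf _ (smooth_lin h L)⟩

theorem linD_coe (h : IsCG P) (L : StrongDual ℝ E) :
    (linD h L).cl =ᵐ[P] fun z => L z := AEEqFun.coeFn_mk _ _

theorem der_linD (h : IsCG P) {A : E →L[ℝ] E} (hA : Rot P A) (L : StrongDual ℝ E) :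
    (der h hA (linD h L)).cl =ᵐ[P] fun z => L (A z) :=
  der_eq h hA _ ((isLim_lin h A L).congr_left hA (linD_coe h L).symm)

end Pool.Agent.Helper99.MD
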