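import Mathlib
import Pool.Agent.Helper99.MD.Space

/-! Wiener space, gradient and divergence: definitions. -/

set_option autoImplicit false

open MeasureTheory ProbabilityTheory Filter Topology
open scoped ENNReal NNReal InnerProductSpace

namespace Pool.Agent.Helper99.MD

theorem paths_add {n : ℕ} {f g : C(unitInterval, EuclideanSpace ℝ (Fin n))} (hf : f 0 = 0)
    (hg : g 0 = 0) : (f + g) 0 = 0 := by
  rw [ContinuousMap.add_apply, hf, hg, add_zero]

theorem paths_smul {n : ℕ} (c : ℝ) {f : C(unitInterval, EuclideanSpace ℝ (Fin n))} (hf : f 0 = 0) :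
    (c • f) 0 = 0 := by
  rw [ContinuousMap.smul_apply, hf, smul_zero]

/-- continuous paths `[0,1] → ℝ^n` starting at `0` -/
def paths (n : ℕ) : Submodule ℝ C(unitInterval, EuclideanSpace ℝ (Fin n)) where
  carrier := {f | f 0 = 0}
  zero_mem' := rfl
  add_mem' hf hg := paths_add hf hg
  smul_mem' c _ hf := paths_smul c hf

/-- the path space `C_0([0,1], ℝ^n)`, a Banach space with the sup norm -/
def Path (n : ℕ) : Type := paths n

noncomputable instance (n : ℕ) : NormedAddCommGroup (Path n) :=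
  Submodule.normedAddCommGroup (paths n)

noncomputable instance (n : ℕ) : NormedSpace ℝ (Path n) :=
  Submodule.normedSpace (paths n)

noncomputable instance (n : ℕ) : MeasurableSpace (Path n) := borel _

instance (n : ℕ) : BorelSpace (Path n) := ⟨rfl⟩

theorem paths_closed (n : ℕ) : IsClosed (paths n : Set C(unitInterval, EuclideanSpace ℝ (Fin n))) := by
  have : (paths n : Set C(unitInterval, EuclideanSpace ℝ (Fin n))) =
      (fun f : C(unitInterval, EuclideanSpace ℝ (Fin n)) => f 0) ⁻¹' {0} := rfl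
  rw [this]
  exact isClosed_singleton.preimage (by fun_prop)

instance (n : ℕ) : CompleteSpace (Path n) :=
  have : CompleteSpace (paths n) := (paths_closed n).completeSpace_coe
  inferInstanceAs (CompleteSpace (paths n))

instance (n : ℕ) : SecondCountableTopology (Path n) :=
  inferInstanceAs (SecondCountableTopology (paths n))

/-- a path as a continuous function -/
def fn {n : ℕ} (ω : Path n) : C(unitInterval, EuclideanSpace ℝ (Fin n)) := Subtype.val ω

/-- the value `ω_i(t)` -/
def val {n : ℕ} (ω : Path n) (t : unitInterval) (i : Fin n) : ℝ := fn ω t i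

/-- Wiener measure: the centered Gaussian measure with covariance `E ω_i(s) ω_j(t) = δ_ij (s ∧ t)` -/
structure IsWiener {n : ℕ} (P : Measure (Path n)) : Prop where
  gauss : IsGaussian P
  mean : ∀ t i, ∫ ω, val ω t i ∂P = 0
  cov : ∀ s t i j, ∫ ω, val ω s i * val ω t j ∂P = if i = j then min (s : ℝ) t else 0

/-- the inclusion as a continuous linear map -/
noncomputable def incl (n : ℕ) : Path n →L[ℝ] C(unitInterval, EuclideanSpace ℝ (Fin n)) :=
  (paths n).subtypeL

theorem incl_apply {n : ℕ} (ω : Path n) : incl n ω = fn ω := rfl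

/-- evaluation as a continuous functional -/
noncomputable def ev {n : ℕ} (t : unitInterval) (i : Fin n) : StrongDual ℝ (Path n) :=
  ((EuclideanSpace.proj i : EuclideanSpace ℝ (Fin n) →L[ℝ] ℝ).comp
    (ContinuousMap.evalCLM ℝ t)).comp (incl n)

theorem ev_apply {n : ℕ} (t : unitInterval) (i : Fin n) (ω : Path n) : ev t i ω = val ω t i := rfl

theorem path_ext {n : ℕ} {ω η : Path n} (h : ∀ t i, val ω t i = val η t i) : ω = η := by
  apply Subtype.ext
  ext t i
  exact h t i

theorem IsWiener.cg {n : ℕ} {P : Measure (Path n)} (hP : IsWiener P) : IsCG P := by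
  have := hP.gauss
  refine cg_of_mean ?_
  refine path_ext fun t i => ?_
  have h3 := dual_mean (P := P) (ev t i)
  rw [ev_apply] at h3
  rw [← h3]
  have h4 : ∫ x, (ev t i) x ∂P = 0 := hP.mean t i
  rw [h4]
  rfl

variable {n : ℕ}

/-- `V = grad F`: for a version `f` of `F`, for all `h ∈ L²([0,1],ℝ^n)` with primitive `k`, the
difference quotients `(f(ω + εk) - f(ω)) / ε` converge in probability to `∫ ⟨V(ω,s), h(s)⟩ ds` as
`ε → 0`. -/
def IsGrad (P : Measure (Path n)) (F : Path n →ₘ[P] ℝ)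
    (V : Path n × unitInterval → EuclideanSpace ℝ (Fin n)) : Prop :=
  MemLp V 2 (P.prod volume) ∧ ∃ f : Path n → ℝ, F =ᵐ[P] f ∧
    ∀ h : unitInterval → EuclideanSpace ℝ (Fin n), MemLp h 2 volume →
      ∀ k : Path n, (∀ t, fn k t = ∫ s in Set.Iic t, h s) →
        TendstoInMeasure P (fun (ε : ℝ) ω => (f (ω + ε • k) - f ω) / ε) (𝓝[≠] 0)
          (fun ω => ∫ s, ⟪V (ω, s), h s⟫_ℝ)

/-- `G = div u`: `E[G Φ] = E ∫ ⟨u, grad Φ⟩ ds` for all `Φ ∈ D^∞`. -/
def IsDiv (P : Measure (Path n)) (hP : IsWiener P)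
    (u : Path n × unitInterval → EuclideanSpace ℝ (Fin n)) (G : Path n → ℝ) : Prop :=
  MemLp u 2 (P.prod volume) ∧ MemLp G 2 P ∧
    ∀ (Φ : DSp P hP.cg) (W : Path n × unitInterval → EuclideanSpace ℝ (Fin n)),
      IsGrad P Φ.cl W →
        ∫ ω, G ω * Φ.cl ω ∂P = ∫ w, ⟪u w, W w⟫_ℝ ∂(P.prod volume)

/-- action of a matrix on a vector -/
noncomputable def act (M : Matrix (Fin n) (Fin n) ℝ) (v : EuclideanSpace ℝ (Fin n)) :
    EuclideanSpace ℝ (Fin n) := WithLp.toLp 2 (M.mulVec v.ofLp)

/-- `δ F = ⟨grad F, X⟩ + div (A grad F)` for all `F ∈ D^∞` for which `A grad F` is square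
integrable -/
def IsSum (P : Measure (Path n)) (hP : IsWiener P) (δ : DSp P hP.cg →L[ℝ] DSp P hP.cg)
    (X : Path n × unitInterval → EuclideanSpace ℝ (Fin n))
    (a : Path n × unitInterval → Matrix (Fin n) (Fin n) ℝ) : Prop :=
  ∀ (F : DSp P hP.cg) (V : Path n × unitInterval → EuclideanSpace ℝ (Fin n)),
    IsGrad P F.cl V → MemLp (fun w => act (a w) (V w)) 2 (P.prod volume) →
      ∃ G : Path n → ℝ, IsDiv P hP (fun w => act (a w) (V w)) G ∧
        (δ F).cl =ᵐ[P] fun ω => (∫ s, ⟪V (ω, s), X (ω, s)⟫_ℝ) + G ω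

end Pool.Agent.Helper99.MD
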