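import Mathlib
import Pool.Agent.Helper99.MD.Stmt
import Pool.Agent.Helper99.MD.Der

/-! Measures on the path space are determined by their covariances. -/

set_option autoImplicit false
set_option linter.unusedSectionVars false

open MeasureTheory ProbabilityTheory Filter Topology
open scoped ENNReal NNReal

namespace Pool.Agent.Helper99.MD

/-! ### approximation of functionals by finite combinations of evaluations -/

theorem approx_dual {n : ℕ} (L : StrongDual ℝ (Path n)) :
    ∃ Ls : ℕ → StrongDual ℝ (Path n),
      (∀ m, Ls m ∈ Submodule.span ℝ (Set.range fun a : unitInterval × Fin n => ev a.1 a.2)) ∧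
      ∀ ω, Tendsto (fun m => Ls m ω) atTop (𝓝 (L ω)) := by
  obtain ⟨L', hL'⟩ : ∃ L' : StrongDual ℝ C(unitInterval, EuclideanSpace ℝ (Fin n)),
      ∀ ω : Path n, L' (fn ω) = L ω := by
    obtain ⟨L', hL', -⟩ := exists_extension_norm_eq (paths n)
      (show StrongDual ℝ (paths n) from L)
    exact ⟨L', hL'⟩
  refine ⟨fun m => ∑ k : Fin (m + 1), ∑ i : Fin n,
    L' (bernstein m k • ContinuousMap.const unitInterval (EuclideanSpace.single i (1:ℝ))) •
      ev (bernstein.z k) i, ?_, ?_⟩
  · intro m
    refine Submodule.sum_mem _ fun k _ => Submodule.sum_mem _ fun i _ => Submodule.smul_mem _ _ ?_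
    exact Submodule.subset_span ⟨(bernstein.z k, i), rfl⟩
  · intro ω
    have h1 := bernsteinApproximation_uniform (fn ω)
    have h2 := (L'.continuous.tendsto _).comp h1
    rw [hL' ω] at h2
    refine h2.congr fun m => ?_
    simp only [Function.comp]
    unfold bernsteinApproximation
    rw [map_sum, _root_.sum_apply]
    refine Finset.sum_congr rfl fun k _ => ?_
    rw [_root_.sum_apply]
    set v := fn ω (bernstein.z k) with hv
    have h3 : bernstein m k • ContinuousMap.const unitInterval v =
        ∑ i, v i • (bernstein m k • ContinuousMap.const unitInterval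
          (EuclideanSpace.single i (1:ℝ))) := by
      ext t j
      rw [ContinuousMap.sum_apply]
      simp only [ContinuousMap.smul_apply, ContinuousMap.smul_apply', ContinuousMap.const_apply, PiLp.smul_apply, smul_eq_mul,
        WithLp.ofLp_sum, Finset.sum_apply, PiLp.single_apply, WithLp.ofLp_smul, Pi.smul_apply]
      rw [Finset.sum_eq_single j]
      · simp [mul_comm]
      · intro i _ hij
        simp [Ne.symm hij]
      · simp
    rw [h3, map_sum]
    refine Finset.sum_congr rfl fun i _ => ?_
    rw [map_smul]
    change v i * _ = _ * ev (bernstein.z k) i ω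
    rw [ev_apply, mul_comm]
    rfl

theorem charFun_eq_lim {n : ℕ} {P : Measure (Path n)} (h : IsCG P) (L : StrongDual ℝ (Path n))
    {Ls : ℕ → StrongDual ℝ (Path n)} (hL : ∀ ω, Tendsto (fun m => Ls m ω) atTop (𝓝 (L ω))) :
    Tendsto (fun m => Complex.exp (-(q P (Ls m) (Ls m) : ℝ) / 2)) atTop (𝓝 (charFunDual P L)) := by
  have := h.prob
  rw [charFunDual_apply]
  have h1 : ∀ m, Complex.exp (-(q P (Ls m) (Ls m) : ℝ) / 2) =
      ∫ x, Complex.exp (Ls m x * Complex.I) ∂P := fun m => (h.charFun (Ls m)).symm
  simp only [h1]
  refine tendsto_integral_of_dominated_convergence (fun _ => 1) (fun m => ?_)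
    (integrable_const _) (fun m => ?_) ?_
  · exact (int_cexp h (Ls m)).1
  · exact Eventually.of_forall fun x => by rw [Complex.norm_exp_ofReal_mul_I]
  · refine Eventually.of_forall fun x => ?_
    have h2 : Continuous fun r : ℝ => Complex.exp (r * Complex.I) := by fun_prop
    exact (h2.tendsto (L x)).comp (hL x)

/-- centered Gaussian measures on the path space with the same covariances coincide -/
theorem eq_of_cov {n : ℕ} {P P' : Measure (Path n)} (h : IsCG P) (h' : IsCG P')
    (hc : ∀ a b : unitInterval × Fin n, q P (ev a.1 a.2) (ev b.1 b.2) =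
      q P' (ev a.1 a.2) (ev b.1 b.2)) : P = P' := by
  have := h.prob
  have := h'.prob
  apply Measure.ext_of_charFunDual
  funext L
  obtain ⟨Ls, hs, hl⟩ := approx_dual L
  have h1 := charFun_eq_lim h L hl
  have h2 := charFun_eq_lim h' L hl
  have h3 : ∀ m, q P (Ls m) (Ls m) = q P' (Ls m) (Ls m) := by
    intro m
    have key : ∀ M ∈ Submodule.span ℝ (Set.range fun a : unitInterval × Fin n => ev a.1 a.2),
        ∀ b : unitInterval × Fin n, q P M (ev b.1 b.2) = q P' M (ev b.1 b.2) := by
      intro M hM b
      induction hM using Submodule.span_induction with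
      | mem x hx =>
        obtain ⟨a, rfl⟩ := hx
        exact hc a b
      | zero => rw [q_zero_left, q_zero_left]
      | add x y _ _ hx hy => rw [q_add_left h, q_add_left h', hx, hy]
      | smul c x _ hx => rw [q_smul_left, q_smul_left, hx]
    have key2 : ∀ M ∈ Submodule.span ℝ (Set.range fun a : unitInterval × Fin n => ev a.1 a.2),
        ∀ M' ∈ Submodule.span ℝ (Set.range fun a : unitInterval × Fin n => ev a.1 a.2),
        q P M' M = q P' M' M := by
      intro M hM M' hM'
      induction hM using Submodule.span_induction with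
      | mem x hx =>
        obtain ⟨a, rfl⟩ := hx
        exact key M' hM' a
      | zero => rw [q_comm, q_zero_left, q_comm, q_zero_left]
      | add x y _ _ hx hy => rw [q_add_right h, q_add_right h', hx, hy]
      | smul c x _ hx => rw [q_smul_right, q_smul_right, hx]
    exact key2 _ (hs m) _ (hs m)
  simp only [h3] at h1
  exact tendsto_nhds_unique h1 h2

end Pool.Agent.Helper99.MD
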