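import Mathlib
import Pool.Agent.Helper99.MD.Path

/-! The rotation of Wiener space generated by the half shift. -/

set_option autoImplicit false
set_option linter.unusedSectionVars false

open MeasureTheory ProbabilityTheory Filter Topology
open scoped ENNReal NNReal

namespace Pool.Agent.Helper99.MD

/-- `t ↦ (t + 1/2) ∧ 1` -/
noncomputable def up (t : unitInterval) : unitInterval :=
  Set.projIcc (0:ℝ) 1 zero_le_one ((t : ℝ) + 1 / 2)

/-- `t ↦ (t - 1/2) ∨ 0` -/
noncomputable def dn (t : unitInterval) : unitInterval :=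
  Set.projIcc (0:ℝ) 1 zero_le_one ((t : ℝ) - 1 / 2)

/-- the midpoint -/
noncomputable def hf : unitInterval := ⟨1 / 2, by norm_num, by norm_num⟩

theorem continuous_up : Continuous up := by
  unfold up
  exact continuous_projIcc.comp (by fun_prop)

theorem continuous_dn : Continuous dn := by
  unfold dn
  exact continuous_projIcc.comp (by fun_prop)

theorem up_coe (t : unitInterval) : (up t : ℝ) = min 1 ((t:ℝ) + 1 / 2) := by
  unfold up
  rw [Set.coe_projIcc]
  have := t.2.1
  rw [max_eq_right]
  apply le_min zero_le_one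
  linarith

theorem dn_coe (t : unitInterval) : (dn t : ℝ) = max 0 ((t:ℝ) - 1 / 2) := by
  unfold dn
  rw [Set.coe_projIcc]
  have := t.2.2
  rw [min_eq_right]
  linarith

theorem dn_zero : dn 0 = 0 := by
  apply Subtype.ext
  rw [dn_coe]
  norm_num

theorem up_zero : up 0 = hf := by
  apply Subtype.ext
  rw [up_coe]
  unfold hf
  norm_num

theorem fn_zero {n : ℕ} (ω : Path n) : fn ω 0 = 0 := Subtype.property ω

/-- the half shift `(Aω)(t) = ω((t+1/2) ∧ 1) - ω(1/2) - ω((t-1/2) ∨ 0)` -/
noncomputable def shiftFun {n : ℕ} (ω : Path n) : Path n :=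
  ⟨⟨fun t => fn ω (up t) - fn ω hf - fn ω (dn t), by
        have h1 := continuous_up
        have h2 := continuous_dn
        fun_prop⟩, by
    change fn ω (up 0) - fn ω hf - fn ω (dn 0) = 0
    rw [up_zero, dn_zero, sub_self, zero_sub, neg_eq_zero]
    exact fn_zero ω⟩

theorem val_shift {n : ℕ} (ω : Path n) (t : unitInterval) (i : Fin n) :
    val (shiftFun ω) t i = val ω (up t) i - val ω hf i - val ω (dn t) i := rfl

theorem val_add {n : ℕ} (ω η : Path n) (t : unitInterval) (i : Fin n) :
    val (ω + η) t i = val ω t i + val η t i := rfl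

theorem val_smul {n : ℕ} (c : ℝ) (ω : Path n) (t : unitInterval) (i : Fin n) :
    val (c • ω) t i = c * val ω t i := rfl

theorem val_zero {n : ℕ} (ω : Path n) (i : Fin n) : val ω 0 i = 0 := by
  unfold val
  rw [fn_zero]
  rfl

/-- the half shift as a continuous linear map -/
noncomputable def shiftL (n : ℕ) : Path n →L[ℝ] Path n :=
  LinearMap.mkContinuous
    { toFun := shiftFun
      map_add' := by
        intro ω η
        refine path_ext fun t i => ?_
        simp only [val_shift, val_add]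
        ring
      map_smul' := by
        intro c ω
        refine path_ext fun t i => ?_
        simp only [val_shift, val_smul, RingHom.id_apply]
        ring } 3 (by
    intro ω
    change ‖fn (shiftFun ω)‖ ≤ 3 * ‖fn ω‖
    rw [ContinuousMap.norm_le _ (by positivity)]
    intro t
    set w := fn ω
    change ‖w (up t) - w hf - w (dn t)‖ ≤ 3 * ‖w‖
    have h1 := w.norm_coe_le_norm (up t)
    have h2 := w.norm_coe_le_norm hf
    have h3 := w.norm_coe_le_norm (dn t)
    have h4 := norm_sub_le (w (up t) - w hf) (w (dn t))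
    have h5 := norm_sub_le (w (up t)) (w hf)
    linarith)

theorem shiftL_apply {n : ℕ} (ω : Path n) : shiftL n ω = shiftFun ω := rfl

theorem shift_sq {n : ℕ} (ω : Path n) : shiftL n (shiftL n ω) = -ω := by
  refine path_ext fun t i => ?_
  have e : val (-ω) t i = - val ω t i := rfl
  rw [e, shiftL_apply, shiftL_apply]
  simp only [val_shift]
  have hup1 : ∀ s : unitInterval, 1 / 2 ≤ (s:ℝ) → up s = 1 := by
    intro s hs
    apply Subtype.ext
    rw [up_coe, min_eq_left (by linarith)]
    rfl
  have hdn0 : ∀ s : unitInterval, (s:ℝ) ≤ 1 / 2 → dn s = 0 := by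
    intro s hs
    apply Subtype.ext
    rw [dn_coe, max_eq_left (by linarith)]
    rfl
  have hhf : ((hf : unitInterval) : ℝ) = 1 / 2 := rfl
  rw [hup1 hf (le_of_eq hhf.symm), hdn0 hf (le_of_eq hhf), val_zero]
  rcases le_total (t:ℝ) (1 / 2) with ht | ht
  · have h1 : (up t : ℝ) = (t:ℝ) + 1 / 2 := by
      rw [up_coe, min_eq_right (by linarith)]
    have h2 : dn (up t) = t := by
      apply Subtype.ext
      rw [dn_coe, h1, max_eq_right (by have := t.2.1; linarith)]
      ring
    have h3 : up (up t) = 1 := hup1 _ (by rw [h1]; have := t.2.1; linarith)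
    rw [h2, h3, hdn0 t ht, up_zero, dn_zero, val_zero]
    ring
  · have h1 : (dn t : ℝ) = (t:ℝ) - 1 / 2 := by
      rw [dn_coe, max_eq_right (by linarith)]
    have h2 : up (dn t) = t := by
      apply Subtype.ext
      rw [up_coe, h1, min_eq_right (by have := t.2.2; linarith)]
      ring
    have h3 : dn (dn t) = 0 := hdn0 _ (by rw [h1]; have := t.2.2; linarith)
    have h4 : dn (1 : unitInterval) = hf := by
      apply Subtype.ext
      rw [dn_coe, hhf]
      norm_num
    rw [h2, h3, hup1 t ht, hup1 1 (by norm_num), h4, val_zero]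
    ring

/-! ### invariance of Wiener measure -/

theorem min_cov1 {s t : ℝ} (hs0 : 0 ≤ s) (hs1 : s ≤ 1) (ht0 : 0 ≤ t) (ht1 : t ≤ 1) :
    min (min 1 (s + 1 / 2)) (min 1 (t + 1 / 2)) - min (min 1 (s + 1 / 2)) (1 / 2) -
      min (min 1 (s + 1 / 2)) (max 0 (t - 1 / 2)) -
    (min (1 / 2) (min 1 (t + 1 / 2)) - min (1 / 2) (1 / 2) - min (1 / 2) (max 0 (t - 1 / 2))) -
    (min (max 0 (s - 1 / 2)) (min 1 (t + 1 / 2)) - min (max 0 (s - 1 / 2)) (1 / 2) -
      min (max 0 (s - 1 / 2)) (max 0 (t - 1 / 2))) = min s t := by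
  rcases le_total s (1 / 2) with hs | hs
  · have a1 : min 1 (s + 1 / 2) = s + 1 / 2 := min_eq_right (by linarith)
    have a2 : max 0 (s - 1 / 2) = 0 := max_eq_left (by linarith)
    rcases le_total t (1 / 2) with ht | ht
    · have b1 : min 1 (t + 1 / 2) = t + 1 / 2 := min_eq_right (by linarith)
      have b2 : max 0 (t - 1 / 2) = 0 := max_eq_left (by linarith)
      rw [a1, a2, b1, b2, min_eq_right (by linarith : (1:ℝ) / 2 ≤ s + 1 / 2),
        min_eq_right (by linarith : (0:ℝ) ≤ s + 1 / 2), min_eq_left (by linarith : 1 / 2 ≤ t + 1 / 2),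
        min_self, min_eq_right (by norm_num : (0:ℝ) ≤ 1 / 2),
        min_eq_left (by linarith : (0:ℝ) ≤ t + 1 / 2), min_eq_left (by norm_num : (0:ℝ) ≤ 1 / 2),
        min_self, min_add_add_right]
      ring
    · have b1 : min 1 (t + 1 / 2) = 1 := min_eq_left (by linarith)
      have b2 : max 0 (t - 1 / 2) = t - 1 / 2 := max_eq_right (by linarith)
      rw [a1, a2, b1, b2, min_eq_left (by linarith : s + 1 / 2 ≤ 1),
        min_eq_right (by linarith : (1:ℝ) / 2 ≤ s + 1 / 2),
        min_eq_right (by linarith : t - 1 / 2 ≤ s + 1 / 2), min_eq_left (by norm_num : (1:ℝ) / 2 ≤ 1),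
        min_self, min_eq_right (by linarith : t - 1 / 2 ≤ 1 / 2),
        min_eq_left (by norm_num : (0:ℝ) ≤ 1), min_eq_left (by norm_num : (0:ℝ) ≤ 1 / 2),
        min_eq_left (by linarith : 0 ≤ t - 1 / 2), min_eq_left (by linarith : s ≤ t)]
      ring
  · have a1 : min 1 (s + 1 / 2) = 1 := min_eq_left (by linarith)
    have a2 : max 0 (s - 1 / 2) = s - 1 / 2 := max_eq_right (by linarith)
    rcases le_total t (1 / 2) with ht | ht
    · have b1 : min 1 (t + 1 / 2) = t + 1 / 2 := min_eq_right (by linarith)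
      have b2 : max 0 (t - 1 / 2) = 0 := max_eq_left (by linarith)
      rw [a1, a2, b1, b2, min_eq_right (by linarith : t + 1 / 2 ≤ 1),
        min_eq_right (by norm_num : (1:ℝ) / 2 ≤ 1), min_eq_right (by norm_num : (0:ℝ) ≤ 1),
        min_eq_left (by linarith : 1 / 2 ≤ t + 1 / 2), min_self,
        min_eq_right (by norm_num : (0:ℝ) ≤ 1 / 2), min_eq_left (by linarith : s - 1 / 2 ≤ t + 1 / 2),
        min_eq_left (by linarith : s - 1 / 2 ≤ 1 / 2), min_eq_right (by linarith : 0 ≤ s - 1 / 2),
        min_eq_right (by linarith : t ≤ s)]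
      ring
    · have b1 : min 1 (t + 1 / 2) = 1 := min_eq_left (by linarith)
      have b2 : max 0 (t - 1 / 2) = t - 1 / 2 := max_eq_right (by linarith)
      rw [a1, a2, b1, b2, min_self, min_eq_right (by norm_num : (1:ℝ) / 2 ≤ 1),
        min_eq_right (by linarith : t - 1 / 2 ≤ 1), min_eq_left (by norm_num : (1:ℝ) / 2 ≤ 1),
        min_self, min_eq_right (by linarith : t - 1 / 2 ≤ 1 / 2),
        min_eq_left (by linarith : s - 1 / 2 ≤ 1), min_eq_left (by linarith : s - 1 / 2 ≤ 1 / 2),
        min_sub_sub_right]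
      ring

theorem min_cov2 {s t : ℝ} (hs0 : 0 ≤ s) (hs1 : s ≤ 1) (ht0 : 0 ≤ t) (ht1 : t ≤ 1) :
    (min s (min 1 (t + 1 / 2)) - min s (1 / 2) - min s (max 0 (t - 1 / 2))) +
    (min (min 1 (s + 1 / 2)) t - min (1 / 2) t - min (max 0 (s - 1 / 2)) t) = 0 := by
  rcases le_total s (1 / 2) with hs | hs
  · have a1 : min 1 (s + 1 / 2) = s + 1 / 2 := min_eq_right (by linarith)
    have a2 : max 0 (s - 1 / 2) = 0 := max_eq_left (by linarith)
    rcases le_total t (1 / 2) with ht | ht
    · have b1 : min 1 (t + 1 / 2) = t + 1 / 2 := min_eq_right (by linarith)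
      have b2 : max 0 (t - 1 / 2) = 0 := max_eq_left (by linarith)
      rw [a1, a2, b1, b2, min_eq_left (by linarith : s ≤ t + 1 / 2), min_eq_left hs,
        min_eq_right hs0, min_eq_right (by linarith : t ≤ s + 1 / 2), min_eq_right ht,
        min_eq_left ht0]
      ring
    · have b1 : min 1 (t + 1 / 2) = 1 := min_eq_left (by linarith)
      have b2 : max 0 (t - 1 / 2) = t - 1 / 2 := max_eq_right (by linarith)
      rw [a1, a2, b1, b2, min_eq_left hs1, min_eq_left hs, min_eq_left ht, min_eq_left ht0]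
      rcases le_total s (t - 1 / 2) with h | h
      · rw [min_eq_left h, min_eq_left (by linarith : s + 1 / 2 ≤ t)]
        ring
      · rw [min_eq_right h, min_eq_right (by linarith : t ≤ s + 1 / 2)]
        ring
  · have a1 : min 1 (s + 1 / 2) = 1 := min_eq_left (by linarith)
    have a2 : max 0 (s - 1 / 2) = s - 1 / 2 := max_eq_right (by linarith)
    rcases le_total t (1 / 2) with ht | ht
    · have b1 : min 1 (t + 1 / 2) = t + 1 / 2 := min_eq_right (by linarith)
      have b2 : max 0 (t - 1 / 2) = 0 := max_eq_left (by linarith)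
      rw [a1, a2, b1, b2, min_eq_right hs, min_eq_right hs0, min_eq_right ht1, min_eq_right ht]
      rcases le_total s (t + 1 / 2) with h | h
      · rw [min_eq_left h, min_eq_left (by linarith : s - 1 / 2 ≤ t)]
        ring
      · rw [min_eq_right h, min_eq_right (by linarith : t ≤ s - 1 / 2)]
        ring
    · have b1 : min 1 (t + 1 / 2) = 1 := min_eq_left (by linarith)
      have b2 : max 0 (t - 1 / 2) = t - 1 / 2 := max_eq_right (by linarith)
      rw [a1, a2, b1, b2, min_eq_left hs1, min_eq_right hs,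
        min_eq_right (by linarith : t - 1 / 2 ≤ s), min_eq_right ht1, min_eq_left ht,
        min_eq_left (by linarith : s - 1 / 2 ≤ t)]
      ring

section

variable {n : ℕ} {P : Measure (Path n)}

theorem q_ev (hP : IsWiener P) (s t : unitInterval) (i j : Fin n) :
    q P (ev s i) (ev t j) = if i = j then min (s:ℝ) t else 0 := hP.cov s t i j

/-- evaluation of the shifted path -/
theorem ev_shift (t : unitInterval) (i : Fin n) :
    (ev t i).comp (shiftL n) = ev (up t) i - ev hf i - ev (dn t) i := by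
  ext ω
  rfl

theorem q_shift2 (hP : IsWiener P) (s t : unitInterval) (i : Fin n) :
    q P ((ev s i).comp (shiftL n)) ((ev t i).comp (shiftL n)) = min (s:ℝ) t := by
  rw [ev_shift, ev_shift, q_sub3_left hP.cg, q_sub3_right hP.cg, q_sub3_right hP.cg,
    q_sub3_right hP.cg]
  simp only [q_ev hP, if_true, up_coe, dn_coe]
  have hh : ((hf : unitInterval) : ℝ) = 1 / 2 := rfl
  rw [hh]
  exact min_cov1 s.2.1 s.2.2 t.2.1 t.2.2

theorem q_shift1 (hP : IsWiener P) (s t : unitInterval) (i : Fin n) :
    q P (ev s i) ((ev t i).comp (shiftL n)) + q P ((ev s i).comp (shiftL n)) (ev t i) = 0 := by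
  rw [ev_shift, ev_shift, q_sub3_left hP.cg, q_sub3_right hP.cg]
  simp only [q_ev hP, if_true, up_coe, dn_coe]
  have hh : ((hf : unitInterval) : ℝ) = 1 / 2 := rfl
  rw [hh]
  exact min_cov2 s.2.1 s.2.2 t.2.1 t.2.2

theorem q_shift_ne (hP : IsWiener P) (s t : unitInterval) {i j : Fin n} (hij : i ≠ j) :
    q P ((ev s i).comp (shiftL n)) ((ev t j).comp (shiftL n)) = 0 := by
  rw [ev_shift, ev_shift, q_sub3_left hP.cg, q_sub3_right hP.cg, q_sub3_right hP.cg,
    q_sub3_right hP.cg]
  simp only [q_ev hP, if_neg hij]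
  ring

theorem q_shift_ne1 (hP : IsWiener P) (s t : unitInterval) {i j : Fin n} (hij : i ≠ j) :
    q P (ev s i) ((ev t j).comp (shiftL n)) + q P ((ev s i).comp (shiftL n)) (ev t j) = 0 := by
  rw [ev_shift, ev_shift, q_sub3_left hP.cg, q_sub3_right hP.cg]
  simp only [q_ev hP, if_neg hij]
  ring

theorem map_rot (hP : IsWiener P) (θ : ℝ) : P.map (rotL (E := Path n) (shiftL n) θ) = P := by
  have h := hP.cg
  refine eq_of_cov (isCG_map h _) h fun a b => ?_
  obtain ⟨s, i⟩ := a
  obtain ⟨t, j⟩ := b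
  simp only
  rw [q_map, q_rotL h]
  rcases eq_or_ne i j with rfl | hij
  · rw [q_shift2 hP, q_shift1 hP, q_ev hP, if_pos rfl]
    have k3 := Real.sin_sq_add_cos_sq θ
    linear_combination (min (s:ℝ) t) * k3
  · rw [q_shift_ne hP s t hij, q_shift_ne1 hP s t hij, q_ev hP, if_neg hij]
    ring

theorem rot_shift (hP : IsWiener P) : Rot P (shiftL n) :=
  rot_of shift_sq (map_rot hP)

end

end Pool.Agent.Helper99.MD
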