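import Mathlib
import Pool.Agent.Helper99.MD.Shift

/-! The derivation is not a vector field plus `div A grad`. -/

set_option autoImplicit false
set_option linter.unusedSectionVars false

open MeasureTheory ProbabilityTheory Filter Topology
open scoped ENNReal NNReal InnerProductSpace

namespace Pool.Agent.Helper99.MD

variable {n : ℕ}

/-! ### gradients of linear functionals -/

/-- the density of evaluation -/
noncomputable def vv (t : unitInterval) (i : Fin n) (s : unitInterval) :
    EuclideanSpace ℝ (Fin n) := if s ≤ t then EuclideanSpace.single i 1 else 0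

theorem measurable_vv (t : unitInterval) (i : Fin n) : Measurable (vv (n := n) t i) :=
  Measurable.ite measurableSet_Iic measurable_const measurable_const

theorem norm_vv_le (t : unitInterval) (i : Fin n) (s : unitInterval) : ‖vv t i s‖ ≤ 1 := by
  unfold vv
  split_ifs
  · simp
  · simp

theorem memLp_vv (t : unitInterval) (i : Fin n) : MemLp (vv (n := n) t i) 2 volume :=
  MemLp.of_bound (measurable_vv t i).aestronglyMeasurable 1
    (Eventually.of_forall fun s => norm_vv_le t i s)

theorem inner_vv (t : unitInterval) (i : Fin n) (s : unitInterval) (x : EuclideanSpace ℝ (Fin n)) :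
    ⟪vv t i s, x⟫_ℝ = if s ≤ t then x i else 0 := by
  unfold vv
  split_ifs
  · rw [EuclideanSpace.inner_single_left]
    simp
  · exact inner_zero_left _

theorem val_eq_int {h : unitInterval → EuclideanSpace ℝ (Fin n)} (hh : MemLp h 2 volume)
    {k : Path n} (hk : ∀ t, fn k t = ∫ s in Set.Iic t, h s) (t : unitInterval) (i : Fin n) :
    val k t i = ∫ s, ⟪vv t i s, h s⟫_ℝ := by
  have hi : Integrable h volume := hh.integrable (by norm_num)
  unfold val
  rw [hk t]
  have e1 : (∫ s in Set.Iic t, h s : EuclideanSpace ℝ (Fin n)) i =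
      ∫ s in Set.Iic t, h s i := by
    have := (EuclideanSpace.proj (𝕜 := ℝ) i).integral_comp_comm
      (μ := volume.restrict (Set.Iic t)) (φ := h) hi.restrict
    exact this.symm
  rw [e1, ← integral_indicator measurableSet_Iic]
  congr 1
  funext s
  rw [inner_vv, Set.indicator_apply]
  rfl

theorem int_vv_mul {h : unitInterval → EuclideanSpace ℝ (Fin n)} (hh : MemLp h 2 volume)
    (t : unitInterval) (i : Fin n) : Integrable (fun s => ⟪vv t i s, h s⟫_ℝ) volume := by
  have hi : Integrable h volume := hh.integrable (by norm_num)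
  refine Integrable.mono hi ?_ (Eventually.of_forall fun s => ?_)
  · exact (measurable_vv t i).aestronglyMeasurable.inner hi.1
  · refine (norm_inner_le_norm _ _).trans ?_
    calc ‖vv t i s‖ * ‖h s‖ ≤ 1 * ‖h s‖ := by
          gcongr
          exact norm_vv_le t i s
      _ = ‖h s‖ := one_mul _

theorem grad_lin {P : Measure (Path n)} (hP : IsWiener P) (L : StrongDual ℝ (Path n))
    {v : unitInterval → EuclideanSpace ℝ (Fin n)} (hv : MemLp v 2 volume)
    (hL : ∀ h : unitInterval → EuclideanSpace ℝ (Fin n), MemLp h 2 volume →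
      ∀ k : Path n, (∀ t, fn k t = ∫ s in Set.Iic t, h s) → L k = ∫ s, ⟪v s, h s⟫_ℝ) :
    IsGrad P (linD hP.cg L).cl (fun w => v w.2) := by
  have := hP.cg.prob
  refine ⟨?_, fun ω => L ω, linD_coe hP.cg L, ?_⟩
  · exact hv.comp_measurePreserving measurePreserving_snd
  · intro h hh k hk ε hε
    have e : ∀ᶠ η : ℝ in 𝓝[≠] 0, P {x | ε ≤ edist ((L (x + η • k) - L x) / η)
        (∫ s, ⟪v s, h s⟫_ℝ)} = 0 := by
      filter_upwards [self_mem_nhdsWithin] with η hη
      have hη' : η ≠ 0 := hη
      have e1 : {x | ε ≤ edist ((L (x + η • k) - L x) / η) (∫ s, ⟪v s, h s⟫_ℝ)} = ∅ := by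
        ext x
        simp only [Set.mem_ofPred_eq, Set.mem_empty_iff_false, iff_false, not_le]
        have e2 : (L (x + η • k) - L x) / η = ∫ s, ⟪v s, h s⟫_ℝ := by
          rw [← hL h hh k hk, map_add, map_smul, smul_eq_mul]
          field_simp
          ring
        rw [e2, edist_self]
        exact hε
      rw [e1, measure_empty]
    exact tendsto_const_nhds.congr' (e.mono fun η hη => hη.symm)

/-! ### the lower bound -/

section

variable {P : Measure (Path n)}

/-- the weight `1_{s ≤ t} ‖X‖²` -/
noncomputable def wt (X : Path n × unitInterval → EuclideanSpace ℝ (Fin n)) (t : unitInterval)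
    (w : Path n × unitInterval) : ℝ := if w.2 ≤ t then ‖X w‖ ^ 2 else 0

theorem wt_le (X : Path n × unitInterval → EuclideanSpace ℝ (Fin n)) (t : unitInterval)
    (w : Path n × unitInterval) : ‖wt X t w‖ ≤ ‖X w‖ ^ 2 := by
  unfold wt
  split_ifs
  · simp
  · simp

theorem measurableSet_le_snd (t : unitInterval) :
    MeasurableSet {w : Path n × unitInterval | w.2 ≤ t} :=
  measurable_snd measurableSet_Iic

theorem wt_aesm {X : Path n × unitInterval → EuclideanSpace ℝ (Fin n)}
    (hX : MemLp X 2 (P.prod volume)) (t : unitInterval) :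
    AEStronglyMeasurable (wt X t) (P.prod volume) := by
  have h1 : AEStronglyMeasurable (fun w => ‖X w‖ ^ 2) (P.prod volume) := hX.1.norm.pow 2
  have e : wt X t = Set.indicator {w : Path n × unitInterval | w.2 ≤ t} (fun w => ‖X w‖ ^ 2) := by
    funext w
    unfold wt
    rw [Set.indicator_apply]
    rfl
  rw [e]
  exact h1.indicator (measurableSet_le_snd t)

theorem sq_integrable {X : Path n × unitInterval → EuclideanSpace ℝ (Fin n)}
    (hX : MemLp X 2 (P.prod volume)) : Integrable (fun w => ‖X w‖ ^ 2) (P.prod volume) :=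
  hX.integrable_norm_pow (by norm_num)

/-- the key lower bound -/
theorem lower (hn : 0 < n) (hP : IsWiener P)
    {X : Path n × unitInterval → EuclideanSpace ℝ (Fin n)}
    {a : Path n × unitInterval → Matrix (Fin n) (Fin n) ℝ}
    (hX : MemLp X 2 (P.prod volume)) (ha : ∀ i j, MemLp (fun w => a w i j) 2 (P.prod volume))
    (hs : IsSum P hP (derL hP.cg (rot_shift hP)) X a) {t : unitInterval} (ht0 : 0 < (t:ℝ))
    (ht1 : (t:ℝ) ≤ 1 / 2) : 1 ≤ ∫ w, wt X t w ∂(P.prod volume) := by
  have := hP.cg.prob
  have h := hP.cg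
  set i : Fin n := ⟨0, hn⟩ with hi
  -- the two linear functionals
  set L : StrongDual ℝ (Path n) := ev t i with hL
  set M : StrongDual ℝ (Path n) := (ev t i).comp (shiftL n) with hM
  have hgL : IsGrad P (linD h L).cl (fun w => vv t i w.2) :=
    grad_lin hP L (memLp_vv t i) fun g hg k hk => val_eq_int hg hk t i
  set W : unitInterval → EuclideanSpace ℝ (Fin n) := fun s => vv (up t) i s - vv hf i s - vv (dn t) i s
    with hW
  have hgM : IsGrad P (linD h M).cl (fun w => W w.2) := by
    refine grad_lin hP M (((memLp_vv _ i).sub (memLp_vv _ i)).sub (memLp_vv _ i)) ?_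
    intro g hg k hk
    have e1 : M k = val k (up t) i - val k hf i - val k (dn t) i := rfl
    have s1 : Integrable (fun s => ⟪vv (up t) i s, g s⟫_ℝ - ⟪vv hf i s, g s⟫_ℝ) volume :=
      (int_vv_mul hg _ i).sub (int_vv_mul hg _ i)
    rw [e1, val_eq_int hg hk, val_eq_int hg hk, val_eq_int hg hk,
      ← integral_sub (int_vv_mul hg _ i) (int_vv_mul hg _ i),
      ← integral_sub s1 (int_vv_mul hg _ i)]
    congr 1
    funext s
    rw [hW]
    simp only [inner_sub_left]
  -- integrability of the matrix term
  have hact : MemLp (fun w : Path n × unitInterval => act (a w) (vv t i w.2)) 2 (P.prod volume) := by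
    have e1 : (fun w : Path n × unitInterval => act (a w) (vv t i w.2)) =
        fun w => ∑ j, (if w.2 ≤ t then a w j i else 0) • (EuclideanSpace.single j (1:ℝ)) := by
      funext w
      ext l
      unfold act vv
      simp only [WithLp.ofLp_sum, Finset.sum_apply, WithLp.ofLp_smul, Pi.smul_apply,
        PiLp.single_apply, smul_eq_mul, mul_ite, mul_one, mul_zero]
      rw [Finset.sum_ite_eq Finset.univ l]
      rw [if_pos (Finset.mem_univ l)]
      split_ifs
      · simp [Matrix.mulVec, dotProduct]
      · simp
    rw [e1]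
    refine memLp_finsetSum _ fun j _ => ?_
    have e2 : MemLp (fun w : Path n × unitInterval => if w.2 ≤ t then a w j i else 0) 2
        (P.prod volume) := by
      have e3 : (fun w : Path n × unitInterval => if w.2 ≤ t then a w j i else 0) =
          Set.indicator {w : Path n × unitInterval | w.2 ≤ t} (fun w => a w j i) := by
        funext w
        rw [Set.indicator_apply]
        rfl
      rw [e3]
      exact (ha j i).indicator (measurableSet_le_snd t)
    exact (ContinuousLinearMap.toSpanSingleton ℝ (EuclideanSpace.single j (1:ℝ))).comp_memLp' e2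
  obtain ⟨G, ⟨-, hG2, hGd⟩, hGe⟩ := hs (linD h L) _ hgL hact
  have hd := hGd (linD h M) _ hgM
  -- the divergence term vanishes
  have hzero : ∫ w : Path n × unitInterval, ⟪act (a w) (vv t i w.2), W w.2⟫_ℝ ∂(P.prod volume) = 0 := by
    have h0 : ∀ᵐ w ∂(P.prod (volume : Measure unitInterval)), w.2 ≠ 0 := by
      have : Tendsto (Prod.snd : Path n × unitInterval → unitInterval)
          (ae (P.prod volume)) (ae volume) := Measure.quasiMeasurePreserving_snd.tendsto_ae
      have h1 : ∀ᵐ s : unitInterval, s ≠ 0 := by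
        have : (volume : Measure unitInterval) {0} = 0 := measure_singleton 0
        exact compl_mem_ae_iff.2 this
      exact this.eventually h1
    refine integral_eq_zero_of_ae ?_
    filter_upwards [h0] with w hw
    change ⟪act (a w) (vv t i w.2), W w.2⟫_ℝ = 0
    by_cases hwt : w.2 ≤ t
    · have e1 : W w.2 = 0 := by
        have hwt' : (w.2 : ℝ) ≤ t := hwt
        have f1 : w.2 ≤ up t := by
          change (w.2 : ℝ) ≤ (up t : ℝ)
          rw [up_coe, min_eq_right (by linarith)]
          linarith
        have f2 : w.2 ≤ hf := by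
          change (w.2 : ℝ) ≤ 1 / 2
          linarith
        have f3 : ¬ w.2 ≤ dn t := by
          intro hc
          have hc' : (w.2 : ℝ) ≤ (dn t : ℝ) := hc
          rw [dn_coe, max_eq_left (by linarith)] at hc'
          apply hw
          apply Subtype.ext
          exact le_antisymm hc' w.2.2.1
        rw [hW]
        simp only [vv, if_pos f1, if_pos f2, if_neg f3, sub_self]
      rw [e1, inner_zero_right]
    · have e1 : act (a w) (vv t i w.2) = 0 := by
        unfold vv act
        rw [if_neg hwt]
        simp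
      rw [e1, inner_zero_left]
  rw [hzero] at hd
  -- the main identity
  have hδ := der_linD h (rot_shift hP) L
  have hMM : ∫ ω, M ω * M ω ∂P = t := by
    have := q_shift2 hP t t i
    rw [min_self] at this
    exact this
  have hMi : Integrable (fun ω => M ω ^ 2) P := by
    have := (h.int_mul M M)
    refine this.congr (Eventually.of_forall fun ω => ?_)
    simp only
    ring
  have hMm : MemLp (fun ω => M ω) 2 P := h.memLp_dual M 2 (by norm_num)
  have hprod : Integrable (fun w : Path n × unitInterval => M w.1 * ⟪vv t i w.2, X w⟫_ℝ)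
      (P.prod volume) := by
    have i1 : Integrable (fun w : Path n × unitInterval => M w.1 ^ 2) (P.prod volume) :=
      hMi.comp_fst volume
    refine (i1.add (sq_integrable hX)).mono' ?_ (Eventually.of_forall fun w => ?_)
    · refine AEStronglyMeasurable.mul ?_ ?_
      · exact (M.continuous.comp continuous_fst).aestronglyMeasurable
      · exact ((measurable_vv t i).comp measurable_snd).aestronglyMeasurable.inner hX.1
    · rw [norm_mul]
      have e1 : ‖⟪vv t i w.2, X w⟫_ℝ‖ ≤ ‖X w‖ := by
        refine (norm_inner_le_norm _ _).trans ?_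
        calc ‖vv t i w.2‖ * ‖X w‖ ≤ 1 * ‖X w‖ := by
              gcongr
              exact norm_vv_le t i _
          _ = ‖X w‖ := one_mul _
      have e2 : ‖M w.1‖ ^ 2 = M w.1 ^ 2 := by rw [Real.norm_eq_abs, sq_abs]
      simp only [Pi.add_apply]
      nlinarith [norm_nonneg (M w.1), norm_nonneg (X w), norm_nonneg (⟪vv t i w.2, X w⟫_ℝ),
        sq_nonneg (‖M w.1‖ - ‖X w‖)]
  have hmain : (t:ℝ) = ∫ w : Path n × unitInterval, M w.1 * ⟪vv t i w.2, X w⟫_ℝ ∂(P.prod volume) := by
    rw [integral_prod _ hprod]
    have e1 : ∫ ω, M ω * M ω ∂P = ∫ ω, (M ω * (∫ s, ⟪vv t i s, X (ω, s)⟫_ℝ) + G ω * M ω) ∂P := by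
      refine integral_congr_ae ?_
      filter_upwards [hGe, hδ] with ω g1 g2
      have g3 : M ω = (∫ s, ⟪vv t i s, X (ω, s)⟫_ℝ) + G ω := by
        rw [← g1]
        exact g2.symm
      calc M ω * M ω = M ω * ((∫ s, ⟪vv t i s, X (ω, s)⟫_ℝ) + G ω) := by rw [← g3]
        _ = _ := by ring
    have e2 : ∫ ω, G ω * M ω ∂P = 0 := by
      rw [← hd]
      refine integral_congr_ae ?_
      filter_upwards [linD_coe h M] with ω g1
      rw [g1]
    have i1 : Integrable (fun ω => M ω * (∫ s, ⟪vv t i s, X (ω, s)⟫_ℝ)) P := by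
      refine hprod.integral_prod_left.congr (Eventually.of_forall fun ω => ?_)
      exact integral_const_mul (M ω) _
    have i2 : Integrable (fun ω => G ω * M ω) P := hG2.integrable_mul hMm
    rw [integral_add i1 i2, e2, add_zero, hMM] at e1
    rw [e1]
    refine integral_congr_ae (Eventually.of_forall fun ω => ?_)
    exact (integral_const_mul (M ω) _).symm
  -- the pointwise inequality
  have hind : Integrable (fun w : Path n × unitInterval => M w.1 ^ 2 * (if w.2 ≤ t then (1:ℝ) else 0))
      (P.prod volume) := by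
    have : Integrable (fun s : unitInterval => if s ≤ t then (1:ℝ) else 0) volume := by
      refine Integrable.of_bound (C := 1) ?_ (Eventually.of_forall fun s => ?_)
      · exact (Measurable.ite measurableSet_Iic measurable_const measurable_const).aestronglyMeasurable
      · split_ifs <;> simp
    exact hMi.mul_prod this
  have hwt : Integrable (wt X t) (P.prod volume) :=
    (sq_integrable hX).mono' (wt_aesm hX t) (Eventually.of_forall fun w => wt_le X t w)
  have hineq : 2 * ∫ w : Path n × unitInterval, M w.1 * ⟪vv t i w.2, X w⟫_ℝ ∂(P.prod volume) ≤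
      (t:ℝ) * ∫ w, wt X t w ∂(P.prod volume) +
      (t:ℝ)⁻¹ * ∫ w : Path n × unitInterval, M w.1 ^ 2 * (if w.2 ≤ t then (1:ℝ) else 0)
        ∂(P.prod volume) := by
    rw [← integral_const_mul, ← integral_const_mul, ← integral_const_mul, ← integral_add
      (hwt.const_mul _) (hind.const_mul _)]
    refine integral_mono (hprod.const_mul _) ((hwt.const_mul _).add (hind.const_mul _)) fun w => ?_
    simp only
    unfold wt
    rw [inner_vv]
    split_ifs with hw
    · have e1 : (X w i) ^ 2 ≤ ‖X w‖ ^ 2 := by
        rw [EuclideanSpace.norm_sq_eq]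
        have := Finset.single_le_sum (f := fun j => ‖X w j‖ ^ 2) (fun j _ => by positivity)
          (Finset.mem_univ i)
        simpa using this
      have e2 : 0 ≤ (t:ℝ)⁻¹ * ((t:ℝ) * X w i - M w.1) ^ 2 := by positivity
      have e3 : (t:ℝ)⁻¹ * ((t:ℝ) * X w i - M w.1) ^ 2 =
          (t:ℝ) * (X w i) ^ 2 - 2 * (M w.1 * X w i) + (t:ℝ)⁻¹ * M w.1 ^ 2 := by
        field_simp
        ring
      have e4 : (t:ℝ) * (X w i) ^ 2 ≤ (t:ℝ) * ‖X w‖ ^ 2 := mul_le_mul_of_nonneg_left e1 ht0.le
      linarith
    · simp
  have hvol : ∫ w : Path n × unitInterval, M w.1 ^ 2 * (if w.2 ≤ t then (1:ℝ) else 0)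
      ∂(P.prod volume) = t * t := by
    rw [integral_prod_mul (fun ω => M ω ^ 2) (fun s : unitInterval => if s ≤ t then (1:ℝ) else 0)]
    have e1 : ∫ ω, M ω ^ 2 ∂P = t := by
      rw [← hMM]
      congr 1
      funext ω
      ring
    have e2 : ∫ s : unitInterval, (if s ≤ t then (1:ℝ) else 0) = t := by
      have e3 : (fun s : unitInterval => if s ≤ t then (1:ℝ) else 0) =
          Set.indicator (Set.Iic t) (fun _ => (1:ℝ)) := by
        funext s
        rw [Set.indicator_apply]
        rfl
      rw [e3, integral_indicator measurableSet_Iic, setIntegral_const, smul_eq_mul, mul_one,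
        Measure.real, unitInterval.volume_Iic, ENNReal.toReal_ofReal t.2.1]
    rw [e1, e2]
  rw [hvol, ← hmain] at hineq
  have e5 : (t:ℝ)⁻¹ * (t * t) = t := by field_simp
  rw [e5] at hineq
  have e6 : (t:ℝ) * 1 ≤ (t:ℝ) * ∫ w, wt X t w ∂(P.prod volume) := by linarith
  exact le_of_mul_le_mul_left e6 ht0

end

/-- On Wiener space over `ℝ^n`, for every `n ≥ 1`, there is a derivation of `D^∞` which is not the
sum of a (square integrable) vector field and an operator `div A grad` with a (square integrable)
matrix valued process `A`. -/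
theorem main : ∀ n : ℕ, 0 < n → ∀ (P : Measure (Path n)) (hP : IsWiener P),
    ∃ δ : DSp P hP.cg →L[ℝ] DSp P hP.cg, Leibniz δ ∧
      ¬ ∃ (X : Path n × unitInterval → EuclideanSpace ℝ (Fin n))
          (a : Path n × unitInterval → Matrix (Fin n) (Fin n) ℝ),
        MemLp X 2 (P.prod volume) ∧ (∀ i j, MemLp (fun w => a w i j) 2 (P.prod volume)) ∧
          IsSum P hP δ X a := by
  intro n hn P hP
  have := hP.cg.prob
  refine ⟨derL hP.cg (rot_shift hP), derL_leibniz hP.cg (rot_shift hP), ?_⟩
  rintro ⟨X, a, hX, ha, hs⟩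
  -- times going to zero
  set τ : ℕ → unitInterval := fun m => ⟨1 / ((m:ℝ) + 2), by positivity, by
    rw [div_le_one (by positivity)]
    have : (0:ℝ) ≤ m := by positivity
    linarith⟩ with hτ
  have hτ0 : ∀ m, 0 < ((τ m : unitInterval) : ℝ) := fun m => by
    change 0 < 1 / ((m:ℝ) + 2)
    positivity
  have hτ1 : ∀ m, ((τ m : unitInterval) : ℝ) ≤ 1 / 2 := fun m => by
    change 1 / ((m:ℝ) + 2) ≤ 1 / 2
    have : (0:ℝ) ≤ m := by positivity
    gcongr
    linarith
  have hτl : Tendsto (fun m => ((τ m : unitInterval) : ℝ)) atTop (𝓝 0) := by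
    change Tendsto (fun m : ℕ => 1 / ((m:ℝ) + 2)) atTop (𝓝 0)
    have h1 : Tendsto (fun m : ℕ => (m:ℝ) + 2) atTop atTop :=
      tendsto_atTop_add_const_right _ _ tendsto_natCast_atTop_atTop
    refine h1.inv_tendsto_atTop.congr fun m => ?_
    simp
  have hlow := fun m => lower hn hP hX ha hs (hτ0 m) (hτ1 m)
  have hlim : Tendsto (fun m => ∫ w, wt X (τ m) w ∂(P.prod volume)) atTop
      (𝓝 (∫ _ : Path n × unitInterval, (0:ℝ) ∂(P.prod volume))) := by
    refine tendsto_integral_of_dominated_convergence (fun w => ‖X w‖ ^ 2)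
      (fun m => wt_aesm hX (τ m)) (sq_integrable hX)
      (fun m => Eventually.of_forall fun w => wt_le X (τ m) w) ?_
    have h0 : ∀ᵐ w ∂(P.prod (volume : Measure unitInterval)), w.2 ≠ 0 := by
      have : Tendsto (Prod.snd : Path n × unitInterval → unitInterval)
          (ae (P.prod volume)) (ae volume) := Measure.quasiMeasurePreserving_snd.tendsto_ae
      have h1 : ∀ᵐ s : unitInterval, s ≠ 0 := by
        have : (volume : Measure unitInterval) {0} = 0 := measure_singleton 0
        exact compl_mem_ae_iff.2 this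
      exact this.eventually h1
    filter_upwards [h0] with w hw
    have hw' : 0 < (w.2 : ℝ) := by
      refine lt_of_le_of_ne w.2.2.1 fun hc => hw ?_
      apply Subtype.ext
      exact hc.symm
    refine tendsto_const_nhds.congr' ?_
    filter_upwards [hτl.eventually_lt_const hw'] with m hm
    unfold wt
    rw [if_neg]
    intro hc
    have hc' : (w.2 : ℝ) ≤ (τ m : ℝ) := hc
    linarith
  rw [integral_zero] at hlim
  have := ge_of_tendsto' hlim hlow
  linarith

end Pool.Agent.Helper99.MD
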